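import Pool.Agent.R896.DC.Defs

/-! Project DC: exact statements of the pieces (all are to be proved; see NOTES.md for complete proofs). -/

set_option autoImplicit false

namespace Pool.Agent.R896.DC

open Filter Topology Finset

/-! ### DC-PERM -/

/-- Permutations with few invariant initial segments dominate. -/
def StmtPerm : Prop := ∀ C : ℝ, 1 ≤ C → ∃ d0 : ℕ, ∀ d : ℕ, d0 ≤ d →
  ∑ τ : Equiv.Perm (Fin d), C ^ ((Finset.range d).filter fun j => 0 < j ∧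
    ∀ a : Fin d, (a : ℕ) < j → ((τ a : Fin d) : ℕ) < j).card ≤ 2 * (d.factorial : ℝ)

/-! ### DC-GEOB: structure of open geodesics -/

def StmtGeoB : Prop := ∀ n : ℕ,
  (∀ u w : V n, DependsOn (fun ω : Cfg n => Geo ω u w) (bits u w)) ∧
  (∀ (ω : Cfg n) (u v w : V n), Geo ω u v → ω (Sum.inl v) = true → Geo ω v w →
    (∀ i, v i = u i ∨ v i = w i) → Geo ω u w) ∧
  (∀ (ω : Cfg n) (u : V n) (i : Fin n), ω (ed u i) = true → Geo ω u (fl u i) ∧ Geo ω (fl u i) u) ∧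
  (∀ (ω : Cfg n) (u w : V n), ω (Sum.inl u) = true → ω (Sum.inl w) = true → Geo ω u w →
    (G ω).Reachable u w ∧ (G ω).dist u w ≤ hd u w) ∧
  (∀ (ω : Cfg n) (u w : V n), (G ω).Reachable u w → hd u w ≤ (G ω).dist u w)

/-! ### DC-GEO: second moment -/

def StmtGeo (pv pe : ℝ) : Prop := ∃ d0 : ℕ, ∀ (n : ℕ) (u w : V n), d0 ≤ hd u w →
  1 / 2 ≤ Pr (bp pv pe n) {ω | Geo ω u w}

/-! ### DC-LOC: local success -/

/-- `S` is good for the pair `(u,w)` and the direction set `D`. -/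
def Good {n : ℕ} (ω : Cfg n) (u w : V n) (D S : Finset (Fin n)) : Prop :=
  ω (Sum.inl (flS u S)) = true ∧ Geo ω u (flS u S) ∧
    ω (Sum.inl (flS w (D \ S))) = true ∧ Geo ω (flS w (D \ S)) w

open Classical in
/-- The good sets `S ⊆ D` of size `k`. -/
noncomputable def GoodSet {n : ℕ} (ω : Cfg n) (u w : V n) (D : Finset (Fin n)) (k : ℕ) :
    Finset (Finset (Fin n)) :=
  (powersetCard k D).filter fun S => Good ω u w D S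

def StmtLoc (pv pe : ℝ) : Prop := ∃ (k0 : ℕ) (θ g : ℝ), 0 < θ ∧ 0 < g ∧
  ∀ (n k : ℕ) (u w : V n) (D : Finset (Fin n)), k0 ≤ k → D.card = 2 * k → D ⊆ df u w →
    2 * k + 1 ≤ hd u w →
    g ≤ Pr (bp pv pe n) {ω | θ * ((2 * k).choose k : ℝ) ≤ ((GoodSet ω u w D k).card : ℝ)}

/-! ### DC-FAR: main exponential bound -/

def StmtFar (pv pe : ℝ) : Prop := ∀ K : ℕ, 0 < K → ∃ n0 : ℕ, ∀ n : ℕ, n0 ≤ n →
  ∀ (x y : V n) (U U' : Finset (Fin n)), U ⊆ df x y → U' ⊆ df x y → Disjoint U U' →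
    n ≤ U.card * K → n ≤ U'.card * K →
    Pr (bp pv pe n) {ω | ∀ i ∈ U, ∀ i' ∈ U', ¬ Geo ω (fl x i) (fl y i')} ≤ (1 / 100 : ℝ) ^ n

/-! ### DC-STEP -/

def StmtStep (pv pe : ℝ) : Prop := ∀ K1 K2 : ℕ, 0 < K1 → 0 < K2 → ∃ K' : ℕ, 0 < K' ∧ ∃ n0 : ℕ,
  ∀ n : ℕ, n0 ≤ n → ∀ (x : V n) (U W : Finset (Fin n)), Disjoint U W →
    n ≤ U.card * K1 → n ≤ W.card * K2 →
    Pr (bp pv pe n) {ω | ∀ i ∈ U, (W.filter fun j => Use ω (fl x i) j).card * K' < n}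
      ≤ (1 / 100 : ℝ) ^ n

/-! ### DC-LOW -/

def StmtLow (pv pe : ℝ) (m : ℕ) : Prop := ∃ K0 : ℕ, 0 < K0 ∧ ∃ C ρ : ℝ, 0 < C ∧ 0 < ρ ∧ 2 * ρ < 1 ∧
  ∀ K : ℕ, K0 ≤ K → ∀ (n : ℕ) (S : Finset (V n)), S.card = m + 1 →
    Pr (bp pv pe n) {ω | ∀ u ∈ S, Low K ω u} ≤ C * ρ ^ n

/-! ### the three bad events (DC-BAD) -/

def BadLow {n : ℕ} (m K R : ℕ) (ω : Cfg n) : Prop := ∃ (w : V n) (S : Finset (V n)),
  S.card = m + 1 ∧ ∀ u ∈ S, Low K ω u ∧ (hd u w ≤ R ∨ hd u (anti w) ≤ R)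

def BadFar {n : ℕ} (K : ℕ) (ω : Cfg n) : Prop := ∃ (x y : V n) (U U' : Finset (Fin n)),
  U ⊆ df x y ∧ U' ⊆ df x y ∧ Disjoint U U' ∧ n ≤ U.card * K ∧ n ≤ U'.card * K ∧
    ∀ i ∈ U, ∀ i' ∈ U', ¬ Geo ω (fl x i) (fl y i')

def BadStep {n : ℕ} (K1 K2 K' : ℕ) (ω : Cfg n) : Prop := ∃ (x : V n) (U W : Finset (Fin n)),
  Disjoint U W ∧ n ≤ U.card * K1 ∧ n ≤ W.card * K2 ∧
    ∀ i ∈ U, (W.filter fun j => Use ω (fl x i) j).card * K' < n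

def StmtBad (pv pe : ℝ) (m : ℕ) : Prop :=
  (StmtLow pv pe m → ∃ K0 : ℕ, 0 < K0 ∧ ∀ K : ℕ, K0 ≤ K → ∀ R : ℕ,
    Tendsto (fun n => Pr (bp pv pe n) {ω | BadLow m K R ω}) atTop (𝓝 0)) ∧
  (StmtFar pv pe → ∀ K : ℕ, 0 < K →
    Tendsto (fun n => Pr (bp pv pe n) {ω | BadFar K ω}) atTop (𝓝 0)) ∧
  (StmtStep pv pe → ∀ K1 K2 : ℕ, 0 < K1 → 0 < K2 → ∃ K' : ℕ, 0 < K' ∧
    Tendsto (fun n => Pr (bp pv pe n) {ω | BadStep K1 K2 K' ω}) atTop (𝓝 0))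

/-! ### DC-DETU: the deterministic upper bound -/

def StmtDetU : Prop := ∀ m K K' : ℕ, 0 < m → 0 < K → 0 < K' → ∃ K3 R n1 : ℕ, 0 < K3 ∧ m ≤ R ∧
  ∀ n : ℕ, n1 ≤ n → ∀ ω : Cfg n,
    ¬ BadLow m K R ω → ¬ BadStep (64 * K) 16 K' ω → ¬ BadFar K3 ω →
    (∀ x y : V n, (G ω).Reachable x y → (G ω).dist x y ≤ n + m) ∧
    (∀ w : V n, ω (Sum.inl w) = true → ω (Sum.inl (anti w)) = true →
      ¬ Low K ω w → ¬ Low K ω (anti w) → (G ω).Reachable w (anti w))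

/-! ### dead ends -/

/-- The `j`-th vertex of the path that starts at `w` in the directions `I 0, I 1, ...`. -/
def zz {n m : ℕ} (w : V n) (I : Fin m ↪ Fin n) (j : ℕ) : V n :=
  flS w ((univ.filter fun a : Fin m => (a : ℕ) < j).map I)

/-- A dead end of length `m` attached at `w`: the path `z_0 = w, z_1, ..., z_m` is present and open,
and the vertices `z_1, ..., z_m` have no other usable directions; moreover the antipode of `w` is present. -/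
def DE {n m : ℕ} (ω : Cfg n) (w : V n) (I : Fin m ↪ Fin n) : Prop :=
  (∀ j ≤ m, ω (Sum.inl (zz w I j)) = true) ∧ ω (Sum.inl (anti w)) = true ∧
  (∀ a : Fin m, ω (ed (zz w I a) (I a)) = true) ∧
  ∀ j : ℕ, 1 ≤ j → j ≤ m → ∀ i : Fin n, Use ω (zz w I j) i →
    fl (zz w I j) i = zz w I (j - 1) ∨ (j < m ∧ fl (zz w I j) i = zz w I (j + 1))

/-! ### DC-DETL: the deterministic lower bound -/

def StmtDetL : Prop := ∀ m K R : ℕ, 0 < m → 0 < K → m ≤ R → ∃ n1 : ℕ, ∀ n : ℕ, n1 ≤ n →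
  ∀ (ω : Cfg n) (w : V n) (I : Fin m ↪ Fin n), DE ω w I → ¬ BadLow m K R ω →
    ¬ Low K ω w ∧ ¬ Low K ω (anti w) ∧
    ((G ω).Reachable w (anti w) → ∃ x y : V n, (G ω).Reachable x y ∧ n + m ≤ (G ω).dist x y)

/-! ### DC-DE: dead ends exist -/

def StmtDE (pv pe : ℝ) (m : ℕ) : Prop := StmtLow pv pe m → 0 < m → 1 ≤ 2 * (1 - pv * pe) ^ m →
  Tendsto (fun n => Pr (bp pv pe n) {ω : Cfg n | ∃ (w : V n) (I : Fin m ↪ Fin n), DE ω w I})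
    atTop (𝓝 1)

end Pool.Agent.R896.DC
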