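import Pool.Agent.R896.DC.Tool
import Pool.Agent.R896.DC.Stm

set_option autoImplicit false

namespace Pool.Agent.R896.DC

open Filter Topology Finset

lemma m_props {q : ℝ} (hq1 : 1 / 2 < q) (hq2 : q < 1) :
    0 < ⌊-1 / Real.logb 2 q⌋₊ ∧ 1 ≤ 2 * q ^ ⌊-1 / Real.logb 2 q⌋₊ ∧
      2 * q ^ (⌊-1 / Real.logb 2 q⌋₊ + 1) < 1 := by
  set m := ⌊-1 / Real.logb 2 q⌋₊ with hm
  have hq0 : 0 < q := by linarith
  set L := Real.logb 2 q with hL
  have hL0 : L < 0 := Real.logb_neg (by norm_num) hq0 hq2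
  have hL1 : -1 < L := by
    have : Real.logb 2 (1 / 2) < Real.logb 2 q := Real.logb_lt_logb (by norm_num) (by norm_num) hq1
    rw [one_div, Real.logb_inv, Real.logb_self_eq_one (by norm_num)] at this
    exact this
  have hpos : 1 < -1 / L := by
    rw [lt_div_iff_of_neg hL0]; linarith
  have hx : 0 ≤ -1 / L := by linarith
  have hmle : (m : ℝ) ≤ -1 / L := Nat.floor_le hx
  have hmlt : -1 / L < m + 1 := Nat.lt_floor_add_one _
  have hqe : q = 2 ^ L := by rw [hL, Real.rpow_logb (by norm_num) (by norm_num) hq0]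
  refine ⟨?_, ?_, ?_⟩
  · rw [hm]; exact Nat.floor_pos.2 hpos.le
  · have h : (m : ℝ) * L ≥ -1 := by
      have := mul_le_mul_of_nonpos_right hmle hL0.le
      rw [div_mul_cancel₀ _ hL0.ne] at this
      exact this
    have h2 : q ^ m = 2 ^ ((m : ℝ) * L) := by
      rw [hqe, ← Real.rpow_natCast, ← Real.rpow_mul (by norm_num), mul_comm]
    rw [h2]
    have h3 : (2 : ℝ) ^ (-1 : ℝ) ≤ 2 ^ ((m : ℝ) * L) := Real.rpow_le_rpow_of_exponent_le (by norm_num) h
    rw [Real.rpow_neg_one] at h3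
    linarith
  · have h : ((m + 1 : ℕ) : ℝ) * L < -1 := by
      have := mul_lt_mul_of_neg_right hmlt hL0
      rw [div_mul_cancel₀ _ hL0.ne] at this
      push_cast
      exact this
    have h2 : q ^ (m + 1) = 2 ^ (((m + 1 : ℕ) : ℝ) * L) := by
      conv_lhs => rw [hqe]
      rw [← Real.rpow_natCast, ← Real.rpow_mul (by norm_num), mul_comm]
    rw [h2]
    have h3 : (2 : ℝ) ^ (((m + 1 : ℕ) : ℝ) * L) < 2 ^ (-1 : ℝ) :=
      Real.rpow_lt_rpow_of_exponent_lt (by norm_num) h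
    rw [Real.rpow_neg_one] at h3
    linarith

/-- The set of distances between vertices of the same component. -/
def Dists {n : ℕ} (ω : Cfg n) : Set ℕ :=
  {d | ∃ x y : V n, ω (Sum.inl x) = true ∧ ω (Sum.inl y) = true ∧ (G ω).Reachable x y ∧
    d = (G ω).dist x y}

lemma present_of_dist {n : ℕ} {ω : Cfg n} {x y : V n} (h : (G ω).Reachable x y)
    (hd : 0 < (G ω).dist x y) : ω (Sum.inl x) = true ∧ ω (Sum.inl y) = true := by
  obtain ⟨p, hp⟩ := h.exists_walk_length_eq_dist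
  constructor
  · cases p with
    | nil => simp at hd
    | cons h' p' => exact h'.1
  · have : ¬ p.reverse.Nil := by
      intro h0
      have := SimpleGraph.Walk.length_eq_zero_iff.2 h0
      rw [SimpleGraph.Walk.length_reverse] at this
      omega
    have h2 := p.reverse.adj_snd this
    exact h2.1

theorem assemble (pv pe : ℝ) (h1 : 0 < pv) (h2 : pv ≤ 1) (h3 : 0 < pe) (h4 : pe ≤ 1)
    (hp : pv * pe < 1 / 2) (far : StmtFar pv pe) (step : StmtStep pv pe)
    (low : ∀ m : ℕ, 2 * (1 - pv * pe) ^ (m + 1) < 1 → StmtLow pv pe m)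
    (bad : ∀ m : ℕ, StmtBad pv pe m) (detU : StmtDetU) (detL : StmtDetL)
    (dE : ∀ m : ℕ, StmtDE pv pe m) :
    Tendsto (fun n => Pr (bp pv pe n)
      {ω | IsGreatest (Dists ω) (n + ⌊-1 / Real.logb 2 (1 - pv * pe)⌋₊)}) atTop (𝓝 1) := by
  have hpp : 0 < pv * pe := mul_pos h1 h3
  obtain ⟨hm0, hm1, hm2⟩ := m_props (q := 1 - pv * pe) (by linarith) (by linarith)
  set m := ⌊-1 / Real.logb 2 (1 - pv * pe)⌋₊ with hm
  have hL := low m hm2
  obtain ⟨K, hK0, hK⟩ := (bad m).1 hL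
  obtain ⟨K', hK'0, hstep⟩ := (bad m).2.2 step (64 * K) 16 (by omega) (by norm_num)
  obtain ⟨K3, R, n1, hK3, hR, hU⟩ := detU m K K' hm0 hK0 hK'0
  have hlow := hK K le_rfl R
  have hfar := (bad m).2.1 far K3 hK3
  obtain ⟨n2, hn2⟩ := detL m K R hm0 hK0 hR
  have hde := dE m hL hm0 hm1
  have hunit : ∀ n i, 0 ≤ bp pv pe n i ∧ bp pv pe n i ≤ 1 := bp_unit h1.le h2 h3.le h4
  have hlim : Tendsto (fun n => Pr (bp pv pe n) {ω : Cfg n | ∃ (w : V n) (I : Fin m ↪ Fin n), DE ω w I}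
      - Pr (bp pv pe n) {ω | BadLow m K R ω} - Pr (bp pv pe n) {ω | BadStep (64 * K) 16 K' ω}
      - Pr (bp pv pe n) {ω | BadFar K3 ω}) atTop (𝓝 1) := by
    have := ((hde.sub hlow).sub hstep).sub hfar
    simpa using this
  refine tendsto_of_tendsto_of_tendsto_of_le_of_le' hlim tendsto_const_nhds ?_
    (Eventually.of_forall fun n => Pr_le_one (hunit n) _)
  filter_upwards [eventually_ge_atTop n1, eventually_ge_atTop n2] with n hn hn'
  have hsub : {ω : Cfg n | ∃ (w : V n) (I : Fin m ↪ Fin n), DE ω w I} ⊆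
      ({ω | IsGreatest (Dists ω) (n + m)} ∪ {ω | BadLow m K R ω}) ∪
        ({ω | BadStep (64 * K) 16 K' ω} ∪ {ω | BadFar K3 ω}) := by
    rintro ω ⟨w, I, hDE⟩
    by_cases c1 : BadLow m K R ω
    · exact Or.inl (Or.inr c1)
    by_cases c2 : BadStep (64 * K) 16 K' ω
    · exact Or.inr (Or.inl c2)
    by_cases c3 : BadFar K3 ω
    · exact Or.inr (Or.inr c3)
    refine Or.inl (Or.inl ?_)
    obtain ⟨hub, hre⟩ := hU n hn ω c1 c2 c3
    obtain ⟨e1, e2, e3⟩ := hn2 n hn' ω w I hDE c1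
    have hw0 : ω (Sum.inl w) = true := by
      have := hDE.1 0 (Nat.zero_le _)
      have h0 : zz w I 0 = w := by
        funext i
        simp [zz, flS]
      rwa [h0] at this
    obtain ⟨x, y, hxy, hd⟩ := e3 (hre w hw0 hDE.2.1 e1 e2)
    have hle := hub x y hxy
    have heq : (G ω).dist x y = n + m := le_antisymm hle hd
    have hpres := present_of_dist hxy (by omega)
    refine ⟨⟨x, y, hpres.1, hpres.2, hxy, heq.symm⟩, ?_⟩
    rintro d ⟨x', y', _, _, hr, rfl⟩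
    exact hub x' y' hr
  have k1 := Pr_mono (hunit n) hsub
  have k2 := Pr_union_le (hunit n) ({ω | IsGreatest (Dists ω) (n + m)} ∪ {ω | BadLow m K R ω})
    ({ω | BadStep (64 * K) 16 K' ω} ∪ {ω | BadFar K3 ω})
  have k3 := Pr_union_le (hunit n) {ω | IsGreatest (Dists ω) (n + m)} {ω : Cfg n | BadLow m K R ω}
  have k4 := Pr_union_le (hunit n) {ω : Cfg n | BadStep (64 * K) 16 K' ω} {ω : Cfg n | BadFar K3 ω}
  linarith

end Pool.Agent.R896.DC
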