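import Pool.Agent.R896.DC.Defs

/-! Project DC: toolkit for finite product Bernoulli measures. -/

set_option autoImplicit false

namespace Pool.Agent.R896.DC

open Finset

section
variable {I T : Type} [Fintype I] [DecidableEq I] [DecidableEq T]

theorem wt_nonneg {p : I → ℝ} (hp : ∀ i, 0 ≤ p i ∧ p i ≤ 1) (ω : I → Bool) : 0 ≤ wt p ω := by
  unfold wt
  refine Finset.prod_nonneg fun i _ => ?_
  split_ifs
  · exact (hp i).1
  · linarith [(hp i).2]

theorem sum_prod_bool (h : I → Bool → ℝ) :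
    ∑ ω : I → Bool, ∏ i, h i (ω i) = ∏ i, (h i true + h i false) := by
  have := Finset.prod_univ_sum (fun _ : I => (Finset.univ : Finset Bool)) (fun i b => h i b)
  rw [Fintype.piFinset_univ] at this
  rw [← this]
  simp

theorem sum_wt (p : I → ℝ) : ∑ ω, wt p ω = 1 := by
  unfold wt
  rw [sum_prod_bool (fun i b => if b = true then p i else 1 - p i)]
  simp

theorem Ex_const (p : I → ℝ) (c : ℝ) : Ex p (fun _ => c) = c := by
  unfold Ex
  rw [← Finset.sum_mul, sum_wt, one_mul]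

theorem Ex_add (p : I → ℝ) (f g : (I → Bool) → ℝ) : Ex p (fun ω => f ω + g ω) = Ex p f + Ex p g := by
  unfold Ex
  rw [← Finset.sum_add_distrib]
  exact Finset.sum_congr rfl fun ω _ => by ring

theorem Ex_sub (p : I → ℝ) (f g : (I → Bool) → ℝ) : Ex p (fun ω => f ω - g ω) = Ex p f - Ex p g := by
  unfold Ex
  rw [← Finset.sum_sub_distrib]
  exact Finset.sum_congr rfl fun ω _ => by ring

theorem Ex_mul_left (p : I → ℝ) (c : ℝ) (f : (I → Bool) → ℝ) : Ex p (fun ω => c * f ω) = c * Ex p f := by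
  unfold Ex
  rw [Finset.mul_sum]
  exact Finset.sum_congr rfl fun ω _ => by ring

theorem Ex_sum (p : I → ℝ) (s : Finset T) (f : T → (I → Bool) → ℝ) :
    Ex p (fun ω => ∑ t ∈ s, f t ω) = ∑ t ∈ s, Ex p (f t) := by
  unfold Ex
  rw [Finset.sum_comm]
  exact Finset.sum_congr rfl fun ω _ => by rw [Finset.mul_sum]

theorem Ex_mono {p : I → ℝ} (hp : ∀ i, 0 ≤ p i ∧ p i ≤ 1) {f g : (I → Bool) → ℝ} (h : ∀ ω, f ω ≤ g ω) :
    Ex p f ≤ Ex p g := by
  unfold Ex
  exact Finset.sum_le_sum fun ω _ => mul_le_mul_of_nonneg_left (h ω) (wt_nonneg hp ω)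

theorem Ex_nonneg {p : I → ℝ} (hp : ∀ i, 0 ≤ p i ∧ p i ≤ 1) {f : (I → Bool) → ℝ} (h : ∀ ω, 0 ≤ f ω) :
    0 ≤ Ex p f := by
  unfold Ex
  exact Finset.sum_nonneg fun ω _ => mul_nonneg (wt_nonneg hp ω) (h ω)

theorem Pr_nonneg {p : I → ℝ} (hp : ∀ i, 0 ≤ p i ∧ p i ≤ 1) (S : Set (I → Bool)) : 0 ≤ Pr p S := by
  unfold Pr
  refine Ex_nonneg hp fun ω => ?_
  split_ifs <;> norm_num

theorem Pr_le_one {p : I → ℝ} (hp : ∀ i, 0 ≤ p i ∧ p i ≤ 1) (S : Set (I → Bool)) : Pr p S ≤ 1 := by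
  unfold Pr
  refine (Ex_mono hp (g := fun _ => 1) fun ω => ?_).trans (Ex_const p 1).le
  split_ifs <;> norm_num

theorem Pr_mono {p : I → ℝ} (hp : ∀ i, 0 ≤ p i ∧ p i ≤ 1) {S S' : Set (I → Bool)} (h : S ⊆ S') :
    Pr p S ≤ Pr p S' := by
  unfold Pr
  refine Ex_mono hp fun ω => ?_
  by_cases h1 : ω ∈ S
  · rw [if_pos h1, if_pos (h h1)]
  · rw [if_neg h1]
    split_ifs <;> norm_num

theorem Pr_compl (p : I → ℝ) (S : Set (I → Bool)) : Pr p Sᶜ = 1 - Pr p S := by
  have h1 : Ex p (fun _ => (1 : ℝ)) = 1 := Ex_const p 1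
  have h2 : Pr p Sᶜ + Pr p S = Ex p (fun _ => (1 : ℝ)) := by
    unfold Pr
    rw [← Ex_add]
    congr 1
    funext ω
    by_cases h : ω ∈ S
    · have h' : ω ∉ Sᶜ := fun hh => hh h
      rw [if_neg h', if_pos h]; norm_num
    · have h' : ω ∈ Sᶜ := h
      rw [if_pos h', if_neg h]; norm_num
  rw [h1] at h2
  linarith

/-- union bound -/
theorem Pr_exists_le {p : I → ℝ} (hp : ∀ i, 0 ≤ p i ∧ p i ≤ 1) (s : Finset T) (A : T → Set (I → Bool)) :
    Pr p {ω | ∃ t ∈ s, ω ∈ A t} ≤ ∑ t ∈ s, Pr p (A t) := by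
  classical
  unfold Pr
  rw [← Ex_sum]
  refine Ex_mono hp fun ω => ?_
  have hnn : ∀ t ∈ s, (0 : ℝ) ≤ if ω ∈ A t then 1 else 0 := fun t _ => by
    split_ifs <;> norm_num
  by_cases h : ω ∈ {ω | ∃ t ∈ s, ω ∈ A t}
  · rw [if_pos h]
    obtain ⟨t, ht, hωt⟩ := h
    calc (1 : ℝ) = if ω ∈ A t then 1 else 0 := by rw [if_pos hωt]
      _ ≤ ∑ t ∈ s, if ω ∈ A t then 1 else 0 := Finset.single_le_sum hnn ht
  · rw [if_neg h]
    exact Finset.sum_nonneg hnn

theorem Pr_union_le {p : I → ℝ} (hp : ∀ i, 0 ≤ p i ∧ p i ≤ 1) (S S' : Set (I → Bool)) :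
    Pr p (S ∪ S') ≤ Pr p S + Pr p S' := by
  have h := Pr_exists_le hp (Finset.univ : Finset Bool) (fun b => if b = true then S else S')
  rw [Fintype.sum_bool] at h
  simp only [Bool.false_eq_true, if_true, if_false] at h
  refine (Pr_mono hp ?_).trans h
  rintro ω (hω | hω)
  · exact ⟨true, Finset.mem_univ _, hω⟩
  · exact ⟨false, Finset.mem_univ _, hω⟩

/-- Markov -/
theorem Pr_markov {p : I → ℝ} (hp : ∀ i, 0 ≤ p i ∧ p i ≤ 1) {f : (I → Bool) → ℝ} (hf : ∀ ω, 0 ≤ f ω)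
    {a : ℝ} (ha : 0 < a) : Pr p {ω | a ≤ f ω} ≤ Ex p f / a := by
  rw [le_div_iff₀ ha, mul_comm]
  unfold Pr
  rw [← Ex_mul_left]
  refine Ex_mono hp fun ω => ?_
  by_cases h : ω ∈ {ω | a ≤ f ω}
  · rw [if_pos h, mul_one]; exact h
  · rw [if_neg h, mul_zero]; exact hf ω

/-- reverse Markov -/
theorem Pr_rev_markov {p : I → ℝ} (hp : ∀ i, 0 ≤ p i ∧ p i ≤ 1) {f : (I → Bool) → ℝ} {M a : ℝ}
    (hM : 0 < M) (ha : 0 ≤ a) (hf : ∀ ω, f ω ≤ M) : (Ex p f - a) / M ≤ Pr p {ω | a ≤ f ω} := by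
  rw [div_le_iff₀ hM, sub_le_iff_le_add, mul_comm]
  have hc : Ex p (fun _ => a) = a := Ex_const p a
  have key : Ex p f ≤ M * Pr p {ω | a ≤ f ω} + Ex p (fun _ => a) := ?_
  · rwa [hc] at key
  unfold Pr
  rw [← Ex_mul_left, ← Ex_add]
  refine Ex_mono hp fun ω => ?_
  by_cases h : ω ∈ {ω | a ≤ f ω}
  · rw [if_pos h, mul_one]
    linarith [hf ω]
  · rw [if_neg h, mul_zero]
    have : f ω < a := lt_of_not_ge h
    linarith

/-- second moment inequality -/
theorem Ex_sq_le {p : I → ℝ} (hp : ∀ i, 0 ≤ p i ∧ p i ≤ 1) (f : (I → Bool) → ℝ) :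
    (Ex p f) ^ 2 ≤ Ex p (fun ω => f ω ^ 2) * Pr p {ω | f ω ≠ 0} := by
  classical
  have h := Finset.sum_mul_sq_le_sq_mul_sq (Finset.univ : Finset (I → Bool))
    (fun ω => Real.sqrt (wt p ω) * f ω)
    (fun ω => Real.sqrt (wt p ω) * (if ω ∈ {ω | f ω ≠ 0} then 1 else 0))
  have hs : ∀ ω, Real.sqrt (wt p ω) * Real.sqrt (wt p ω) = wt p ω := fun ω =>
    Real.mul_self_sqrt (wt_nonneg hp ω)
  have e1 : ∑ ω, (Real.sqrt (wt p ω) * f ω) *
      (Real.sqrt (wt p ω) * (if ω ∈ {ω | f ω ≠ 0} then 1 else 0)) = Ex p f := by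
    unfold Ex
    refine Finset.sum_congr rfl fun ω _ => ?_
    by_cases h0 : ω ∈ {ω | f ω ≠ 0}
    · rw [if_pos h0]
      calc _ = (Real.sqrt (wt p ω) * Real.sqrt (wt p ω)) * f ω := by ring
        _ = _ := by rw [hs]
    · rw [if_neg h0]
      have : f ω = 0 := not_not.mp h0
      rw [this]; ring
  have e2 : ∑ ω, (Real.sqrt (wt p ω) * f ω) ^ 2 = Ex p (fun ω => f ω ^ 2) := by
    unfold Ex
    refine Finset.sum_congr rfl fun ω _ => ?_
    calc _ = (Real.sqrt (wt p ω) * Real.sqrt (wt p ω)) * f ω ^ 2 := by ring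
      _ = _ := by rw [hs]
  have e3 : ∑ ω, (Real.sqrt (wt p ω) * (if ω ∈ {ω | f ω ≠ 0} then (1 : ℝ) else 0)) ^ 2 =
      Pr p {ω | f ω ≠ 0} := by
    unfold Pr Ex
    refine Finset.sum_congr rfl fun ω _ => ?_
    by_cases h0 : ω ∈ {ω | f ω ≠ 0}
    · simp only [if_pos h0]
      rw [mul_one, mul_one, sq, hs]
    · simp only [if_neg h0]
      ring
  rw [e1, e2, e3] at h
  exact h

/-- independence of two functions -/
theorem Ex_ind2 (p : I → ℝ) (J J' : Set I) (f g : (I → Bool) → ℝ) (hf : DependsOn f J)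
    (hg : DependsOn g J') (hJ : Disjoint J J') :
    Ex p (fun ω => f ω * g ω) = Ex p f * Ex p g := by
  classical
  let e := Equiv.piEquivPiSubtypeProd (fun i => i ∈ J) (fun _ : I => Bool)
  let pa : {i // i ∈ J} → ℝ := fun i => p i
  let pb : {i // i ∉ J} → ℝ := fun i => p i
  have hw : ∀ ab, wt p (e.symm ab) = wt pa ab.1 * wt pb ab.2 := by
    rintro ⟨a, b⟩
    unfold wt
    rw [← Fintype.prod_subtype_mul_prod_subtype (fun i => i ∈ J)]
    congr 1
    · refine Finset.prod_congr rfl fun i _ => ?_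
      have : e.symm (a, b) i = a i := by
        simp [e, Equiv.piEquivPiSubtypeProd, i.2]
      rw [this]
    · refine Finset.prod_congr rfl fun i _ => ?_
      have : e.symm (a, b) i = b i := by
        simp [e, Equiv.piEquivPiSubtypeProd, i.2]
      rw [this]
  let b0 : {i // i ∉ J} → Bool := fun _ => false
  let a0 : {i // i ∈ J} → Bool := fun _ => false
  have hfa : ∀ a b, f (e.symm (a, b)) = f (e.symm (a, b0)) := by
    intro a b
    refine hf ?_
    intro i hi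
    simp [e, Equiv.piEquivPiSubtypeProd, hi]
  have hgb : ∀ a b, g (e.symm (a, b)) = g (e.symm (a0, b)) := by
    intro a b
    refine hg ?_
    intro i hi
    have hi' : i ∉ J := fun h => (Set.disjoint_left.mp hJ) h hi
    simp [e, Equiv.piEquivPiSubtypeProd, hi']
  have key : ∀ F : (I → Bool) → ℝ, Ex p F = ∑ a, ∑ b, wt pa a * wt pb b * F (e.symm (a, b)) := by
    intro F
    unfold Ex
    rw [← Equiv.sum_comp e.symm, Fintype.sum_prod_type]
    refine Finset.sum_congr rfl fun a _ => Finset.sum_congr rfl fun b _ => ?_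
    rw [hw]
  have kf : Ex p f = ∑ a, wt pa a * f (e.symm (a, b0)) := by
    rw [key]
    refine Finset.sum_congr rfl fun a _ => ?_
    calc ∑ b, wt pa a * wt pb b * f (e.symm (a, b))
        = ∑ b, wt pb b * (wt pa a * f (e.symm (a, b0))) :=
          Finset.sum_congr rfl fun b _ => by rw [hfa a b]; ring
      _ = wt pa a * f (e.symm (a, b0)) := by rw [← Finset.sum_mul, sum_wt, one_mul]
  have kg : Ex p g = ∑ b, wt pb b * g (e.symm (a0, b)) := by
    rw [key, Finset.sum_comm]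
    refine Finset.sum_congr rfl fun b _ => ?_
    calc ∑ a, wt pa a * wt pb b * g (e.symm (a, b))
        = ∑ a, wt pa a * (wt pb b * g (e.symm (a0, b))) :=
          Finset.sum_congr rfl fun a _ => by rw [hgb a b]; ring
      _ = wt pb b * g (e.symm (a0, b)) := by rw [← Finset.sum_mul, sum_wt, one_mul]
  rw [kf, kg, Finset.sum_mul_sum, key]
  refine Finset.sum_congr rfl fun a _ => Finset.sum_congr rfl fun b _ => ?_
  show wt pa a * wt pb b * (f (e.symm (a, b)) * g (e.symm (a, b))) = _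
  rw [hfa a b, hgb a b]
  ring

/-- independence, any real weights -/
theorem Ex_prod_ind (p : I → ℝ) (s : Finset T) (J : T → Set I) (f : T → (I → Bool) → ℝ)
    (hf : ∀ t ∈ s, DependsOn (f t) (J t)) (hJ : ∀ a ∈ s, ∀ b ∈ s, a ≠ b → Disjoint (J a) (J b)) :
    Ex p (fun ω => ∏ t ∈ s, f t ω) = ∏ t ∈ s, Ex p (f t) := by
  induction s using Finset.induction_on with
  | empty => simpa using Ex_const p 1
  | insert t s ht ih =>
    have h1 : Ex p (fun ω => ∏ t ∈ s, f t ω) = ∏ t ∈ s, Ex p (f t) :=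
      ih (fun t' h' => hf t' (Finset.mem_insert_of_mem h'))
        (fun a ha b hb hab => hJ a (Finset.mem_insert_of_mem ha) b (Finset.mem_insert_of_mem hb) hab)
    rw [Finset.prod_insert ht, ← h1]
    have h2 : (fun ω => ∏ t' ∈ insert t s, f t' ω) = fun ω => f t ω * ∏ t' ∈ s, f t' ω := by
      funext ω
      rw [Finset.prod_insert ht]
    rw [h2]
    refine Ex_ind2 p (J t) (⋃ t' ∈ s, J t') (f t) (fun ω => ∏ t' ∈ s, f t' ω)
      (hf t (Finset.mem_insert_self _ _)) ?_ ?_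
    · intro x y hxy
      refine Finset.prod_congr rfl fun t' ht' => ?_
      refine hf t' (Finset.mem_insert_of_mem ht') ?_
      intro i hi
      exact hxy i (Set.mem_biUnion ht' hi)
    · rw [Set.disjoint_iUnion₂_right]
      intro t' ht'
      exact hJ t (Finset.mem_insert_self _ _) t' (Finset.mem_insert_of_mem ht')
        (fun h => ht (h ▸ ht'))

theorem Pr_ind (p : I → ℝ) (s : Finset T) (J : T → Set I) (A : T → (I → Bool) → Prop)
    (hf : ∀ t ∈ s, DependsOn (A t) (J t)) (hJ : ∀ a ∈ s, ∀ b ∈ s, a ≠ b → Disjoint (J a) (J b)) :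
    Pr p {ω | ∀ t ∈ s, A t ω} = ∏ t ∈ s, Pr p {ω | A t ω} := by
  classical
  unfold Pr
  rw [← Ex_prod_ind p s J (fun t ω => if ω ∈ {ω | A t ω} then (1 : ℝ) else 0) ?_ hJ]
  · congr 1
    funext ω
    by_cases h : ω ∈ {ω | ∀ t ∈ s, A t ω}
    · rw [if_pos h]
      refine (Finset.prod_eq_one fun t ht => ?_).symm
      exact if_pos (h t ht)
    · rw [if_neg h]
      have h' : ∃ t ∈ s, ¬ A t ω := by
        by_contra hc
        push Not at hc
        exact h hc
      obtain ⟨t, ht, hA⟩ := h'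
      refine (Finset.prod_eq_zero ht ?_).symm
      exact if_neg hA
  · intro t ht x y hxy
    have h1 := hf t ht hxy
    by_cases h2 : A t x
    · have h3 : A t y := by rw [← h1]; exact h2
      have h2' : x ∈ {ω | A t ω} := h2
      have h3' : y ∈ {ω | A t ω} := h3
      simp only [if_pos h2', if_pos h3']
    · have h3 : ¬ A t y := by rw [← h1]; exact h2
      have h2' : x ∉ {ω | A t ω} := h2
      have h3' : y ∉ {ω | A t ω} := h3
      simp only [if_neg h2', if_neg h3']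

theorem Pr_ind2 (p : I → ℝ) (J J' : Set I) (A B : (I → Bool) → Prop) (hA : DependsOn A J)
    (hB : DependsOn B J') (hJ : Disjoint J J') :
    Pr p {ω | A ω ∧ B ω} = Pr p {ω | A ω} * Pr p {ω | B ω} := by
  classical
  unfold Pr
  rw [← Ex_ind2 p J J' (fun ω => if ω ∈ {ω | A ω} then (1 : ℝ) else 0)
    (fun ω => if ω ∈ {ω | B ω} then (1 : ℝ) else 0) ?_ ?_ hJ]
  · congr 1
    funext ω
    by_cases h1 : A ω
    · by_cases h2 : B ω
      · have a1 : ω ∈ {ω | A ω ∧ B ω} := ⟨h1, h2⟩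
        have a2 : ω ∈ {ω | A ω} := h1
        have a3 : ω ∈ {ω | B ω} := h2
        rw [if_pos a1, if_pos a2, if_pos a3]; norm_num
      · have a1 : ω ∉ {ω | A ω ∧ B ω} := fun h => h2 h.2
        have a3 : ω ∉ {ω | B ω} := h2
        rw [if_neg a1, if_neg a3]; norm_num
    · have a1 : ω ∉ {ω | A ω ∧ B ω} := fun h => h1 h.1
      have a2 : ω ∉ {ω | A ω} := h1
      rw [if_neg a1, if_neg a2]; norm_num
  · intro x y hxy
    have h1 := hA hxy
    have : (x ∈ {ω | A ω}) = (y ∈ {ω | A ω}) := h1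
    simp only [this]
  · intro x y hxy
    have h1 := hB hxy
    have : (x ∈ {ω | B ω}) = (y ∈ {ω | B ω}) := h1
    simp only [this]

theorem Ex_bit (p : I → ℝ) (c : I) (g : Bool → ℝ) :
    Ex p (fun ω => g (ω c)) = p c * g true + (1 - p c) * g false := by
  have h := sum_prod_bool (fun (i : I) b => (if b = true then p i else 1 - p i) *
    (if i = c then g b else 1))
  have h1 : ∀ ω : I → Bool, ∏ i, ((if ω i = true then p i else 1 - p i) *
      (if i = c then g (ω i) else 1)) = wt p ω * g (ω c) := by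
    intro ω
    rw [Finset.prod_mul_distrib]
    unfold wt
    congr 1
    rw [Finset.prod_ite_eq' Finset.univ c (fun i => g (ω i))]
    simp
  have h2 : ∏ i, (((if true = true then p i else 1 - p i) * (if i = c then g true else 1)) +
      ((if false = true then p i else 1 - p i) * (if i = c then g false else 1))) =
      p c * g true + (1 - p c) * g false := by
    rw [Finset.prod_eq_single c]
    · simp
    · intro b _ hb
      simp [hb]
    · intro h; exact absurd (Finset.mem_univ c) h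
  unfold Ex
  rw [← h2, ← h]
  exact Finset.sum_congr rfl fun ω _ => (h1 ω).symm

theorem Pr_bit (p : I → ℝ) (c : I) : Pr p {ω | ω c = true} = p c := by
  classical
  have h := Ex_bit p c (fun b => if b = true then 1 else 0)
  simp only [if_true, Bool.false_eq_true, if_false, mul_one, mul_zero, add_zero] at h
  rw [← h]
  unfold Pr
  congr 1
  funext ω
  by_cases hc : ω c = true
  · have a1 : ω ∈ {ω : I → Bool | ω c = true} := hc
    rw [if_pos a1, if_pos hc]
  · have a1 : ω ∉ {ω : I → Bool | ω c = true} := hc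
    rw [if_neg a1, if_neg hc]

theorem Pr_forall_true (p : I → ℝ) (C : Finset I) : Pr p {ω | ∀ c ∈ C, ω c = true} = ∏ c ∈ C, p c := by
  rw [Pr_ind p C (fun c => {c}) (fun c ω => ω c = true) ?_ ?_]
  · exact Finset.prod_congr rfl fun c _ => Pr_bit p c
  · intro c _ x y hxy
    have := hxy c (Set.mem_singleton c)
    simp only [this]
  · intro a _ b _ hab
    exact Set.disjoint_singleton.mpr hab

end

/-- the weights of the cube lie in `[0,1]` -/
theorem bp_unit {pv pe : ℝ} (h1 : 0 ≤ pv) (h2 : pv ≤ 1) (h3 : 0 ≤ pe) (h4 : pe ≤ 1) (n : ℕ) :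
    ∀ i, 0 ≤ bp pv pe n i ∧ bp pv pe n i ≤ 1 := by
  rintro (i | i)
  · exact ⟨h1, h2⟩
  · exact ⟨h3, h4⟩

end Pool.Agent.R896.DC
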