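import Pool.Agent.R896.DC.Stm
import Pool.Agent.R896.DC.Tool

/-! DC-BAD (MP_d3947f_pr): three union bounds. -/

set_option autoImplicit false

namespace Pool.Agent.R896.DC

open Filter Topology

namespace Bad

variable {n : ℕ}

/-- generic union bound -/
lemma union_bound {T : Type} [DecidableEq T] {pv pe : ℝ} (h1 : 0 < pv) (h2 : pv ≤ 1)
    (h3 : 0 < pe) (h4 : pe ≤ 1) (s : Finset T) (N : ℝ) (hs : (s.card : ℝ) ≤ N)
    (A : T → Set (Cfg n)) (c : ℝ) (hc : 0 ≤ c) (S : Set (Cfg n))
    (hS : ∀ ω ∈ S, ∃ t ∈ s, ω ∈ A t)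
    (h : ∀ t ∈ s, Pr (bp pv pe n) (A t) ≤ c) : Pr (bp pv pe n) S ≤ N * c := by
  have hp := bp_unit h1.le h2 h3.le h4 n
  calc Pr (bp pv pe n) S ≤ Pr (bp pv pe n) {ω | ∃ t ∈ s, ω ∈ A t} :=
        Pr_mono hp (fun ω hω => hS ω hω)
    _ ≤ ∑ t ∈ s, Pr (bp pv pe n) (A t) := Pr_exists_le hp s A
    _ ≤ ∑ _t ∈ s, c := Finset.sum_le_sum h
    _ = s.card * c := by rw [Finset.sum_const, nsmul_eq_mul]
    _ ≤ N * c := mul_le_mul_of_nonneg_right hs hc

lemma card_V : Fintype.card (V n) = 2 ^ n := by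
  simp [V]

lemma card_F : Fintype.card (Finset (Fin n)) = 2 ^ n := by
  simp

lemma df_inj (w : V n) {u u' : V n} (h : df u w = df u' w) : u = u' := by
  funext i
  have h1 : i ∈ df u w ↔ i ∈ df u' w := by rw [h]
  unfold df at h1
  rw [Finset.mem_filter, Finset.mem_filter] at h1
  simp only [Finset.mem_univ, true_and] at h1
  revert h1
  cases u i <;> cases u' i <;> cases w i <;> simp

lemma ball_card (w : V n) (R : ℕ) :
    (Finset.univ.filter fun u : V n => hd u w ≤ R).card ≤ (R + 1) * (n + 1) ^ R := by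
  classical
  have h1 : (Finset.univ.filter fun u : V n => hd u w ≤ R).card ≤
      ((Finset.range (R + 1)).biUnion
        (fun i => Finset.powersetCard i (Finset.univ : Finset (Fin n)))).card := by
    refine Finset.card_le_card_of_injOn (fun u => df u w) ?_ ?_
    · intro u hu
      rw [Finset.mem_coe, Finset.mem_filter] at hu
      rw [Finset.mem_coe, Finset.mem_biUnion]
      refine ⟨hd u w, ?_, ?_⟩
      · rw [Finset.mem_range]
        omega
      · rw [Finset.mem_powersetCard]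
        exact ⟨Finset.subset_univ _, rfl⟩
    · intro u _ u' _ h
      exact df_inj w h
  refine h1.trans (Finset.card_biUnion_le.trans ?_)
  calc ∑ i ∈ Finset.range (R + 1), (Finset.powersetCard i (Finset.univ : Finset (Fin n))).card
      ≤ ∑ _i ∈ Finset.range (R + 1), (n + 1) ^ R := by
        apply Finset.sum_le_sum
        intro i hi
        rw [Finset.mem_range] at hi
        rw [Finset.card_powersetCard, Finset.card_univ, Fintype.card_fin]
        calc n.choose i ≤ n ^ i := Nat.choose_le_pow n i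
          _ ≤ (n + 1) ^ i := Nat.pow_le_pow_left (Nat.le_succ n) i
          _ ≤ (n + 1) ^ R := Nat.pow_le_pow_right (Nat.succ_pos n) (by omega)
    _ = (R + 1) * (n + 1) ^ R := by
        rw [Finset.sum_const, Finset.card_range, smul_eq_mul]

/-- the two balls -/
def Nb (w : V n) (R : ℕ) : Finset (V n) :=
  Finset.univ.filter fun u : V n => hd u w ≤ R ∨ hd u (anti w) ≤ R

lemma Nb_card (w : V n) (R : ℕ) : (Nb w R).card ≤ 2 * (R + 1) * (n + 1) ^ R := by
  classical
  unfold Nb
  rw [Finset.filter_or]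
  refine (Finset.card_union_le _ _).trans ?_
  have h1 := ball_card w R
  have h2 := ball_card (anti w) R
  calc _ ≤ (R + 1) * (n + 1) ^ R + (R + 1) * (n + 1) ^ R := Nat.add_le_add h1 h2
    _ = 2 * (R + 1) * (n + 1) ^ R := by ring

end Bad

open Bad

theorem bad {pv pe : ℝ} (h1 : 0 < pv) (h2 : pv ≤ 1) (h3 : 0 < pe) (h4 : pe ≤ 1) (m : ℕ) :
    StmtBad pv pe m := by
  classical
  have hp := fun n => bp_unit h1.le h2 h3.le h4 n
  refine ⟨?_, ?_, ?_⟩
  · rintro ⟨K0, hK0, C, ρ, hC, hρ, hρ2, hlow⟩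
    refine ⟨K0, hK0, ?_⟩
    intro K hK R
    have hbound : ∀ n : ℕ, Pr (bp pv pe n) {ω | BadLow m K R ω} ≤
        (2 ^ n * (2 * (R + 1) * (n + 1) ^ R) ^ (m + 1) : ℝ) * (C * ρ ^ n) := by
      intro n
      refine union_bound h1 h2 h3 h4 ((Finset.univ : Finset (V n)).sigma
        (fun w => Finset.powersetCard (m + 1) (Nb w R))) _ ?_
        (fun t => {ω | ∀ u ∈ t.2, Low K ω u}) _ (by positivity) _ ?_ ?_
      · rw [Finset.card_sigma]
        push_cast
        calc (∑ x : V n, ((Finset.powersetCard (m + 1) (Nb x R)).card : ℝ))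
            ≤ ∑ _x : V n, ((2 * (R + 1) * (n + 1) ^ R) ^ (m + 1) : ℝ) := by
              apply Finset.sum_le_sum
              intro w _
              rw [Finset.card_powersetCard]
              have h5 : (Nb w R).card.choose (m + 1) ≤ (2 * (R + 1) * (n + 1) ^ R) ^ (m + 1) :=
                (Nat.choose_le_pow _ _).trans (Nat.pow_le_pow_left (Nb_card w R) _)
              exact_mod_cast h5
          _ = 2 ^ n * (2 * (R + 1) * (n + 1) ^ R) ^ (m + 1) := by
              rw [Finset.sum_const, Finset.card_univ, card_V, nsmul_eq_mul]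
              push_cast
              rfl
      · rintro ω ⟨w, S, hS, hSu⟩
        refine ⟨⟨w, S⟩, ?_, fun u hu => (hSu u hu).1⟩
        rw [Finset.mem_sigma]
        refine ⟨Finset.mem_univ _, ?_⟩
        rw [Finset.mem_powersetCard]
        refine ⟨?_, hS⟩
        intro u hu
        unfold Nb
        rw [Finset.mem_filter]
        exact ⟨Finset.mem_univ _, (hSu u hu).2⟩
      · intro t ht
        rw [Finset.mem_sigma, Finset.mem_powersetCard] at ht
        exact hlow K hK n t.2 ht.2.2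
    have hlim : Tendsto (fun n : ℕ => (2 ^ n * (2 * (R + 1) * (n + 1) ^ R) ^ (m + 1) : ℝ) *
        (C * ρ ^ n)) atTop (𝓝 0) := by
      have h5 : Tendsto (fun n : ℕ => (n : ℝ) ^ (R * (m + 1)) * (2 * ρ) ^ n) atTop (𝓝 0) :=
        tendsto_pow_const_mul_const_pow_of_abs_lt_one _ (by rw [abs_of_pos (by positivity)]; exact hρ2)
      have h6 := (tendsto_add_atTop_iff_nat 1).mpr h5
      have h7 := h6.const_mul ((2 * (R + 1)) ^ (m + 1) * C * (2 * ρ)⁻¹ : ℝ)
      rw [mul_zero] at h7
      refine h7.congr ?_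
      intro n
      have hρ' : (2 * ρ) ≠ 0 := by positivity
      push_cast
      rw [pow_succ (2 * ρ) n, mul_pow (2 * ((R : ℝ) + 1)) _ (m + 1), ← pow_mul ((n : ℝ) + 1),
        mul_pow 2 ρ n]
      field_simp
    exact squeeze_zero (fun n => Pr_nonneg (hp n) _) hbound hlim
  · intro hfar K hK
    obtain ⟨n0, hn0⟩ := hfar K hK
    have hlim : Tendsto (fun n : ℕ => (16 : ℝ) ^ n * (1 / 100) ^ n) atTop (𝓝 0) := by
      have : (fun n : ℕ => (16 : ℝ) ^ n * (1 / 100) ^ n) = fun n => (16 / 100 : ℝ) ^ n := by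
        funext n
        rw [← mul_pow]
        norm_num
      rw [this]
      exact tendsto_pow_atTop_nhds_zero_of_lt_one (by norm_num) (by norm_num)
    refine squeeze_zero' (Eventually.of_forall fun n => Pr_nonneg (hp n) _) ?_ hlim
    filter_upwards [eventually_ge_atTop n0] with n hn
    refine union_bound h1 h2 h3 h4 ((Finset.univ : Finset ((V n × V n) ×
      (Finset (Fin n) × Finset (Fin n)))).filter (fun t => t.2.1 ⊆ df t.1.1 t.1.2 ∧
        t.2.2 ⊆ df t.1.1 t.1.2 ∧ Disjoint t.2.1 t.2.2 ∧ n ≤ t.2.1.card * K ∧ n ≤ t.2.2.card * K))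
      _ ?_ (fun t => {ω | ∀ i ∈ t.2.1, ∀ i' ∈ t.2.2, ¬ Geo ω (fl t.1.1 i) (fl t.1.2 i')}) _
      (by positivity) _ ?_ ?_
    · have h5 : (((Finset.univ : Finset ((V n × V n) ×
        (Finset (Fin n) × Finset (Fin n)))).filter (fun t => t.2.1 ⊆ df t.1.1 t.1.2 ∧
        t.2.2 ⊆ df t.1.1 t.1.2 ∧ Disjoint t.2.1 t.2.2 ∧ n ≤ t.2.1.card * K ∧
          n ≤ t.2.2.card * K))).card ≤ 16 ^ n := by
        refine (Finset.card_filter_le _ _).trans (le_of_eq ?_)
        rw [Finset.card_univ, Fintype.card_prod, Fintype.card_prod, Fintype.card_prod, card_V, card_F,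
          ← mul_pow, ← mul_pow]
        norm_num
      exact_mod_cast h5
    · rintro ω ⟨x, y, U, U', hU, hU', hUU, hc, hc', hG⟩
      refine ⟨((x, y), (U, U')), ?_, hG⟩
      rw [Finset.mem_filter]
      exact ⟨Finset.mem_univ _, hU, hU', hUU, hc, hc'⟩
    · intro t ht
      rw [Finset.mem_filter] at ht
      obtain ⟨_, hU, hU', hUU, hc, hc'⟩ := ht
      exact hn0 n hn _ _ _ _ hU hU' hUU hc hc'
  · intro hstep K1 K2 hK1 hK2
    obtain ⟨K', hK', n0, hn0⟩ := hstep K1 K2 hK1 hK2
    refine ⟨K', hK', ?_⟩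
    have hlim : Tendsto (fun n : ℕ => (8 : ℝ) ^ n * (1 / 100) ^ n) atTop (𝓝 0) := by
      have : (fun n : ℕ => (8 : ℝ) ^ n * (1 / 100) ^ n) = fun n => (8 / 100 : ℝ) ^ n := by
        funext n
        rw [← mul_pow]
        norm_num
      rw [this]
      exact tendsto_pow_atTop_nhds_zero_of_lt_one (by norm_num) (by norm_num)
    refine squeeze_zero' (Eventually.of_forall fun n => Pr_nonneg (hp n) _) ?_ hlim
    filter_upwards [eventually_ge_atTop n0] with n hn
    refine union_bound h1 h2 h3 h4 ((Finset.univ : Finset (V n ×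
      (Finset (Fin n) × Finset (Fin n)))).filter (fun t => Disjoint t.2.1 t.2.2 ∧
        n ≤ t.2.1.card * K1 ∧ n ≤ t.2.2.card * K2))
      _ ?_ (fun t => {ω | ∀ i ∈ t.2.1, (t.2.2.filter fun j => Use ω (fl t.1 i) j).card * K' < n}) _
      (by positivity) _ ?_ ?_
    · have h5 : ((Finset.univ : Finset (V n ×
        (Finset (Fin n) × Finset (Fin n)))).filter (fun t => Disjoint t.2.1 t.2.2 ∧
          n ≤ t.2.1.card * K1 ∧ n ≤ t.2.2.card * K2)).card ≤ 8 ^ n := by
        refine (Finset.card_filter_le _ _).trans (le_of_eq ?_)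
        rw [Finset.card_univ, Fintype.card_prod, Fintype.card_prod, card_V, card_F,
          ← mul_pow, ← mul_pow]
        norm_num
      exact_mod_cast h5
    · rintro ω ⟨x, U, W, hUW, hc, hc', hG⟩
      refine ⟨(x, (U, W)), ?_, hG⟩
      rw [Finset.mem_filter]
      exact ⟨Finset.mem_univ _, hUW, hc, hc'⟩
    · intro t ht
      rw [Finset.mem_filter] at ht
      obtain ⟨_, hUW, hc, hc'⟩ := ht
      exact hn0 n hn _ _ _ hUW hc hc'

end Pool.Agent.R896.DC
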