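import Pool.Agent.R896.DC.Stm
import Pool.Agent.R896.DC.Tool

/-! Project DC: piece DC-DE (dead ends exist, second moment method). -/

set_option autoImplicit false

namespace Pool.Agent.R896.DC

open Filter Topology Finset

namespace DEp

variable {n m : ℕ}

lemma flS_inj (w : V n) {S S' : Finset (Fin n)} (h : flS w S = flS w S') : S = S' := by
  ext i
  have := congrFun h i
  by_cases h1 : i ∈ S <;> by_cases h2 : i ∈ S' <;> simp_all [flS]

lemma fl_flS (w : V n) {S : Finset (Fin n)} {i : Fin n} (hi : i ∉ S) :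
    fl (flS w S) i = flS w (insert i S) := by
  funext k
  by_cases h : k = i
  · subst h; simp [fl, flS, hi]
  · simp [fl, flS, h]

lemma fl_fl (u : V n) (i : Fin n) : fl (fl u i) i = u := by
  funext k
  by_cases h : k = i
  · subst h; simp [fl, flS]
  · simp [fl, flS, h]

lemma fl_inj (u : V n) {i j : Fin n} (h : fl u i = fl u j) : i = j :=
  Finset.singleton_injective (flS_inj u h)

lemma df_flS (w : V n) (S : Finset (Fin n)) : df (flS w S) w = S := by
  ext i
  by_cases h : i ∈ S <;> simp [df, flS, h]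

lemma hd_comm (u w : V n) : hd u w = hd w u := by
  unfold hd df
  congr 1
  ext i
  simp [eq_comm]

lemma hd_triangle (u v w : V n) : hd u w ≤ hd u v + hd v w := by
  unfold hd
  refine le_trans (Finset.card_le_card ?_) (Finset.card_union_le _ _)
  intro i hi
  rw [df, Finset.mem_filter] at hi
  rw [Finset.mem_union, df, df, Finset.mem_filter, Finset.mem_filter]
  by_cases h : u i = v i
  · right; exact ⟨mem_univ _, fun h2 => hi.2 (h.trans h2)⟩
  · left; exact ⟨mem_univ _, h⟩

lemma hd_fl (u : V n) (i : Fin n) : hd (fl u i) u = 1 := by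
  unfold hd fl
  rw [df_flS]; simp

lemma hd_self (u : V n) : hd u u = 0 := by simp [hd, df]

lemma hd_anti (u w : V n) : hd (anti u) w = hd u (anti w) := by
  unfold hd
  congr 1
  ext i
  simp only [df, anti, flS, Finset.mem_filter, mem_univ, true_and, if_true]
  cases u i <;> cases w i <;> simp

lemma ed_eq {z z' : V n} {i i' : Fin n} (h : ed z i = ed z' i') :
    i = i' ∧ (z' = z ∨ z' = fl z i) := by
  unfold ed at h
  have h1 := Sum.inr.inj h
  have h2 : i = i' := congrArg Prod.snd h1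
  subst h2
  have h3 : Function.update z i false = Function.update z' i false := congrArg Prod.fst h1
  have h4 : ∀ k, k ≠ i → z' k = z k := by
    intro k hk
    have := congrFun h3 k
    simp only [Function.update_of_ne hk] at this
    exact this.symm
  refine ⟨rfl, ?_⟩
  by_cases h5 : z' i = z i
  · left
    funext k
    by_cases hk : k = i
    · rw [hk, h5]
    · exact h4 k hk
  · right
    funext k
    by_cases hk : k = i
    · subst hk
      simp only [fl, flS, Finset.mem_singleton, if_true]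
      revert h5
      cases z' k <;> cases z k <;> simp
    · rw [h4 k hk]
      simp [fl, flS, hk]

/-- the directions used before step `j` -/
def sg (I : Fin m ↪ Fin n) (j : ℕ) : Finset (Fin n) :=
  (univ.filter fun a : Fin m => (a : ℕ) < j).map I

lemma zz_eq (w : V n) (I : Fin m ↪ Fin n) (j : ℕ) : zz w I j = flS w (sg I j) := rfl

lemma card_sg (I : Fin m ↪ Fin n) {j : ℕ} (hj : j ≤ m) : (sg I j).card = j := by
  rw [sg, Finset.card_map]
  have : (univ.filter fun a : Fin m => (a : ℕ) < j).map Fin.valEmbedding = Finset.range j := by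
    ext k
    simp only [Finset.mem_map, Finset.mem_filter, mem_univ, true_and, Finset.mem_range]
    constructor
    · rintro ⟨a, ha, rfl⟩; exact ha
    · intro hk; exact ⟨⟨k, lt_of_lt_of_le hk hj⟩, hk, rfl⟩
  rw [← Finset.card_map Fin.valEmbedding, this, Finset.card_range]

lemma zz_zero (w : V n) (I : Fin m ↪ Fin n) : zz w I 0 = w := by
  rw [zz_eq]
  funext k
  simp [flS, sg]

lemma zz_inj (w : V n) (I : Fin m ↪ Fin n) {j k : ℕ} (hj : j ≤ m) (hk : k ≤ m)
    (h : zz w I j = zz w I k) : j = k := by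
  have h1 := flS_inj w h
  rw [← card_sg I hj, ← card_sg I hk]
  exact congrArg Finset.card h1

lemma zz_succ (w : V n) (I : Fin m ↪ Fin n) (a : Fin m) :
    zz w I ((a : ℕ) + 1) = fl (zz w I a) (I a) := by
  rw [zz_eq, zz_eq, fl_flS]
  · congr 1
    ext k
    simp only [sg, Finset.mem_map, Finset.mem_filter, mem_univ, true_and, Finset.mem_insert]
    constructor
    · rintro ⟨b, hb, rfl⟩
      by_cases h : b = a
      · left; rw [h]
      · right
        refine ⟨b, ?_, rfl⟩
        have : (b : ℕ) ≠ a := fun h2 => h (Fin.ext h2)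
        omega
    · rintro (rfl | ⟨b, hb, rfl⟩)
      · exact ⟨a, by omega, rfl⟩
      · exact ⟨b, by omega, rfl⟩
  · simp only [sg, Finset.mem_map, Finset.mem_filter, mem_univ, true_and]
    rintro ⟨b, hb, hba⟩
    rw [I.injective hba] at hb
    exact lt_irrefl _ hb

lemma hd_zz (w : V n) (I : Fin m ↪ Fin n) {j : ℕ} (hj : j ≤ m) : hd (zz w I j) w = j := by
  rw [zz_eq, hd, df_flS, card_sg I hj]

/-! ### dead ends -/

lemma de_use_next {ω : Cfg n} {w : V n} {I : Fin m ↪ Fin n} (h : DE ω w I) (a : Fin m) :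
    Use ω (zz w I a) (I a) :=
  ⟨h.2.2.1 a, by rw [← zz_succ]; exact h.1 _ a.2⟩

lemma de_use_prev {ω : Cfg n} {w : V n} {I : Fin m ↪ Fin n} (h : DE ω w I) (a : Fin m) :
    Use ω (zz w I ((a : ℕ) + 1)) (I a) :=
  ⟨by rw [zz_succ, ed_fl]; exact h.2.2.1 a,
    by rw [zz_succ, fl_fl]; exact h.1 _ (le_of_lt a.2)⟩

/-- the interior of a dead end -/
def Xs (w : V n) (I : Fin m ↪ Fin n) : Finset (V n) := (Icc 1 m).image (zz w I)

lemma card_Xs (w : V n) (I : Fin m ↪ Fin n) : (Xs w I).card = m := by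
  rw [Xs, Finset.card_image_of_injOn]
  · simp
  · intro j hj k hk h
    rw [Finset.mem_coe, Finset.mem_Icc] at hj hk
    exact zz_inj w I hj.2 hk.2 h

lemma mem_Xs (w : V n) (I : Fin m ↪ Fin n) {j : ℕ} (h1 : 1 ≤ j) (h2 : j ≤ m) :
    zz w I j ∈ Xs w I := Finset.mem_image_of_mem _ (Finset.mem_Icc.2 ⟨h1, h2⟩)

lemma zero_notMem_Xs (w : V n) (I : Fin m ↪ Fin n) : zz w I 0 ∉ Xs w I := by
  intro h
  obtain ⟨j, hj, hj2⟩ := Finset.mem_image.1 h
  rw [Finset.mem_Icc] at hj
  have := zz_inj w I hj.2 (Nat.zero_le m) hj2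
  omega

lemma de_unique {ω : Cfg n} {w w' : V n} {I I' : Fin m ↪ Fin n} (hm : 0 < m) (h : DE ω w I)
    (h' : DE ω w' I') (hX : Xs w I = Xs w' I') : w = w' ∧ I = I' := by
  -- the first step
  have h1 : zz w' I' 1 ∈ Xs w I := by rw [hX]; exact mem_Xs w' I' le_rfl hm
  obtain ⟨j, hj, hj2⟩ := Finset.mem_image.1 h1
  rw [Finset.mem_Icc] at hj
  have hu := de_use_prev h' ⟨0, hm⟩
  have e1 : zz w' I' (((⟨0, hm⟩ : Fin m) : ℕ) + 1) = zz w' I' 1 := rfl
  rw [e1, ← hj2] at hu
  have e2 : fl (zz w I j) (I' ⟨0, hm⟩) = zz w' I' 0 := by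
    rw [hj2, ← e1, zz_succ, fl_fl]
  have e3 : zz w' I' 0 ∉ Xs w I := by rw [hX]; exact zero_notMem_Xs w' I'
  have key : j = 1 ∧ zz w' I' 0 = zz w I 0 := by
    rcases h.2.2.2 j hj.1 hj.2 _ hu with h2 | ⟨h2, h3⟩
    · rw [e2] at h2
      by_cases hj1 : j = 1
      · rw [hj1] at h2
        exact ⟨hj1, h2⟩
      · exfalso
        apply e3
        rw [h2]
        exact mem_Xs w I (by omega) (by omega)
    · exfalso
      apply e3
      rw [← e2, h3]
      exact mem_Xs w I (by omega) (by omega)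
  obtain ⟨k1, k2⟩ := key
  rw [k1] at hj2
  have hw : w = w' := by rw [zz_zero, zz_zero] at k2; exact k2.symm
  have hall : ∀ j, j + 1 ≤ m → zz w' I' j = zz w I j ∧ zz w' I' (j + 1) = zz w I (j + 1) := by
    intro j
    induction j with
    | zero => intro _; exact ⟨k2, hj2.symm⟩
    | succ j ih =>
      intro hjm
      obtain ⟨i1, i2⟩ := ih (by omega)
      refine ⟨i2, ?_⟩
      have hu2 := de_use_next h' ⟨j + 1, by omega⟩
      have e4 : zz w' I' ((⟨j + 1, by omega⟩ : Fin m) : ℕ) = zz w' I' (j + 1) := rfl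
      rw [e4, i2] at hu2
      have e5 : fl (zz w I (j + 1)) (I' ⟨j + 1, by omega⟩) = zz w' I' (j + 1 + 1) := by
        rw [← i2]
        exact (zz_succ w' I' ⟨j + 1, by omega⟩).symm
      rcases h.2.2.2 (j + 1) (by omega) (by omega) _ hu2 with h2 | ⟨h2, h3⟩
      · exfalso
        rw [e5] at h2
        have e6 : zz w I (j + 1 - 1) = zz w' I' j := by rw [i1]; rfl
        rw [e6] at h2
        have := zz_inj w' I' (by omega) (by omega) h2
        omega
      · rw [e5] at h3
        exact h3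
  refine ⟨hw, ?_⟩
  ext a
  obtain ⟨i1, i2⟩ := hall a a.2
  rw [zz_succ, zz_succ, i1] at i2
  rw [fl_inj _ i2]

lemma de_low {ω : Cfg n} {w : V n} {I : Fin m ↪ Fin n} {K : ℕ} (hn : 2 * K < n)
    (h : DE ω w I) {u : V n} (hu : u ∈ Xs w I) : Low K ω u := by
  obtain ⟨j, hj, rfl⟩ := Finset.mem_image.1 hu
  rw [Finset.mem_Icc] at hj
  have h1 : dg ω (zz w I j) ≤ 2 := by
    unfold dg
    have h2 := Finset.card_le_card_of_injOn (s := univ.filter fun i => Use ω (zz w I j) i)
      (t := ({zz w I (j - 1), zz w I (j + 1)} : Finset (V n))) (fun i => fl (zz w I j) i)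
      (by
        intro i hi
        have hi2 : Use ω (zz w I j) i := (Finset.mem_filter.1 (Finset.mem_coe.1 hi)).2
        rcases h.2.2.2 j hj.1 hj.2 _ hi2 with h3 | ⟨_, h3⟩
        · simp [h3]
        · simp [h3])
      (by
        intro i _ i' _ hii
        exact fl_inj _ hii)
    exact le_trans h2 Finset.card_le_two
  unfold Low
  calc dg ω (zz w I j) * K ≤ 2 * K := Nat.mul_le_mul_right K h1
    _ < n := hn

/-! ### locality -/

/-- the bits on which dead ends at `w` depend -/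
def Jn (m : ℕ) (w : V n) : Set (Ix n) :=
  {c | (∃ z : V n, hd z w ≤ m + 1 ∧ (c = Sum.inl z ∨ ∃ i, c = ed z i)) ∨ c = Sum.inl (anti w)}

lemma de_dep1 {ω ω' : Cfg n} {w : V n} {I : Fin m ↪ Fin n} (h : ∀ c ∈ Jn m w, ω c = ω' c)
    (hde : DE ω w I) : DE ω' w I := by
  obtain ⟨h1, h2, h3, h4⟩ := hde
  refine ⟨?_, ?_, ?_, ?_⟩
  · intro j hj
    rw [← h _ (Or.inl ⟨_, le_trans (le_of_eq (hd_zz w I hj)) (by omega), Or.inl rfl⟩)]
    exact h1 j hj
  · rw [← h _ (Or.inr rfl)]
    exact h2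
  · intro a
    rw [← h _ (Or.inl ⟨_, le_trans (le_of_eq (hd_zz w I a.2.le)) (by have := a.2; omega),
      Or.inr ⟨_, rfl⟩⟩)]
    exact h3 a
  · intro j hj1 hj2 i hi
    apply h4 j hj1 hj2 i
    refine ⟨?_, ?_⟩
    · rw [h _ (Or.inl ⟨_, le_trans (le_of_eq (hd_zz w I hj2)) (by omega), Or.inr ⟨_, rfl⟩⟩)]
      exact hi.1
    · have hh : hd (fl (zz w I j) i) w ≤ m + 1 := by
        refine le_trans (hd_triangle _ (zz w I j) _) ?_
        rw [hd_fl, hd_zz w I hj2]; omega
      rw [h _ (Or.inl ⟨_, hh, Or.inl rfl⟩)]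
      exact hi.2

lemma de_dep (w : V n) (I : Fin m ↪ Fin n) : DependsOn (fun ω : Cfg n => DE ω w I) (Jn m w) := by
  intro ω ω' h
  apply propext
  exact ⟨fun hh => de_dep1 h hh, fun hh => de_dep1 (fun c hc => (h c hc).symm) hh⟩

lemma Jn_disj {w w' : V n} (h1 : 2 * m + 6 < hd w w') (h2 : 2 * m + 6 < hd w (anti w')) :
    Disjoint (Jn m w) (Jn m w') := by
  rw [Set.disjoint_left]
  rintro c (⟨z, hz, hc⟩ | hc) (⟨z', hz', hc'⟩ | hc')
  · have h3 : hd z z' ≤ 1 := by
      rcases hc with hc | ⟨i, hc⟩ <;> rcases hc' with hc' | ⟨i', hc'⟩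
      · rw [hc] at hc'
        rw [Sum.inl.inj hc', hd_self]; omega
      · rw [hc] at hc'
        exact absurd hc' (by simp [ed])
      · rw [hc] at hc'
        exact absurd hc' (by simp [ed])
      · rw [hc] at hc'
        rcases (ed_eq hc').2 with h | h
        · rw [h, hd_self]; omega
        · rw [h, hd_comm, hd_fl]
    have h4 := hd_triangle w z w'
    have h5 := hd_triangle z z' w'
    rw [hd_comm w z] at h4
    omega
  · rcases hc with hc | ⟨i, hc⟩
    · rw [hc] at hc'
      have h3 := Sum.inl.inj hc'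
      rw [h3, hd_comm] at hz
      omega
    · rw [hc] at hc'
      exact absurd hc' (by simp [ed])
  · rcases hc' with hc' | ⟨i, hc'⟩
    · rw [hc] at hc'
      have h3 := Sum.inl.inj hc'
      rw [← h3, hd_anti] at hz'
      omega
    · rw [hc] at hc'
      exact absurd hc' (by simp [ed])
  · rw [hc] at hc'
    have h3 : anti w = anti w' := Sum.inl.inj hc'
    have h4 : w = w' := by
      funext i
      have := congrFun h3 i
      simpa [anti, flS] using this
    rw [h4, hd_self] at h1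
    omega

/-! ### counting -/

lemma ball_card (w : V n) (R : ℕ) : (univ.filter fun z : V n => hd z w ≤ R).card ≤ (n + 1) ^ R := by
  induction R with
  | zero =>
    rw [pow_zero, Finset.card_le_one]
    have : ∀ z ∈ (univ.filter fun z : V n => hd z w ≤ 0), z = w := by
      intro z hz
      have h1 := (Finset.mem_filter.1 hz).2
      have h2 : df z w = ∅ := Finset.card_eq_zero.1 (Nat.le_zero.1 h1)
      funext i
      by_contra h3
      have : i ∈ df z w := Finset.mem_filter.2 ⟨mem_univ _, h3⟩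
      rw [h2] at this
      exact absurd this (Finset.notMem_empty i)
    intro a ha b hb
    rw [this a ha, this b hb]
  | succ R ih =>
    have h1 : (univ.filter fun z : V n => hd z w ≤ R + 1) ⊆
        ((univ.filter fun z : V n => hd z w ≤ R) ×ˢ (univ : Finset (Option (Fin n)))).image
          (fun x => x.2.elim x.1 (fun i => fl x.1 i)) := by
      intro z hz
      have h2 := (Finset.mem_filter.1 hz).2
      rw [Finset.mem_image]
      by_cases h3 : hd z w ≤ R
      · exact ⟨(z, none), by simp [h3], rfl⟩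
      · have h4 : (df z w).Nonempty := by
          rw [← Finset.card_pos]
          unfold hd at h3; omega
        obtain ⟨i, hi⟩ := h4
        refine ⟨(fl z i, some i), ?_, ?_⟩
        · simp only [Finset.mem_product, Finset.mem_filter, mem_univ, true_and, and_true]
          have h5 : df (fl z i) w ⊆ (df z w).erase i := by
            intro k hk
            have hk2 := (Finset.mem_filter.1 hk).2
            have hi2 := (Finset.mem_filter.1 hi).2
            rw [Finset.mem_erase]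
            by_cases hki : k = i
            · exfalso
              subst hki
              apply hk2
              simp only [fl, flS, Finset.mem_singleton, if_true]
              revert hi2
              cases z k <;> cases w k <;> simp
            · refine ⟨hki, Finset.mem_filter.2 ⟨mem_univ _, ?_⟩⟩
              simpa [fl, flS, hki] using hk2
          have h6 := Finset.card_le_card h5
          rw [Finset.card_erase_of_mem hi] at h6
          unfold hd at h2 ⊢
          omega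
        · show fl (fl z i) i = z
          exact fl_fl z i
    refine le_trans (Finset.card_le_card h1) (le_trans Finset.card_image_le ?_)
    rw [Finset.card_product, Finset.card_univ, Fintype.card_option, Fintype.card_fin, pow_succ]
    exact Nat.mul_le_mul_right _ ih

/-! ### the probability of a dead end -/

lemma conv_aux {a b : ℝ} (ha0 : 0 ≤ a) (ha1 : a ≤ 1) (hb0 : 0 ≤ b) (hb1 : b ≤ 1) (k : ℕ) :
    (1 - a * (1 - b)) ^ k ≤ 1 - a * (1 - b ^ k) := by
  induction k with
  | zero => simp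
  | succ k ih =>
    have h1 : 0 ≤ 1 - a * (1 - b) := by nlinarith
    have h2 : 0 ≤ b ^ k := pow_nonneg hb0 k
    have h3 : b ^ k ≤ 1 := pow_le_one₀ hb0 hb1
    rw [pow_succ]
    have h4 := mul_le_mul_of_nonneg_right ih h1
    refine le_trans h4 ?_
    have h5 : 0 ≤ a * (1 - a) * ((1 - b ^ k) * (1 - b)) :=
      mul_nonneg (mul_nonneg ha0 (by linarith)) (mul_nonneg (by linarith) (by linarith))
    rw [pow_succ]
    nlinarith

lemma Pr_empty {I : Type} [Fintype I] [DecidableEq I] (p : I → ℝ) : Pr p ∅ = 0 := by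
  unfold Pr
  have := Ex_const p 0
  simpa using this

/-- one absent vertex or all of the edges closed -/
lemma Pr_or {p : Ix n → ℝ} (hp : ∀ i, 0 ≤ p i ∧ p i ≤ 1) (c0 : Ix n) (C : Finset (Ix n))
    (hc0 : c0 ∉ C) {pe : ℝ} (hC : ∀ c ∈ C, p c = pe) (hpe0 : 0 ≤ pe) (hpe1 : pe ≤ 1) :
    (1 - p c0 * pe) ^ C.card ≤ Pr p {ω | ω c0 = false ∨ ∀ c ∈ C, ω c = false} := by
  have hB : Pr p {ω | ∀ c ∈ C, ω c = false} = (1 - pe) ^ C.card := by
    have h1 := Pr_ind p C (fun c => {c}) (fun c ω => ω c = false)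
      (fun c _ => by
        intro ω ω' h
        apply propext
        show (ω c = false) ↔ (ω' c = false)
        rw [h c rfl])
      (fun a _ b _ hab => by simpa using hab)
    have h2 : ∀ c ∈ C, Pr p {ω | ω c = false} = 1 - pe := by
      intro c hc
      have h3 : ({ω | ω c = false} : Set (Ix n → Bool)) = {ω | ω c = true}ᶜ := by
        ext ω; simp
      rw [h3, Pr_compl, Pr_bit, hC c hc]
    rw [h1, Finset.prod_congr rfl h2, Finset.prod_const]
  have hind := Pr_ind2 p {c0} (C : Set (Ix n)) (fun ω => ω c0 = true)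
    (fun ω => ¬ ∀ c ∈ C, ω c = false)
    (by
      intro ω ω' h
      apply propext
      show (ω c0 = true) ↔ (ω' c0 = true)
      rw [h c0 rfl])
    (by
      intro ω ω' h
      apply propext
      apply not_congr
      constructor
      · intro hh c hc; rw [← h c hc]; exact hh c hc
      · intro hh c hc; rw [h c hc]; exact hh c hc)
    (by simpa using hc0)
  have h4 : ({ω | ω c0 = false ∨ ∀ c ∈ C, ω c = false} : Set (Ix n → Bool)) =
      {ω | ω c0 = true ∧ ¬ ∀ c ∈ C, ω c = false}ᶜ := by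
    ext ω
    by_cases h : ω c0 = true
    · simp [h]
    · rw [Bool.not_eq_true] at h
      simp [h]
  have h5 : ({ω | ¬ ∀ c ∈ C, ω c = false} : Set (Ix n → Bool)) =
      {ω | ∀ c ∈ C, ω c = false}ᶜ := rfl
  rw [h4, Pr_compl, hind, Pr_bit, h5, Pr_compl, hB]
  have h6 := conv_aux (hp c0).1 (hp c0).2 (b := 1 - pe) (by linarith) (by linarith) C.card
  have h7 : 1 - p c0 * (1 - (1 - pe)) = 1 - p c0 * pe := by ring
  rw [h7] at h6
  exact h6

/-- the bits of the path -/
def Cp (w : V n) (I : Fin m ↪ Fin n) : Finset (Ix n) :=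
  ((range (m + 1)).image fun j => Sum.inl (zz w I j)) ∪ {Sum.inl (anti w)} ∪
    (univ.image fun a : Fin m => ed (zz w I a) (I a))

/-- the pairs leading to `t` -/
def Pt (w : V n) (I : Fin m ↪ Fin n) (t : V n) : Finset (Fin m × Fin n) :=
  univ.filter fun x => fl (zz w I ((x.1 : ℕ) + 1)) x.2 = t

/-- the edges leading to `t` -/
def Ct (w : V n) (I : Fin m ↪ Fin n) (t : V n) : Finset (Ix n) :=
  (Pt w I t).image fun x => ed (zz w I ((x.1 : ℕ) + 1)) x.2

/-- the targets -/
def Tg (w : V n) (I : Fin m ↪ Fin n) : Finset (V n) :=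
  univ.filter fun t => t ≠ anti w ∧ ∀ j ≤ m, t ≠ zz w I j

lemma sum_Pt (w : V n) (I : Fin m ↪ Fin n) : ∑ t ∈ Tg w I, (Pt w I t).card ≤ m * n := by
  have h1 : ∑ t ∈ Tg w I, (Pt w I t).card ≤ ∑ t : V n, (Pt w I t).card :=
    Finset.sum_le_sum_of_subset (Finset.subset_univ _)
  refine le_trans h1 (le_of_eq ?_)
  have h2 := Finset.card_eq_sum_card_fiberwise (s := (univ : Finset (Fin m × Fin n)))
    (t := (univ : Finset (V n))) (f := fun x => fl (zz w I ((x.1 : ℕ) + 1)) x.2)
    (fun _ _ => by simp)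
  unfold Pt
  rw [← h2, Finset.card_univ, Fintype.card_prod, Fintype.card_fin, Fintype.card_fin]

lemma prob_Cp {pv pe : ℝ} (h1 : 0 < pv) (h2 : pv ≤ 1) (h3 : 0 < pe) (h4 : pe ≤ 1) (w : V n)
    (I : Fin m ↪ Fin n) : pv ^ (m + 2) * pe ^ m ≤
      Pr (bp pv pe n) {ω | ∀ c ∈ Cp w I, ω c = true} := by
  rw [Pr_forall_true]
  obtain ⟨A, hA⟩ : ∃ A : Finset (Ix n), A = ((range (m + 1)).image fun j => Sum.inl (zz w I j)) ∪
    {Sum.inl (anti w)} := ⟨_, rfl⟩
  obtain ⟨B, hB⟩ : ∃ B : Finset (Ix n), B = univ.image fun a : Fin m => ed (zz w I a) (I a) :=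
    ⟨_, rfl⟩
  have hAB : Cp w I = A ∪ B := by rw [hA, hB]; rfl
  have hdisj : Disjoint A B := by
    rw [Finset.disjoint_left]
    intro c hc hc'
    rw [hB] at hc'
    obtain ⟨a, -, ha⟩ := Finset.mem_image.1 hc'
    rw [hA, Finset.mem_union, Finset.mem_image, Finset.mem_singleton] at hc
    rcases hc with ⟨j, -, hj⟩ | hc
    · rw [← hj] at ha
      exact absurd ha (by simp [ed])
    · rw [hc] at ha
      exact absurd ha (by simp [ed])
  rw [hAB, Finset.prod_union hdisj]
  have hA1 : ∏ c ∈ A, bp pv pe n c = pv ^ A.card := by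
    rw [← Finset.prod_const]
    apply Finset.prod_congr rfl
    intro c hc
    rw [hA, Finset.mem_union, Finset.mem_image, Finset.mem_singleton] at hc
    rcases hc with ⟨j, -, hj⟩ | hc
    · rw [← hj]; rfl
    · rw [hc]; rfl
  have hB1 : ∏ c ∈ B, bp pv pe n c = pe ^ B.card := by
    rw [← Finset.prod_const]
    apply Finset.prod_congr rfl
    intro c hc
    rw [hB] at hc
    obtain ⟨a, -, ha⟩ := Finset.mem_image.1 hc
    rw [← ha]; rfl
  have hA2 : A.card ≤ m + 2 := by
    rw [hA]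
    refine le_trans (Finset.card_union_le _ _) ?_
    have := Finset.card_image_le (s := range (m + 1)) (f := fun j => (Sum.inl (zz w I j) : Ix n))
    rw [Finset.card_range] at this
    rw [Finset.card_singleton]
    omega
  have hB2 : B.card ≤ m := by
    rw [hB]
    refine le_trans Finset.card_image_le ?_
    simp
  rw [hA1, hB1]
  exact mul_le_mul (pow_le_pow_of_le_one h1.le h2 hA2) (pow_le_pow_of_le_one h3.le h4 hB2)
    (pow_nonneg h3.le _) (pow_nonneg h1.le _)

lemma prob_DE {pv pe : ℝ} (h1 : 0 < pv) (h2 : pv ≤ 1) (h3 : 0 < pe) (h4 : pe ≤ 1)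
    (hn : m + 2 ≤ n) (w : V n) (I : Fin m ↪ Fin n) :
    pv ^ (m + 2) * pe ^ m * (1 - pv * pe) ^ (m * n) ≤ Pr (bp pv pe n) {ω | DE ω w I} := by
  have hp := bp_unit h1.le h2 h3.le h4 n
  have hq1 : 1 - pv * pe ≤ 1 := by have := mul_pos h1 h3; linarith
  have hq0 : 0 ≤ 1 - pv * pe := by
    have : pv * pe ≤ 1 := mul_le_one₀ h2 h3.le h4
    linarith
  -- the target events
  obtain ⟨A, hA⟩ : ∃ A : V n → Cfg n → Prop, A = fun t ω => ω (Sum.inl t) = false ∨
    ∀ c ∈ Ct w I t, ω c = false := ⟨_, rfl⟩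
  obtain ⟨J, hJ⟩ : ∃ J : V n → Set (Ix n), J = fun t => {Sum.inl t} ∪ (Ct w I t : Set (Ix n)) :=
    ⟨_, rfl⟩
  have hdep : ∀ t ∈ Tg w I, DependsOn (A t) (J t) := by
    intro t _ ω ω' h
    rw [hJ] at h
    rw [hA]
    apply propext
    apply or_congr
    · rw [h _ (Or.inl rfl)]
    · constructor
      · intro hh c hc; rw [← h c (Or.inr hc)]; exact hh c hc
      · intro hh c hc; rw [h c (Or.inr hc)]; exact hh c hc
  have hmemCt : ∀ t, ∀ c ∈ Ct w I t, ∃ (j : ℕ) (i : Fin n), 1 ≤ j ∧ j ≤ m ∧ fl (zz w I j) i = t ∧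
      c = ed (zz w I j) i := by
    intro t c hc
    obtain ⟨x, hx, rfl⟩ := Finset.mem_image.1 hc
    have hx2 := (Finset.mem_filter.1 hx).2
    exact ⟨x.1 + 1, x.2, by omega, x.1.2, hx2, rfl⟩
  have htg : ∀ t ∈ Tg w I, t ≠ anti w ∧ ∀ j ≤ m, t ≠ zz w I j := by
    intro t ht
    exact (Finset.mem_filter.1 ht).2
  have hdisj : ∀ t ∈ Tg w I, ∀ t' ∈ Tg w I, t ≠ t' → Disjoint (J t) (J t') := by
    intro t ht t' ht' hne
    rw [Set.disjoint_left, hJ]
    rintro c (hc | hc) (hc' | hc')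
    · rw [Set.mem_singleton_iff] at hc hc'
      rw [hc] at hc'
      exact hne (Sum.inl.inj hc')
    · rw [Set.mem_singleton_iff] at hc
      obtain ⟨j, i, -, -, -, hc2⟩ := hmemCt t' c hc'
      rw [hc] at hc2
      exact absurd hc2 (by simp [ed])
    · rw [Set.mem_singleton_iff] at hc'
      obtain ⟨j, i, -, -, -, hc2⟩ := hmemCt t c hc
      rw [hc'] at hc2
      exact absurd hc2 (by simp [ed])
    · obtain ⟨j, i, hj1, hj2, ht1, hc2⟩ := hmemCt t c hc
      obtain ⟨j', i', hj1', hj2', ht1', hc2'⟩ := hmemCt t' c hc'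
      rw [hc2] at hc2'
      obtain ⟨e1, e2⟩ := ed_eq hc2'
      rcases e2 with e2 | e2
      · apply hne
        rw [← ht1, ← ht1', e2, e1]
      · apply (htg t ht).2 j' hj2'
        rw [← ht1, e2]
  have hprodA : (1 - pv * pe) ^ (m * n) ≤ Pr (bp pv pe n) {ω | ∀ t ∈ Tg w I, A t ω} := by
    rw [Pr_ind (bp pv pe n) (Tg w I) J A hdep hdisj]
    have h5 : ∀ t ∈ Tg w I, (1 - pv * pe) ^ (Pt w I t).card ≤ Pr (bp pv pe n) {ω | A t ω} := by
      intro t _
      have h6 := Pr_or hp (Sum.inl t) (Ct w I t)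
        (by
          intro hc
          obtain ⟨j, i, -, -, -, hc2⟩ := hmemCt t _ hc
          exact absurd hc2 (by simp [ed]))
        (pe := pe)
        (by
          intro c hc
          obtain ⟨j, i, -, -, -, hc2⟩ := hmemCt t c hc
          rw [hc2]; rfl) h3.le h4
      have h7 : bp pv pe n (Sum.inl t) = pv := rfl
      rw [h7] at h6
      rw [hA]
      refine le_trans ?_ h6
      apply pow_le_pow_of_le_one hq0 hq1
      exact Finset.card_image_le
    refine le_trans ?_ (Finset.prod_le_prod (fun t _ => pow_nonneg hq0 _) h5)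
    rw [Finset.prod_pow_eq_pow_sum]
    exact pow_le_pow_of_le_one hq0 hq1 (sum_Pt w I)
  -- the path bits are other bits
  have hCpJ : ∀ t ∈ Tg w I, ∀ c ∈ J t, c ∉ Cp w I := by
    intro t ht c hc hcp
    unfold Cp at hcp
    rw [Finset.mem_union, Finset.mem_union, Finset.mem_image, Finset.mem_singleton,
      Finset.mem_image] at hcp
    rw [hJ] at hc
    rcases hc with hc | hc
    · rw [Set.mem_singleton_iff] at hc
      rw [hc] at hcp
      rcases hcp with (⟨j, hj, hj2⟩ | h5) | ⟨a, -, ha⟩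
      · rw [Finset.mem_range] at hj
        exact (htg t ht).2 j (by omega) (Sum.inl.inj hj2).symm
      · exact (htg t ht).1 (Sum.inl.inj h5)
      · exact absurd ha (by simp [ed])
    · obtain ⟨j, i, hj1, hj2, ht1, hc2⟩ := hmemCt t c hc
      rw [hc2] at hcp
      rcases hcp with (⟨j, hj, hj2⟩ | h5) | ⟨a, -, ha⟩
      · exact absurd hj2 (by simp [ed])
      · exact absurd h5 (by simp [ed])
      · obtain ⟨e1, e2⟩ := ed_eq ha
        rcases e2 with e2 | e2
        · apply (htg t ht).2 (a + 1) a.2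
          rw [zz_succ, ← ht1, e2, e1]
        · apply (htg t ht).2 a a.2.le
          rw [← ht1, e2, e1, fl_fl]
  have hind := Pr_ind2 (bp pv pe n) (Cp w I : Set (Ix n)) (Cp w I : Set (Ix n))ᶜ
    (fun ω => ∀ c ∈ Cp w I, ω c = true) (fun ω => ∀ t ∈ Tg w I, A t ω)
    (by
      intro ω ω' h
      apply propext
      constructor
      · intro hh c hc; rw [← h c hc]; exact hh c hc
      · intro hh c hc; rw [h c hc]; exact hh c hc)
    (by
      intro ω ω' h
      have h5 : ∀ t ∈ Tg w I, A t ω = A t ω' := fun t ht =>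
        hdep t ht (fun c hc => h c (fun hc' => hCpJ t ht c hc hc'))
      apply propext
      constructor
      · intro hh t ht; rw [← h5 t ht]; exact hh t ht
      · intro hh t ht; rw [h5 t ht]; exact hh t ht)
    disjoint_compl_right
  have hsub : {ω : Cfg n | (∀ c ∈ Cp w I, ω c = true) ∧ ∀ t ∈ Tg w I, A t ω} ⊆
      {ω | DE ω w I} := by
    rintro ω ⟨hc, ht⟩
    refine ⟨?_, ?_, ?_, ?_⟩
    · intro j hj
      apply hc
      unfold Cp
      rw [Finset.mem_union, Finset.mem_union, Finset.mem_image]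
      exact Or.inl (Or.inl ⟨j, Finset.mem_range.2 (by omega), rfl⟩)
    · apply hc
      unfold Cp
      rw [Finset.mem_union, Finset.mem_union, Finset.mem_singleton]
      exact Or.inl (Or.inr rfl)
    · intro a
      apply hc
      unfold Cp
      rw [Finset.mem_union, Finset.mem_image]
      exact Or.inr ⟨a, mem_univ _, rfl⟩
    · intro j hj1 hj2 i hu
      by_cases htt : fl (zz w I j) i ∈ Tg w I
      · exfalso
        have h5 := ht _ htt
        rw [hA] at h5
        rcases h5 with h5 | h5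
        · rw [hu.2] at h5; exact absurd h5 (by simp)
        · have h6 := h5 (ed (zz w I j) i) (by
            unfold Ct Pt
            rw [Finset.mem_image]
            refine ⟨(⟨j - 1, by omega⟩, i), ?_, ?_⟩
            · rw [Finset.mem_filter]
              refine ⟨mem_univ _, ?_⟩
              show fl (zz w I (j - 1 + 1)) i = _
              rw [Nat.sub_add_cancel hj1]
            · show ed (zz w I (j - 1 + 1)) i = _
              rw [Nat.sub_add_cancel hj1])
          rw [hu.1] at h6; exact absurd h6 (by simp)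
      · unfold Tg at htt
        rw [Finset.mem_filter] at htt
        push Not at htt
        by_cases h5 : fl (zz w I j) i = anti w
        · exfalso
          have h6 : hd (anti w) w = n := by
            unfold hd anti
            rw [df_flS]; simp
          rw [← h5] at h6
          have h7 := hd_triangle (fl (zz w I j) i) (zz w I j) w
          rw [h6, hd_fl, hd_zz w I hj2] at h7
          omega
        · obtain ⟨k, hk, hk2⟩ := htt (mem_univ _) h5
          have h8 : hd (zz w I k) (zz w I j) = 1 := by rw [← hk2, hd_fl]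
          have h9 := hd_triangle (zz w I k) (zz w I j) w
          have h10 := hd_triangle (zz w I j) (zz w I k) w
          rw [hd_comm (zz w I j) (zz w I k)] at h10
          rw [h8, hd_zz w I hj2, hd_zz w I hk] at h9 h10
          have h11 : k ≠ j := by
            intro hkj
            rw [hkj, hd_self] at h8
            omega
          by_cases h12 : k = j - 1
          · left; rw [hk2, h12]
          · right
            have h13 : k = j + 1 := by omega
            exact ⟨by omega, by rw [hk2, h13]⟩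
  refine le_trans ?_ (Pr_mono hp hsub)
  rw [hind]
  exact mul_le_mul (prob_Cp h1 h2 h3 h4 w I) hprodA (pow_nonneg hq0 _) (Pr_nonneg hp _)

/-! ### two dead ends -/

lemma pair_bound {pv pe : ℝ} (h1 : 0 < pv) (h2 : pv ≤ 1) (h3 : 0 < pe) (h4 : pe ≤ 1)
    (hm : 0 < m) {K : ℕ} {B : ℝ} (hB : 0 ≤ B) (hn : 2 * K < n)
    (hlow : ∀ S : Finset (V n), S.card = m + 1 → Pr (bp pv pe n) {ω | ∀ u ∈ S, Low K ω u} ≤ B)
    (a b : V n × (Fin m ↪ Fin n)) (hab : a ≠ b) :
    Pr (bp pv pe n) {ω | DE ω a.1 a.2 ∧ DE ω b.1 b.2} ≤ B := by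
  have hp := bp_unit h1.le h2 h3.le h4 n
  by_cases hX : Xs a.1 a.2 = Xs b.1 b.2
  · have h5 : {ω : Cfg n | DE ω a.1 a.2 ∧ DE ω b.1 b.2} = ∅ := by
      rw [Set.eq_empty_iff_forall_notMem]
      rintro ω ⟨ha, hb⟩
      obtain ⟨e1, e2⟩ := de_unique hm ha hb hX
      exact hab (Prod.ext e1 e2)
    rw [h5, Pr_empty]
    exact hB
  · have h5 : m + 1 ≤ (Xs a.1 a.2 ∪ Xs b.1 b.2).card := by
      by_contra hc
      push Not at hc
      apply hX
      have e1 : Xs a.1 a.2 = Xs a.1 a.2 ∪ Xs b.1 b.2 :=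
        Finset.eq_of_subset_of_card_le Finset.subset_union_left (by rw [card_Xs]; omega)
      have e2 : Xs b.1 b.2 = Xs a.1 a.2 ∪ Xs b.1 b.2 :=
        Finset.eq_of_subset_of_card_le Finset.subset_union_right (by rw [card_Xs]; omega)
      rw [e1, ← e2]
    obtain ⟨S, hS1, hS2⟩ := Finset.exists_subset_card_eq h5
    refine le_trans (Pr_mono hp ?_) (hlow S hS2)
    rintro ω ⟨ha, hb⟩ u hu
    rcases Finset.mem_union.1 (hS1 hu) with h | h
    · exact de_low hn ha h
    · exact de_low hn hb h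

/-- close pairs of base points -/
def Cl (m : ℕ) (w w' : V n) : Prop := hd w' w ≤ 2 * m + 6 ∨ hd w' (anti w) ≤ 2 * m + 6

instance (m : ℕ) (w w' : V n) : Decidable (Cl m w w') := by unfold Cl; infer_instance

lemma card_Cl (w : V n) : (univ.filter fun w' : V n => Cl m w w').card ≤
    2 * (n + 1) ^ (2 * m + 6) := by
  have h1 : (univ.filter fun w' : V n => Cl m w w') ⊆
      (univ.filter fun z : V n => hd z w ≤ 2 * m + 6) ∪
      (univ.filter fun z : V n => hd z (anti w) ≤ 2 * m + 6) := by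
    intro z hz
    have h2 := (Finset.mem_filter.1 hz).2
    rw [Finset.mem_union, Finset.mem_filter, Finset.mem_filter]
    rcases h2 with h2 | h2
    · exact Or.inl ⟨mem_univ _, h2⟩
    · exact Or.inr ⟨mem_univ _, h2⟩
  refine le_trans (Finset.card_le_card h1) (le_trans (Finset.card_union_le _ _) ?_)
  have h3 := ball_card w (2 * m + 6)
  have h4 := ball_card (anti w) (2 * m + 6)
  omega

lemma card_emb : Fintype.card (Fin m ↪ Fin n) ≤ (n + 1) ^ m := by
  rw [Fintype.card_embedding_eq, Fintype.card_fin, Fintype.card_fin]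
  exact le_trans (Nat.descFactorial_le_pow n m) (Nat.pow_le_pow_left (by omega) m)

lemma emb_card_ge : (n + 1 - m) ^ m ≤ Fintype.card (Fin m ↪ Fin n) := by
  rw [Fintype.card_embedding_eq, Fintype.card_fin, Fintype.card_fin]
  exact Nat.pow_sub_le_descFactorial n m

/-- the number of close pairs -/
lemma card_close : ((univ : Finset ((V n × (Fin m ↪ Fin n)) × (V n × (Fin m ↪ Fin n)))).filter
    fun x => Cl m x.1.1 x.2.1).card ≤ 2 ^ n * (2 * (n + 1) ^ (4 * m + 6)) := by
  have h1 : ((univ : Finset ((V n × (Fin m ↪ Fin n)) × (V n × (Fin m ↪ Fin n)))).filter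
      fun x => Cl m x.1.1 x.2.1).card =
      ∑ a : V n × (Fin m ↪ Fin n), ((univ : Finset (V n × (Fin m ↪ Fin n))).filter
        fun b => Cl m a.1 b.1).card := by
    simp only [Finset.card_filter]
    rw [← Finset.univ_product_univ, Finset.sum_product]
  have h2 : ∀ a : V n × (Fin m ↪ Fin n), ((univ : Finset (V n × (Fin m ↪ Fin n))).filter
        fun b => Cl m a.1 b.1).card ≤ 2 * (n + 1) ^ (2 * m + 6) * (n + 1) ^ m := by
    intro a
    have h3 : ((univ : Finset (V n × (Fin m ↪ Fin n))).filter fun b => Cl m a.1 b.1) =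
        (univ.filter fun w' : V n => Cl m a.1 w') ×ˢ (univ : Finset (Fin m ↪ Fin n)) := by
      ext b
      simp
    rw [h3, Finset.card_product, Finset.card_univ]
    exact Nat.mul_le_mul (card_Cl a.1) card_emb
  rw [h1]
  refine le_trans (Finset.sum_le_card_nsmul _ _ _ (fun a _ => h2 a)) ?_
  rw [Finset.card_univ, Fintype.card_prod, smul_eq_mul]
  have h4 : Fintype.card (V n) = 2 ^ n := by simp
  rw [h4]
  calc 2 ^ n * Fintype.card (Fin m ↪ Fin n) * (2 * (n + 1) ^ (2 * m + 6) * (n + 1) ^ m)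
      ≤ 2 ^ n * (n + 1) ^ m * (2 * (n + 1) ^ (2 * m + 6) * (n + 1) ^ m) :=
        Nat.mul_le_mul_right _ (Nat.mul_le_mul_left _ card_emb)
    _ = 2 ^ n * (2 * (n + 1) ^ (4 * m + 6)) := by
        have : 4 * m + 6 = m + (2 * m + 6) + m := by ring
        rw [this, pow_add, pow_add]
        ring

open Classical in
/-- the number of dead ends -/
noncomputable def Nde (m : ℕ) (ω : Cfg n) : ℝ :=
  ∑ a : V n × (Fin m ↪ Fin n), if DE ω a.1 a.2 then 1 else 0

lemma Ex_Nde (pv pe : ℝ) : Ex (bp pv pe n) (Nde m) =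
    ∑ a : V n × (Fin m ↪ Fin n), Pr (bp pv pe n) {ω | DE ω a.1 a.2} := by
  unfold Nde
  rw [Ex_sum]
  rfl

lemma Ex_Nde_sq (pv pe : ℝ) : Ex (bp pv pe n) (fun ω => Nde m ω ^ 2) =
    ∑ x : (V n × (Fin m ↪ Fin n)) × (V n × (Fin m ↪ Fin n)),
      Pr (bp pv pe n) {ω | DE ω x.1.1 x.1.2 ∧ DE ω x.2.1 x.2.2} := by
  classical
  have h1 : (fun ω : Cfg n => Nde m ω ^ 2) = fun ω => ∑ x ∈ (univ : Finset
      ((V n × (Fin m ↪ Fin n)) × (V n × (Fin m ↪ Fin n)))),
        if ω ∈ {ω | DE ω x.1.1 x.1.2 ∧ DE ω x.2.1 x.2.2} then (1 : ℝ) else 0 := by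
    funext ω
    rw [sq]
    unfold Nde
    rw [Finset.sum_mul_sum]
    symm
    rw [Fintype.sum_prod_type]
    apply Finset.sum_congr rfl
    intro a _
    apply Finset.sum_congr rfl
    intro b _
    by_cases ha : DE ω a.1 a.2 <;> by_cases hb : DE ω b.1 b.2 <;> simp [ha, hb]
  rw [h1, Ex_sum]
  apply Finset.sum_congr rfl
  intro x _
  unfold Pr
  congr 1
  funext ω
  congr 1

lemma second_moment {pv pe : ℝ} (h1 : 0 < pv) (h2 : pv ≤ 1) (h3 : 0 < pe) (h4 : pe ≤ 1)
    (hm : 0 < m) {K : ℕ} {B : ℝ} (hB : 0 ≤ B) (hn : 2 * K < n)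
    (hlow : ∀ S : Finset (V n), S.card = m + 1 → Pr (bp pv pe n) {ω | ∀ u ∈ S, Low K ω u} ≤ B) :
    Ex (bp pv pe n) (fun ω => Nde m ω ^ 2) ≤ (Ex (bp pv pe n) (Nde m)) ^ 2 +
      Ex (bp pv pe n) (Nde m) + 2 ^ n * (2 * ((n : ℝ) + 1) ^ (4 * m + 6)) * B := by
  classical
  have hp := bp_unit h1.le h2 h3.le h4 n
  rw [Ex_Nde_sq, Ex_Nde]
  obtain ⟨P, hP⟩ : ∃ P : V n × (Fin m ↪ Fin n) → ℝ,
    P = fun a => Pr (bp pv pe n) {ω | DE ω a.1 a.2} := ⟨_, rfl⟩
  have hP0 : ∀ a, 0 ≤ P a := fun a => by rw [hP]; exact Pr_nonneg hp _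
  have hterm : ∀ x : (V n × (Fin m ↪ Fin n)) × (V n × (Fin m ↪ Fin n)),
      Pr (bp pv pe n) {ω | DE ω x.1.1 x.1.2 ∧ DE ω x.2.1 x.2.2} ≤
        P x.1 * P x.2 + (if x.1 = x.2 then P x.1 else 0) + (if Cl m x.1.1 x.2.1 then B else 0) := by
    intro x
    have e0 : 0 ≤ P x.1 * P x.2 := mul_nonneg (hP0 _) (hP0 _)
    by_cases hx : x.1 = x.2
    · have e1 : Pr (bp pv pe n) {ω | DE ω x.1.1 x.1.2 ∧ DE ω x.2.1 x.2.2} ≤ P x.1 := by
        rw [hP]
        exact Pr_mono hp (fun ω h => h.1)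
      rw [if_pos hx]
      have e2 : 0 ≤ (if Cl m x.1.1 x.2.1 then B else 0) := by split_ifs <;> linarith
      linarith
    · rw [if_neg hx]
      by_cases hc : Cl m x.1.1 x.2.1
      · rw [if_pos hc]
        have e1 := pair_bound h1 h2 h3 h4 hm hB hn hlow x.1 x.2 hx
        linarith
      · rw [if_neg hc]
        unfold Cl at hc
        push Not at hc
        have e1 : Disjoint (Jn m x.1.1) (Jn m x.2.1) := by
          apply Jn_disj
          · rw [hd_comm]; exact hc.1
          · rw [← hd_anti, hd_comm]; exact hc.2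
        have e2 := Pr_ind2 (bp pv pe n) (Jn m x.1.1) (Jn m x.2.1) (fun ω => DE ω x.1.1 x.1.2)
          (fun ω => DE ω x.2.1 x.2.2) (de_dep _ _) (de_dep _ _) e1
        rw [e2, hP]
        simp
  refine le_trans (Finset.sum_le_sum (fun x _ => hterm x)) ?_
  rw [Finset.sum_add_distrib, Finset.sum_add_distrib]
  have s1 : ∑ x : (V n × (Fin m ↪ Fin n)) × (V n × (Fin m ↪ Fin n)), P x.1 * P x.2 =
      (∑ a, P a) ^ 2 := by
    rw [sq, Finset.sum_mul_sum, ← Finset.univ_product_univ, Finset.sum_product]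
  have s2 : ∑ x : (V n × (Fin m ↪ Fin n)) × (V n × (Fin m ↪ Fin n)),
      (if x.1 = x.2 then P x.1 else 0) = ∑ a, P a := by
    rw [← Finset.univ_product_univ, Finset.sum_product]
    apply Finset.sum_congr rfl
    intro a _
    simp
  have s3 : ∑ x : (V n × (Fin m ↪ Fin n)) × (V n × (Fin m ↪ Fin n)),
      (if Cl m x.1.1 x.2.1 then B else 0) ≤ 2 ^ n * (2 * ((n : ℝ) + 1) ^ (4 * m + 6)) * B := by
    rw [← Finset.sum_filter, Finset.sum_const, nsmul_eq_mul]
    apply mul_le_mul_of_nonneg_right _ hB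
    have := card_close (n := n) (m := m)
    exact_mod_cast this
  rw [s1, s2, hP]
  linarith

end DEp

open DEp in
theorem dE {pv pe : ℝ} (h1 : 0 < pv) (h2 : pv ≤ 1) (h3 : 0 < pe) (h4 : pe ≤ 1) (m : ℕ) :
    StmtDE pv pe m := by
  rintro ⟨K, hK, C, ρ, hC, hρ, hρ2, hlow⟩ hm hq
  obtain ⟨c1, hc1⟩ : ∃ c1 : ℝ, c1 = pv ^ (m + 2) * pe ^ m := ⟨_, rfl⟩
  have hc1pos : 0 < c1 := by rw [hc1]; positivity
  have hq0 : 0 ≤ 1 - pv * pe := by
    have : pv * pe ≤ 1 := mul_le_one₀ h2 h3.le h4
    linarith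
  -- lower bound for the mean
  have hmean : ∀ n : ℕ, m + 2 ≤ n → c1 * ((n : ℝ) + 1 - m) ≤ Ex (bp pv pe n) (Nde m) := by
    intro n hn
    rw [Ex_Nde]
    have e1 : ∀ a ∈ (univ : Finset (V n × (Fin m ↪ Fin n))), c1 * (1 - pv * pe) ^ (m * n) ≤
        Pr (bp pv pe n) {ω | DE ω a.1 a.2} := by
      intro a _
      rw [hc1]
      exact prob_DE h1 h2 h3 h4 hn a.1 a.2
    have e2 := Finset.card_nsmul_le_sum _ _ _ e1
    refine le_trans ?_ e2
    rw [Finset.card_univ, Fintype.card_prod, nsmul_eq_mul]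
    have e3 : Fintype.card (V n) = 2 ^ n := by simp
    rw [e3]
    push_cast
    have e4 : (1 : ℝ) ≤ 2 ^ n * (1 - pv * pe) ^ (m * n) := by
      rw [pow_mul, ← mul_pow]
      exact one_le_pow₀ hq
    have e5 : ((n : ℝ) + 1 - m) ≤ (Fintype.card (Fin m ↪ Fin n) : ℝ) := by
      have e6 := emb_card_ge (n := n) (m := m)
      have e7 : n + 1 - m ≤ (n + 1 - m) ^ m := Nat.le_self_pow hm.ne' _
      have e8 : ((n + 1 - m : ℕ) : ℝ) ≤ (Fintype.card (Fin m ↪ Fin n) : ℝ) := by
        exact_mod_cast le_trans e7 e6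
      rw [Nat.cast_sub (by omega)] at e8
      push_cast at e8
      exact e8
    have e9 : (0 : ℝ) ≤ (Fintype.card (Fin m ↪ Fin n) : ℝ) := Nat.cast_nonneg _
    calc c1 * ((n : ℝ) + 1 - m) ≤ c1 * (Fintype.card (Fin m ↪ Fin n) : ℝ) :=
          mul_le_mul_of_nonneg_left e5 hc1pos.le
      _ = 1 * (c1 * (Fintype.card (Fin m ↪ Fin n) : ℝ)) := by ring
      _ ≤ (2 ^ n * (1 - pv * pe) ^ (m * n)) * (c1 * (Fintype.card (Fin m ↪ Fin n) : ℝ)) :=
          mul_le_mul_of_nonneg_right e4 (mul_nonneg hc1pos.le e9)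
      _ = 2 ^ n * (Fintype.card (Fin m ↪ Fin n) : ℝ) * (c1 * (1 - pv * pe) ^ (m * n)) := by ring
  -- the lower bound function
  obtain ⟨L, hL⟩ : ∃ L : ℕ → ℝ, L = fun n : ℕ => 1 - (c1 * ((n : ℝ) + 1 - m))⁻¹ -
    C * 2 * ((n : ℝ) + 1) ^ (4 * m + 6) * (2 * ρ) ^ n := ⟨_, rfl⟩
  have hLlim : Tendsto L atTop (𝓝 1) := by
    have t1 : Tendsto (fun n : ℕ => (c1 * ((n : ℝ) + 1 - m))⁻¹) atTop (𝓝 0) := by
      apply Tendsto.inv_tendsto_atTop
      apply Tendsto.const_mul_atTop hc1pos
      have : (fun n : ℕ => (n : ℝ) + 1 - m) = fun n : ℕ => (n : ℝ) + (1 - m) := by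
        funext n; ring
      rw [this]
      exact tendsto_atTop_add_const_right _ _ tendsto_natCast_atTop_atTop
    have t2 : Tendsto (fun n : ℕ => ((n : ℝ) + 1) ^ (4 * m + 6) * (2 * ρ) ^ n) atTop (𝓝 0) := by
      have t3 := tendsto_pow_const_mul_const_pow_of_abs_lt_one (4 * m + 6) (r := 2 * ρ)
        (by rw [abs_of_pos (by linarith)]; exact hρ2)
      have t4 := (tendsto_add_atTop_iff_nat 1).2 t3
      have t5 := t4.const_mul ((2 * ρ)⁻¹)
      rw [mul_zero] at t5
      refine t5.congr ?_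
      intro n
      push_cast
      rw [pow_succ (2 * ρ) n]
      have : (2 * ρ) ≠ 0 := by positivity
      field_simp
    have t6 := (t2.const_mul (C * 2))
    rw [mul_zero] at t6
    have t7 := ((tendsto_const_nhds (x := (1 : ℝ))).sub t1).sub t6
    rw [sub_zero, sub_zero] at t7
    rw [hL]
    refine t7.congr ?_
    intro n
    ring
  refine tendsto_of_tendsto_of_tendsto_of_le_of_le' hLlim tendsto_const_nhds ?_ ?_
  · -- the lower bound
    have ev1 : ∀ᶠ n : ℕ in atTop, 1 ≤ c1 * ((n : ℝ) + 1 - m) := by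
      have t1 : Tendsto (fun n : ℕ => c1 * ((n : ℝ) + 1 - m)) atTop atTop := by
        apply Tendsto.const_mul_atTop hc1pos
        have : (fun n : ℕ => (n : ℝ) + 1 - m) = fun n : ℕ => (n : ℝ) + (1 - m) := by
          funext n; ring
        rw [this]
        exact tendsto_atTop_add_const_right _ _ tendsto_natCast_atTop_atTop
      exact t1.eventually_ge_atTop 1
    filter_upwards [ev1, eventually_ge_atTop (m + 2), eventually_gt_atTop (2 * K)] with n hn1 hn2 hn3
    have hp := bp_unit h1.le h2 h3.le h4 n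
    obtain ⟨M, hM⟩ : ∃ M, M = Ex (bp pv pe n) (Nde m) := ⟨_, rfl⟩
    have hM1 : c1 * ((n : ℝ) + 1 - m) ≤ M := by rw [hM]; exact hmean n hn2
    have hM2 : 1 ≤ M := le_trans hn1 hM1
    have hsm := second_moment h1 h2 h3 h4 hm (K := K) (B := C * ρ ^ n)
      (by positivity) hn3 (fun S hS => hlow K le_rfl n S hS)
    have hcs := Ex_sq_le hp (Nde (n := n) m)
    have hsub : {ω : Cfg n | Nde m ω ≠ 0} ⊆
        {ω : Cfg n | ∃ (w : V n) (I : Fin m ↪ Fin n), DE ω w I} := by
      intro ω hω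
      by_contra hc
      apply hω
      unfold Nde
      apply Finset.sum_eq_zero
      intro a _
      rw [if_neg]
      intro h
      exact hc ⟨a.1, a.2, h⟩
    have hmono := Pr_mono hp hsub
    obtain ⟨Q, hQ⟩ : ∃ Q, Q = Pr (bp pv pe n) {ω : Cfg n | Nde m ω ≠ 0} := ⟨_, rfl⟩
    have hQ0 : 0 ≤ Q := by rw [hQ]; exact Pr_nonneg hp _
    have hQ1 : Q ≤ 1 := by rw [hQ]; exact Pr_le_one hp _
    obtain ⟨Er, hEr⟩ : ∃ Er : ℝ, Er = 2 ^ n * (2 * ((n : ℝ) + 1) ^ (4 * m + 6)) * (C * ρ ^ n) :=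
      ⟨_, rfl⟩
    have hEr0 : 0 ≤ Er := by rw [hEr]; positivity
    rw [← hM] at hsm hcs
    rw [← hEr] at hsm
    rw [← hQ] at hcs hmono
    refine le_trans ?_ hmono
    -- algebra
    have k1 : M ^ 2 ≤ (M ^ 2 + M + Er) * Q := le_trans hcs (mul_le_mul_of_nonneg_right hsm hQ0)
    have k2 : M ^ 2 ≤ M ^ 2 * Q + (M + Er) := by
      have : (M + Er) * Q ≤ (M + Er) * 1 := mul_le_mul_of_nonneg_left hQ1 (by linarith)
      nlinarith
    have hM0 : 0 < M := by linarith
    have k3 : 1 - M⁻¹ - Er ≤ Q := by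
      have e1 : M ^ 2 * (1 - M⁻¹ - Er) ≤ M ^ 2 * Q := by
        have e2 : M ^ 2 * (1 - M⁻¹ - Er) = M ^ 2 - M - M ^ 2 * Er := by
          field_simp
        rw [e2]
        have e3 : Er ≤ M ^ 2 * Er := by
          have : (1 : ℝ) ≤ M ^ 2 := one_le_pow₀ hM2
          nlinarith
        linarith
      exact le_of_mul_le_mul_left e1 (by positivity)
    have k4 : M⁻¹ ≤ (c1 * ((n : ℝ) + 1 - m))⁻¹ := by
      apply inv_anti₀ (by linarith) hM1
    have k5 : Er = C * 2 * ((n : ℝ) + 1) ^ (4 * m + 6) * (2 * ρ) ^ n := by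
      rw [hEr, mul_pow]; ring
    rw [hL]
    show 1 - (c1 * ((n : ℝ) + 1 - m))⁻¹ - C * 2 * ((n : ℝ) + 1) ^ (4 * m + 6) * (2 * ρ) ^ n ≤ Q
    rw [← k5]
    linarith
  · exact Eventually.of_forall fun n => Pr_le_one (bp_unit h1.le h2 h3.le h4 n) _

end Pool.Agent.R896.DC
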