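import Mathlib

/-! Project DC: the diameter of random cubical graphs (MP_d3947f_pr).  Definitions. -/

set_option autoImplicit false

namespace Pool.Agent.R896.DC

open Filter Topology Finset

/-! ### finite product Bernoulli measures -/

section tool
variable {I : Type} [Fintype I] [DecidableEq I]

/-- The weight of a configuration of independent bits, the bit `i` being `true` with probability `p i`. -/
def wt (p : I → ℝ) (ω : I → Bool) : ℝ := ∏ i, if ω i = true then p i else 1 - p i

/-- Expectation. -/
def Ex (p : I → ℝ) (f : (I → Bool) → ℝ) : ℝ := ∑ ω, wt p ω * f ω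

open Classical in
/-- Probability of an event. -/
noncomputable def Pr (p : I → ℝ) (S : Set (I → Bool)) : ℝ := Ex p (fun ω => if ω ∈ S then 1 else 0)

end tool

/-! ### the cube -/

/-- The vertices of the `n`-cube. -/
abbrev V (n : ℕ) : Type := Fin n → Bool

/-- The index set of the random bits: one for every vertex, and one for every pair (vertex, direction);
only the bits of the pairs `(u, i)` with `u i = false` are used (as states of the edges). -/
abbrev Ix (n : ℕ) : Type := V n ⊕ (V n × Fin n)

/-- Configurations. -/
abbrev Cfg (n : ℕ) : Type := Ix n → Bool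

/-- Flip all coordinates in `S`. -/
def flS {n : ℕ} (u : V n) (S : Finset (Fin n)) : V n := fun i => if i ∈ S then !(u i) else u i

/-- The neighbour of `u` in direction `i`. -/
def fl {n : ℕ} (u : V n) (i : Fin n) : V n := flS u {i}

/-- The antipode. -/
def anti {n : ℕ} (u : V n) : V n := flS u univ

/-- The index of the edge from `u` in direction `i` (named after its lower endpoint). -/
def ed {n : ℕ} (u : V n) (i : Fin n) : Ix n := Sum.inr (Function.update u i false, i)

lemma ed_fl {n : ℕ} (u : V n) (i : Fin n) : ed (fl u i) i = ed u i := by
  have h : Function.update (fl u i) i false = Function.update u i false := by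
    funext j
    by_cases h : j = i
    · subst h; simp
    · simp [fl, flS, h]
  rw [ed, ed, h]

/-- The set of directions in which `u` and `w` differ. -/
def df {n : ℕ} (u w : V n) : Finset (Fin n) := univ.filter fun i => u i ≠ w i

/-- The Hamming distance. -/
def hd {n : ℕ} (u w : V n) : ℕ := (df u w).card

/-- The probabilities of the bits. -/
def bp (pv pe : ℝ) (n : ℕ) : Ix n → ℝ := Sum.elim (fun _ => pv) (fun _ => pe)

/-- The random cubical graph: the vertices `u` with `ω (inl u) = true` are present; an edge of the cube
between present vertices is kept when its bit is `true`. -/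
def G {n : ℕ} (ω : Cfg n) : SimpleGraph (V n) where
  Adj u w := ω (Sum.inl u) = true ∧ ω (Sum.inl w) = true ∧ ∃ i, w = fl u i ∧ ω (ed u i) = true
  symm := ⟨by
    rintro u w ⟨hu, hw, i, rfl, hi⟩
    refine ⟨hw, hu, i, ?_, ?_⟩
    · funext j
      by_cases h : j = i <;> simp [fl, flS, h]
    · rw [← hi, ed_fl]⟩
  loopless := ⟨by
    rintro u ⟨_, _, i, h, _⟩
    have := congrFun h i
    simp [fl, flS] at this⟩

/-- The direction `i` is usable at `u`: the edge is open and the neighbour is present. -/
def Use {n : ℕ} (ω : Cfg n) (u : V n) (i : Fin n) : Prop :=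
  ω (ed u i) = true ∧ ω (Sum.inl (fl u i)) = true

instance {n : ℕ} (ω : Cfg n) (u : V n) (i : Fin n) : Decidable (Use ω u i) := by
  unfold Use; infer_instance

/-- The number of usable directions. -/
def dg {n : ℕ} (ω : Cfg n) (u : V n) : ℕ := (univ.filter fun i => Use ω u i).card

/-- `u` has fewer than `n / K` usable directions (whether `u` is present or not). -/
def Low {n : ℕ} (K : ℕ) (ω : Cfg n) (u : V n) : Prop := dg ω u * K < n

/-- The bits on the path that starts at `u` and flips the directions of the list one after another:
all its edges and all its interior vertices (not the two end vertices). -/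
def cs {n : ℕ} : V n → List (Fin n) → Finset (Ix n)
  | _, [] => ∅
  | u, [i] => {ed u i}
  | u, i :: j :: l => insert (ed u i) (insert (Sum.inl (fl u i)) (cs (fl u i) (j :: l)))

/-- There is an open geodesic from `u` to `w`: all edges open, all interior vertices present; nothing is
asked about the presence of `u` and `w` themselves. -/
def Geo {n : ℕ} (ω : Cfg n) (u w : V n) : Prop :=
  ∃ l : List (Fin n), l.Nodup ∧ l.toFinset = df u w ∧ ∀ c ∈ cs u l, ω c = true

/-- The bits inside the interval `[u,w]`: the interior vertices and the edges. -/
def bits {n : ℕ} (u w : V n) : Set (Ix n) :=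
  {c | (∃ z : V n, c = Sum.inl z ∧ z ≠ u ∧ z ≠ w ∧ ∀ i, z i = u i ∨ z i = w i) ∨
    ∃ (z : V n) (i : Fin n), c = ed z i ∧ (∀ j, z j = u j ∨ z j = w j) ∧ u i ≠ w i}

end Pool.Agent.R896.DC
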