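import Pool.Agent.R896.DC.Stm

/-! DC-DETL (MP_d3947f_pr): the deterministic lower bound. -/

set_option autoImplicit false

namespace Pool.Agent.R896.DC

open Finset

namespace DetL

variable {n : ℕ}

lemma df_flS (w : V n) (S : Finset (Fin n)) : df (flS w S) w = S := by
  ext i
  unfold df flS
  rw [mem_filter]
  by_cases h : i ∈ S
  · simp [h]
  · simp [h]

lemma hd_flS (w : V n) (S : Finset (Fin n)) : hd (flS w S) w = S.card := by
  unfold hd
  rw [df_flS]

lemma fl_inj (u : V n) {i j : Fin n} (h : fl u i = fl u j) : i = j := by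
  have h1 := df_flS u {i}
  have h2 := df_flS u {j}
  have h3 : flS u {i} = flS u {j} := h
  rw [h3, h2] at h1
  exact (singleton_injective h1).symm

lemma hd_self (u : V n) : hd u u = 0 := by
  unfold hd df
  simp

lemma hd_anti (w : V n) : hd (anti w) w = n := by
  unfold anti
  rw [hd_flS, card_univ, Fintype.card_fin]

lemma hd_comm (u w : V n) : hd u w = hd w u := by
  unfold hd df
  congr 1
  exact filter_congr fun i _ => ne_comm

lemma hd_le (u w : V n) : hd u w ≤ n := by
  have := card_le_univ (df u w)
  rwa [Fintype.card_fin] at this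

lemma hd_fl (u y : V n) (i : Fin n) : hd u y ≤ hd (fl u i) y + 1 := by
  unfold hd
  have h : df u y ⊆ insert i (df (fl u i) y) := by
    intro j hj
    rw [mem_insert]
    by_cases hji : j = i
    · exact Or.inl hji
    · right
      unfold df at hj ⊢
      rw [mem_filter] at hj ⊢
      refine ⟨mem_univ _, ?_⟩
      have : fl u i j = u j := by
        unfold fl flS
        rw [if_neg]
        rw [mem_singleton]
        exact hji
      rw [this]
      exact hj.2
  exact (card_le_card h).trans (card_insert_le _ _)

/-- the directions of the first `j` steps -/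
def Sj {m : ℕ} (I : Fin m ↪ Fin n) (j : ℕ) : Finset (Fin n) :=
  (univ.filter fun a : Fin m => (a : ℕ) < j).map I

lemma card_Sj {m : ℕ} (I : Fin m ↪ Fin n) {j : ℕ} (hj : j ≤ m) : (Sj I j).card = j := by
  unfold Sj
  rw [card_map, Fin.card_filter_val_lt]
  exact min_eq_right hj

lemma hd_zz {m : ℕ} (w : V n) (I : Fin m ↪ Fin n) {j : ℕ} (hj : j ≤ m) : hd (zz w I j) w = j := by
  have : zz w I j = flS w (Sj I j) := rfl
  rw [this, hd_flS, card_Sj I hj]

lemma zz_zero {m : ℕ} (w : V n) (I : Fin m ↪ Fin n) : zz w I 0 = w := by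
  unfold zz
  have : (univ.filter fun a : Fin m => (a : ℕ) < 0) = ∅ := by
    ext a
    simp
  rw [this, map_empty]
  funext i
  simp [flS]

lemma zz_succ {m : ℕ} (w : V n) (I : Fin m ↪ Fin n) (a : Fin m) :
    zz w I ((a : ℕ) + 1) = fl (zz w I a) (I a) := by
  funext i
  unfold zz fl flS
  by_cases hi : i = I a
  · subst hi
    have h1 : I a ∈ (univ.filter fun b : Fin m => (b : ℕ) < (a : ℕ) + 1).map I := by
      rw [mem_map]
      exact ⟨a, by simp, rfl⟩
    have h2 : I a ∉ (univ.filter fun b : Fin m => (b : ℕ) < (a : ℕ)).map I := by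
      rw [mem_map]
      rintro ⟨b, hb, hb'⟩
      have := I.injective hb'
      subst this
      simp at hb
    simp only [h1, h2, mem_singleton, if_true, if_false]
  · have h1 : i ∈ (univ.filter fun b : Fin m => (b : ℕ) < (a : ℕ) + 1).map I ↔
        i ∈ (univ.filter fun b : Fin m => (b : ℕ) < (a : ℕ)).map I := by
      rw [mem_map, mem_map]
      constructor
      · rintro ⟨b, hb, rfl⟩
        rw [mem_filter] at hb
        refine ⟨b, ?_, rfl⟩
        rw [mem_filter]
        refine ⟨mem_univ _, ?_⟩
        have : b ≠ a := fun h => hi (by rw [h])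
        have h3 : (b : ℕ) ≠ a := fun h => this (Fin.ext h)
        omega
      · rintro ⟨b, hb, rfl⟩
        rw [mem_filter] at hb
        exact ⟨b, by rw [mem_filter]; exact ⟨mem_univ _, by omega⟩, rfl⟩
    simp only [mem_singleton, hi, if_false, h1]

end DetL

open DetL

theorem detL : StmtDetL := by
  classical
  intro m K R hm hK hmR
  refine ⟨2 * K + m + 1, ?_⟩
  intro n hn ω w I hDE hbad
  obtain ⟨hp, hanti, hed, huse⟩ := hDE
  have hlow : ∀ j, 1 ≤ j → j ≤ m → Low K ω (zz w I j) := by
    intro j h1 h2
    have hd2 : dg ω (zz w I j) ≤ 2 := by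
      unfold dg
      have h3 : (univ.filter fun i => Use ω (zz w I j) i).card ≤
          ({zz w I (j - 1), zz w I (j + 1)} : Finset (V n)).card := by
        refine card_le_card_of_injOn (fun i => fl (zz w I j) i) ?_ ?_
        · intro i hi
          rw [mem_coe, mem_filter] at hi
          rw [mem_coe, mem_insert, mem_singleton]
          rcases huse j h1 h2 i hi.2 with h | h
          · exact Or.inl h
          · exact Or.inr h.2
        · intro i _ i' _ h
          exact fl_inj _ h
      exact h3.trans card_le_two
    unfold Low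
    have h4 : dg ω (zz w I j) * K ≤ 2 * K := Nat.mul_le_mul_right K hd2
    omega
  have hinj : Set.InjOn (fun j => zz w I j) ((range (m + 1) : Finset ℕ) : Set ℕ) := by
    intro j hj j' hj' h
    rw [mem_coe, mem_range] at hj hj'
    have h1 := hd_zz w I (by omega : j ≤ m)
    have h2 := hd_zz w I (by omega : j' ≤ m)
    have h3 : zz w I j = zz w I j' := h
    rw [h3, h2] at h1
    exact h1.symm
  refine ⟨?_, ?_, ?_⟩
  · intro hw
    apply hbad
    refine ⟨w, (range (m + 1)).image (fun j => zz w I j), ?_, ?_⟩
    · rw [card_image_of_injOn hinj, card_range]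
    · intro u hu
      rw [mem_image] at hu
      obtain ⟨j, hj, rfl⟩ := hu
      rw [mem_range] at hj
      refine ⟨?_, Or.inl ?_⟩
      · rcases Nat.eq_zero_or_pos j with h0 | h0
        · rw [h0, zz_zero]
          exact hw
        · exact hlow j h0 (by omega)
      · rw [hd_zz w I (by omega : j ≤ m)]
        omega
  · intro hw
    apply hbad
    refine ⟨w, insert (anti w) ((Icc 1 m).image (fun j => zz w I j)), ?_, ?_⟩
    · rw [card_insert_of_notMem, card_image_of_injOn, Nat.card_Icc]
      · omega
      · refine hinj.mono ?_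
        intro j hj
        rw [mem_coe, mem_Icc] at hj
        rw [mem_coe, mem_range]
        omega
      · rw [mem_image]
        rintro ⟨j, hj, h⟩
        rw [mem_Icc] at hj
        have h1 := hd_zz w I hj.2
        rw [h, hd_anti] at h1
        omega
    · intro u hu
      rw [mem_insert, mem_image] at hu
      rcases hu with rfl | ⟨j, hj, rfl⟩
      · refine ⟨hw, Or.inr ?_⟩
        rw [hd_self]
        omega
      · rw [mem_Icc] at hj
        refine ⟨hlow j hj.1 hj.2, Or.inl ?_⟩
        rw [hd_zz w I hj.2]
        omega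
  · intro hreach
    have hadj : ∀ a : Fin m, (G ω).Adj (zz w I a) (zz w I ((a : ℕ) + 1)) := by
      intro a
      refine ⟨hp a (by omega), hp _ (by omega), I a, zz_succ w I a, hed a⟩
    have hre : ∀ j, j ≤ m → (G ω).Reachable (zz w I j) w := by
      intro j
      induction j with
      | zero =>
        intro _
        rw [zz_zero]
      | succ j ih =>
        intro hj
        exact (hadj ⟨j, by omega⟩).symm.reachable.trans (ih (by omega))
    refine ⟨zz w I m, anti w, (hre m le_rfl).trans hreach, ?_⟩
    -- the potential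
    set f : V n → ℕ := fun z => if ∃ j, 1 ≤ j ∧ j ≤ m ∧ z = zz w I j then n + hd z w
      else hd z (anti w) with hf
    have hfz : ∀ j, 1 ≤ j → j ≤ m → f (zz w I j) = n + j := by
      intro j h1 h2
      have hex : ∃ j', 1 ≤ j' ∧ j' ≤ m ∧ zz w I j = zz w I j' := ⟨j, h1, h2, rfl⟩
      simp only [hf]
      rw [if_pos hex, hd_zz w I h2]
    have hfo : ∀ z, (¬ ∃ j, 1 ≤ j ∧ j ≤ m ∧ z = zz w I j) → f z = hd z (anti w) := by
      intro z hz
      simp only [hf]
      rw [if_neg hz]
    have hfw : f w = n := by
      rw [hfo, hd_comm, hd_anti]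
      rintro ⟨j, h1, h2, h3⟩
      have h4 := hd_zz w I h2
      rw [← h3, hd_self] at h4
      omega
    have hfa : f (anti w) = 0 := by
      rw [hfo, hd_self]
      rintro ⟨j, h1, h2, h3⟩
      have h4 := hd_zz w I h2
      rw [← h3, hd_anti] at h4
      omega
    have hstep : ∀ u u', (G ω).Adj u u' → f u ≤ f u' + 1 := by
      intro u u' hadj'
      obtain ⟨hu, hu', i, hi, hei⟩ := hadj'
      by_cases hex : ∃ j, 1 ≤ j ∧ j ≤ m ∧ u = zz w I j
      · obtain ⟨j, h1, h2, rfl⟩ := hex
        rw [hfz j h1 h2]
        have hU : Use ω (zz w I j) i := ⟨hei, by rw [← hi]; exact hu'⟩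
        rcases huse j h1 h2 i hU with h | ⟨h, h'⟩
        · rw [hi, h]
          rcases Nat.lt_or_ge 1 j with h3 | h3
          · rw [hfz (j - 1) (by omega) (by omega)]
            omega
          · have : j = 1 := by omega
            subst this
            rw [Nat.sub_self, zz_zero, hfw]
        · rw [hi, h', hfz (j + 1) (by omega) (by omega)]
          omega
      · rw [hfo u hex]
        by_cases hex' : ∃ j, 1 ≤ j ∧ j ≤ m ∧ u' = zz w I j
        · obtain ⟨j, h1, h2, rfl⟩ := hex'
          rw [hfz j h1 h2]
          have := hd_le u (anti w)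
          omega
        · rw [hfo u' hex', hi]
          exact hd_fl u (anti w) i
    have hwalk : ∀ (u v : V n) (P : (G ω).Walk u v), f u ≤ f v + P.length := by
      intro u v P
      induction P with
      | nil => simp
      | cons hadj' q ih =>
        rw [SimpleGraph.Walk.length_cons]
        have := hstep _ _ hadj'
        omega
    obtain ⟨P, hP⟩ := ((hre m le_rfl).trans hreach).exists_walk_length_eq_dist
    have h1 := hwalk _ _ P
    rw [hP, hfz m hm le_rfl, hfa] at h1
    omega

end Pool.Agent.R896.DC
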