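import Pool.Agent.R896.DC.Stm

/-! Project DC: the deterministic upper bound (piece DC-DETU). -/

set_option autoImplicit false

namespace Pool.Agent.R896.DC

open Filter Topology Finset

namespace DetU

variable {n : ℕ}

lemma fl_apply (u : V n) (i j : Fin n) : fl u i j = if j = i then !(u j) else u j := by
  simp [fl, flS]

lemma mem_df {u w : V n} {i : Fin n} : i ∈ df u w ↔ u i ≠ w i := by simp [df]

lemma hd_comm (u w : V n) : hd u w = hd w u := by
  unfold hd df
  congr 1
  ext i
  simp [ne_comm]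

lemma df_comm (u w : V n) : df u w = df w u := by
  ext i
  rw [mem_df, mem_df, ne_comm]

lemma hd_triangle (u v w : V n) : hd u w ≤ hd u v + hd v w := by
  unfold hd
  refine (card_le_card ?_).trans (card_union_le _ _)
  intro i hi
  rw [mem_union, mem_df, mem_df]
  rw [mem_df] at hi
  by_contra h
  push Not at h
  exact hi (h.1.trans h.2)

lemma hd_self (u : V n) : hd u u = 0 := by simp [hd, df]

lemma hd_fl (u : V n) (i : Fin n) : hd u (fl u i) = 1 := by
  unfold hd
  rw [card_eq_one]
  refine ⟨i, ?_⟩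
  ext j
  rw [mem_df, fl_apply, mem_singleton]
  by_cases h : j = i
  · simp [h]
  · simp [h]

lemma hd_anti (u w : V n) : hd u w + hd u (anti w) = n := by
  have h : df u (anti w) = (df u w)ᶜ := by
    ext i
    rw [mem_compl, mem_df, mem_df]
    unfold anti flS
    simp only [mem_univ, if_true]
    cases u i <;> cases w i <;> simp
  unfold hd
  rw [h, card_add_card_compl, Fintype.card_fin]

lemma hd_fl_fl {x y : V n} {i i' : Fin n} (hi : i ∈ df x y) (hi' : i' ∈ df x y) (hne : i ≠ i') :
    hd (fl x i) (fl y i') + 2 = hd x y := by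
  have h : df x y = insert i (insert i' (df (fl x i) (fl y i'))) := by
    ext j
    rw [mem_insert, mem_insert, mem_df, mem_df, fl_apply, fl_apply]
    rw [mem_df] at hi hi'
    by_cases h1 : j = i
    · subst h1; simp [hi]
    · by_cases h2 : j = i'
      · subst h2; simp [hi']
      · simp [h1, h2]
  have h2 : i' ∉ df (fl x i) (fl y i') := by
    rw [mem_df] at hi' ⊢
    rw [fl_apply, fl_apply, if_neg (Ne.symm hne), if_pos rfl]
    revert hi'
    cases x i' <;> cases y i' <;> simp
  have h1 : i ∉ insert i' (df (fl x i) (fl y i')) := by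
    rw [mem_insert, not_or]
    refine ⟨hne, ?_⟩
    rw [mem_df] at hi ⊢
    rw [fl_apply, fl_apply, if_neg hne, if_pos rfl]
    revert hi
    cases x i <;> cases y i <;> simp
  unfold hd
  rw [h, card_insert_of_notMem h1, card_insert_of_notMem h2]

/-- there is a walk of length at most `L` -/
def Con (ω : Cfg n) (x y : V n) (L : ℕ) : Prop := ∃ p : (G ω).Walk x y, p.length ≤ L

lemma Con.trans {ω : Cfg n} {x y z : V n} {a b : ℕ} (h1 : Con ω x y a) (h2 : Con ω y z b) :
    Con ω x z (a + b) := by
  obtain ⟨p, hp⟩ := h1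
  obtain ⟨q, hq⟩ := h2
  exact ⟨p.append q, by rw [SimpleGraph.Walk.length_append]; omega⟩

lemma Con.symm {ω : Cfg n} {x y : V n} {a : ℕ} (h1 : Con ω x y a) : Con ω y x a := by
  obtain ⟨p, hp⟩ := h1
  exact ⟨p.reverse, by rw [SimpleGraph.Walk.length_reverse]; omega⟩

lemma Con.mono {ω : Cfg n} {x y : V n} {a b : ℕ} (h1 : Con ω x y a) (h : a ≤ b) :
    Con ω x y b := by
  obtain ⟨p, hp⟩ := h1
  exact ⟨p, hp.trans h⟩

lemma con_use {ω : Cfg n} {x : V n} {i : Fin n} (hx : ω (Sum.inl x) = true) (h : Use ω x i) :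
    Con ω x (fl x i) 1 := by
  have : (G ω).Adj x (fl x i) := ⟨hx, h.2, i, rfl, h.1⟩
  exact ⟨this.toWalk, by simp⟩

lemma con_geo (hB : StmtGeoB) {ω : Cfg n} {u w : V n} (hu : ω (Sum.inl u) = true)
    (hw : ω (Sum.inl w) = true) (h : Geo ω u w) : Con ω u w (hd u w) := by
  obtain ⟨h1, h2⟩ := (hB n).2.2.2.1 ω u w hu hw h
  obtain ⟨p, hp⟩ := h1.exists_walk_length_eq_dist
  exact ⟨p, by omega⟩

lemma far_con (hB : StmtGeoB) {ω : Cfg n} {K3 : ℕ} (hK3 : 0 < K3) (hF : ¬ BadFar K3 ω)
    {x y : V n} (hx : ω (Sum.inl x) = true) (hy : ω (Sum.inl y) = true)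
    {A A' : Finset (Fin n)} (hA : A ⊆ df x y) (hA' : A' ⊆ df x y)
    (hAu : ∀ i ∈ A, Use ω x i) (hAu' : ∀ i ∈ A', Use ω y i)
    (h1 : 2 * (n / K3 + 1) ≤ A.card) (h2 : 2 * (n / K3 + 1) ≤ A'.card) :
    Con ω x y (hd x y) := by
  obtain ⟨U, hU, hUc⟩ := exists_subset_card_eq (s := A) (n := n / K3 + 1) (by omega)
  have h3 : n / K3 + 1 ≤ (A' \ U).card := by
    have := le_card_sdiff U A'
    omega
  obtain ⟨U', hU', hUc'⟩ := exists_subset_card_eq h3
  have hn : n ≤ (n / K3 + 1) * K3 := by
    have := Nat.lt_div_mul_add hK3 (a := n)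
    nlinarith
  have hdisj : Disjoint U U' := by
    rw [disjoint_left]
    intro a ha ha'
    exact (mem_sdiff.mp (hU' ha')).2 ha
  unfold BadFar at hF
  push Not at hF
  obtain ⟨i, hi, i', hi', hg⟩ := hF x y U U' (hU.trans hA)
    ((hU'.trans sdiff_subset).trans hA') hdisj (by rw [hUc]; exact hn) (by rw [hUc']; exact hn)
  have hi'' : i' ∈ A' := (mem_sdiff.mp (hU' hi')).1
  have hne : i ≠ i' := by
    rintro rfl
    exact (disjoint_left.mp hdisj) hi hi'
  have hux := hAu i (hU hi)
  have huy := hAu' i' hi''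
  have hc := con_geo hB hux.2 huy.2 hg
  have hh := hd_fl_fl (hA (hU hi)) (hA' hi'') hne
  have := ((con_use hx hux).trans hc).trans (con_use hy huy).symm
  exact this.mono (by omega)

/-- usable directions of `x` -/
def us (ω : Cfg n) (x : V n) : Finset (Fin n) := univ.filter fun i => Use ω x i

lemma mem_us {ω : Cfg n} {x : V n} {i : Fin n} : i ∈ us ω x ↔ Use ω x i := by simp [us]

lemma us_card (ω : Cfg n) (x : V n) : (us ω x).card = dg ω x := rfl

/-- claim (a) -/
lemma claim_a (hB : StmtGeoB) {ω : Cfg n} {K K' C0 : ℕ} (hK : 0 < K) (hK' : 0 < K')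
    (hF : ¬ BadFar (16 * K * K') ω) (hn : 8 * (C0 + 2) * K ≤ n)
    {x y : V n} (hx : ω (Sum.inl x) = true) (hy : ω (Sum.inl y) = true)
    (hlx : ¬ Low K ω x) (hly : ¬ Low K ω y) (h : n ≤ hd x y + C0) : Con ω x y (hd x y) := by
  have hK3 : 0 < 16 * K * K' := by positivity
  set q := n / (16 * K * K') with hq
  have hq1 : 16 * (K * q) ≤ n := by
    have h1 : q * (16 * K * K') ≤ n := Nat.div_mul_le_self _ _
    have h2 : 16 * (K * q) * 1 ≤ 16 * (K * q) * K' := Nat.mul_le_mul_left _ hK'
    nlinarith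
  have key : ∀ z : V n, ¬ Low K ω z → 2 * (q + 1) + C0 ≤ (us ω z).card := by
    intro z hz
    by_contra hcon
    push Not at hcon
    unfold Low at hz
    push Not at hz
    rw [us_card] at hcon
    have h1 : (dg ω z + 1) * K ≤ (2 * (q + 1) + C0) * K := Nat.mul_le_mul_right _ hcon
    nlinarith
  have hcap : ∀ z : V n, ¬ Low K ω z → 2 * (q + 1) ≤ (us ω z ∩ df x y).card := by
    intro z hz
    have h1 := key z hz
    have h2 : (us ω z).card ≤ (us ω z ∩ df x y).card + (df x y)ᶜ.card := by
      refine (card_le_card ?_).trans (card_union_le _ _)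
      intro i hi
      by_cases h3 : i ∈ df x y
      · exact mem_union_left _ (mem_inter.mpr ⟨hi, h3⟩)
      · exact mem_union_right _ (mem_compl.mpr h3)
    have h3 : (df x y)ᶜ.card + hd x y = n := by
      unfold hd
      rw [add_comm, card_add_card_compl, Fintype.card_fin]
    omega
  refine far_con hB hK3 hF hx hy (A := us ω x ∩ df x y) (A' := us ω y ∩ df x y)
    inter_subset_right inter_subset_right ?_ ?_ (hcap x hlx) (hcap y hly)
  · intro i hi
    exact mem_us.mp (mem_inter.mp hi).1
  · intro i hi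
    exact mem_us.mp (mem_inter.mp hi).1

lemma step_b {ω : Cfg n} {K K' : ℕ} (hK : 0 < K)
    (hS : ¬ BadStep (64 * K) 16 K' ω) (hn : 32 ≤ n)
    {x y : V n} (hlx : ¬ Low K ω x) (h : n ≤ 8 * hd x y) :
    ∃ i, Use ω x i ∧ ∃ A : Finset (Fin n), A ⊆ df x y ∧ i ∉ A ∧ (∀ j ∈ A, Use ω (fl x i) j) ∧
      n ≤ A.card * K' := by
  have h64 : 0 < 64 * K := by positivity
  set q := n / (64 * K) with hq
  have hq1 : q * (64 * K) ≤ n := Nat.div_mul_le_self _ _
  have hq0 : 64 * q ≤ n := by
    have : 64 * q * 1 ≤ 64 * q * K := Nat.mul_le_mul_left _ hK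
    nlinarith
  have hq2 : n ≤ (q + 1) * (64 * K) := by
    have := Nat.lt_div_mul_add h64 (a := n)
    nlinarith
  have h1 : q + 1 ≤ (us ω x).card := by
    by_contra hcon
    push Not at hcon
    unfold Low at hlx
    push Not at hlx
    rw [us_card] at hcon
    have h2 : dg ω x * K ≤ q * K := Nat.mul_le_mul_right _ (by omega)
    nlinarith
  obtain ⟨U, hU, hUc⟩ := exists_subset_card_eq h1
  have hW : hd x y ≤ (df x y \ U).card + (q + 1) := by
    have := le_card_sdiff U (df x y)
    unfold hd
    omega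
  have hdisj : Disjoint U (df x y \ U) := disjoint_sdiff
  unfold BadStep at hS
  push Not at hS
  obtain ⟨i, hi, hc⟩ := hS x U (df x y \ U) hdisj (by rw [hUc]; exact hq2) (by omega)
  refine ⟨i, mem_us.mp (hU hi), (df x y \ U).filter fun j => Use ω (fl x i) j, ?_, ?_, ?_, hc⟩
  · exact (filter_subset _ _).trans sdiff_subset
  · intro h
    exact (mem_sdiff.mp (mem_filter.mp h).1).2 hi
  · intro j hj
    exact (mem_filter.mp hj).2

/-- claim (b) -/
lemma claim_b (hB : StmtGeoB) {ω : Cfg n} {K K' : ℕ} (hK : 0 < K) (hK' : 0 < K')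
    (hF : ¬ BadFar (16 * K * K') ω) (hS : ¬ BadStep (64 * K) 16 K' ω)
    (hn : 32 ≤ n) (hn' : 8 * K' ≤ n)
    {x y : V n} (hx : ω (Sum.inl x) = true) (hy : ω (Sum.inl y) = true)
    (hlx : ¬ Low K ω x) (hly : ¬ Low K ω y) (h : n ≤ 8 * hd x y) :
    Con ω x y (hd x y + 4) := by
  have hK3 : 0 < 16 * K * K' := by positivity
  set q := n / (16 * K * K') with hq
  have hq1 : 16 * (K' * q) ≤ n := by
    have h1 : q * (16 * K * K') ≤ n := Nat.div_mul_le_self _ _
    have h2 : 16 * (K' * q) * 1 ≤ 16 * (K' * q) * K := Nat.mul_le_mul_left _ hK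
    nlinarith
  obtain ⟨i, hui, A, hA, hiA, hAu, hAc⟩ := step_b hK hS hn hlx h
  obtain ⟨i', hui', A', hA', hiA', hAu', hAc'⟩ := step_b hK hS hn (y := x) hly
    (by rw [hd_comm]; exact h)
  rw [df_comm] at hA'
  have hcard : ∀ (B : Finset (Fin n)) (j : Fin n), n ≤ B.card * K' →
      2 * (q + 1) ≤ (B.erase j).card := by
    intro B j hB'
    have h1 : B.card - 1 ≤ (B.erase j).card := pred_card_le_card_erase
    by_contra hcon
    push Not at hcon
    have h2 : B.card ≤ 2 * q + 2 := by omega
    have h3 : B.card * K' ≤ (2 * q + 2) * K' := Nat.mul_le_mul_right _ h2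
    nlinarith
  have hsub : A.erase i' ⊆ df (fl x i) (fl y i') := by
    intro j hj
    have hj1 := (mem_erase.mp hj).1
    have hj2 := (mem_erase.mp hj).2
    have hj3 := mem_df.mp (hA hj2)
    have hj4 : j ≠ i := by
      rintro rfl
      exact hiA hj2
    rw [mem_df, fl_apply, fl_apply, if_neg hj4, if_neg hj1]
    exact hj3
  have hsub' : A'.erase i ⊆ df (fl x i) (fl y i') := by
    intro j hj
    have hj1 := (mem_erase.mp hj).1
    have hj2 := (mem_erase.mp hj).2
    have hj3 := mem_df.mp (hA' hj2)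
    have hj4 : j ≠ i' := by
      rintro rfl
      exact hiA' hj2
    rw [mem_df, fl_apply, fl_apply, if_neg hj1, if_neg hj4]
    exact hj3
  have hc := far_con hB hK3 hF hui.2 hui'.2 hsub hsub'
    (fun j hj => hAu j (mem_erase.mp hj).2) (fun j hj => hAu' j (mem_erase.mp hj).2)
    (hcard A i' hAc) (hcard A' i hAc')
  have h1 : hd (fl x i) (fl y i') ≤ hd x y + 2 := by
    have h2 := hd_triangle (fl x i) x (fl y i')
    have h3 := hd_triangle x y (fl y i')
    rw [hd_fl] at h3
    rw [hd_comm (fl x i) x, hd_fl] at h2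
    omega
  have := ((con_use hx hui).trans hc).trans (con_use hy hui').symm
  exact this.mono (by omega)

lemma badLow_bound {ω : Cfg n} {m K R : ℕ} (hL : ¬ BadLow m K R ω) (w : V n)
    (S : Finset (V n)) (hS : ∀ u ∈ S, Low K ω u ∧ (hd u w ≤ R ∨ hd u (anti w) ≤ R)) :
    S.card ≤ m := by
  by_contra hcon
  push Not at hcon
  obtain ⟨T, hT, hTc⟩ := exists_subset_card_eq (s := S) (n := m + 1) (by omega)
  exact hL ⟨w, T, hTc, fun u hu => hS u (hT hu)⟩

lemma fl_inj (u : V n) {i j : Fin n} (h : fl u i = fl u j) : i = j := by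
  by_contra hne
  have := congrFun h i
  rw [fl_apply, fl_apply, if_pos rfl, if_neg hne] at this
  simp at this

/-- near every vertex there is a present high vertex -/
lemma exists_high {ω : Cfg n} {m K R : ℕ} (hL : ¬ BadLow m K R ω) (hR : 2 ≤ R)
    (hn : (m + 1) * K ≤ n) (hn2 : m < n) (z0 : V n) :
    ∃ z, ω (Sum.inl z) = true ∧ ¬ Low K ω z ∧ hd z0 z ≤ 2 := by
  classical
  obtain ⟨i, hi⟩ : ∃ i : Fin n, ¬ Low K ω (fl z0 i) := by
    by_contra hcon
    push Not at hcon
    have h1 := badLow_bound hL z0 (univ.image fun i => fl z0 i) (by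
      intro u hu
      obtain ⟨i, -, rfl⟩ := mem_image.mp hu
      refine ⟨hcon i, Or.inl ?_⟩
      rw [hd_comm, hd_fl]
      omega)
    rw [card_image_of_injective _ (fun i j h => fl_inj z0 h), card_univ, Fintype.card_fin] at h1
    omega
  have hcard : m + 1 ≤ (us ω (fl z0 i)).card := by
    by_contra hcon
    push Not at hcon
    unfold Low at hi
    push Not at hi
    rw [us_card] at hcon
    have h1 : dg ω (fl z0 i) * K ≤ m * K := Nat.mul_le_mul_right _ (by omega)
    by_cases hK : K = 0
    · subst hK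
      omega
    · nlinarith [Nat.pos_of_ne_zero hK]
  obtain ⟨j, hj, hj'⟩ : ∃ j ∈ us ω (fl z0 i), ¬ Low K ω (fl (fl z0 i) j) := by
    by_contra hcon
    push Not at hcon
    have h1 := badLow_bound hL z0 ((us ω (fl z0 i)).image fun j => fl (fl z0 i) j) (by
      intro u hu
      obtain ⟨j, hj, rfl⟩ := mem_image.mp hu
      refine ⟨hcon j hj, Or.inl ?_⟩
      have h2 := hd_triangle (fl (fl z0 i) j) (fl z0 i) z0
      rw [hd_comm (fl (fl z0 i) j) (fl z0 i), hd_fl, hd_comm (fl z0 i) z0, hd_fl] at h2
      omega)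
    rw [card_image_of_injective _ (fun i j h => fl_inj _ h)] at h1
    omega
  refine ⟨fl (fl z0 i) j, (mem_us.mp hj).2, hj', ?_⟩
  have h2 := hd_triangle z0 (fl z0 i) (fl (fl z0 i) j)
  rw [hd_fl, hd_fl] at h2
  omega

lemma exists_at (x : V n) (k : ℕ) (hk : k ≤ n) : ∃ z, hd x z = k := by
  obtain ⟨S, -, hS⟩ := exists_subset_card_eq (s := (univ : Finset (Fin n))) (n := k)
    (by rw [card_univ, Fintype.card_fin]; exact hk)
  refine ⟨flS x S, ?_⟩
  rw [← hS]
  unfold hd
  congr 1
  ext i
  rw [mem_df]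
  unfold flS
  by_cases h : i ∈ S <;> simp [h]

/-- claim (c) -/
lemma claim_c (hB : StmtGeoB) {ω : Cfg n} {m K K' R : ℕ} (hK : 0 < K) (hK' : 0 < K')
    (hL : ¬ BadLow m K R ω) (hR : 2 ≤ R)
    (hF : ¬ BadFar (16 * K * K') ω) (hS : ¬ BadStep (64 * K) 16 K' ω)
    (hn : 100 + 20 * m ≤ n) (hn' : 8 * K' ≤ n) (hn2 : (m + 1) * K ≤ n)
    {x y : V n} (hx : ω (Sum.inl x) = true) (hy : ω (Sum.inl y) = true)
    (hlx : ¬ Low K ω x) (hly : ¬ Low K ω y) (h : 8 * hd x y < n) :
    ∃ L, L + 2 * m ≤ n ∧ Con ω x y L := by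
  obtain ⟨z0, hz0⟩ := exists_at x (n / 3) (by omega)
  obtain ⟨z, hz, hzl, hzd⟩ := exists_high hL hR hn2 (by omega) z0
  have h1 := hd_triangle x z0 z
  have h2 := hd_triangle x z z0
  rw [hd_comm z z0] at h2
  have h3 := hd_triangle x y z
  have h4 := hd_triangle y x z
  rw [hd_comm y x] at h4
  have c1 := claim_b hB hK hK' hF hS (by omega) hn' hx hz hlx hzl (by omega)
  have c2 := claim_b hB hK hK' hF hS (by omega) hn' hz hy hzl hly
    (by rw [hd_comm z y]; omega)
  rw [hd_comm z y] at c2
  exact ⟨_, by omega, c1.trans c2⟩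

lemma hd_getVert {ω : Cfg n} {x y : V n} (p : (G ω).Walk x y) (i k : ℕ) (h : i + k ≤ p.length) :
    hd (p.getVert i) (p.getVert (i + k)) ≤ k := by
  induction k with
  | zero => rw [add_zero, hd_self]
  | succ k ih =>
    have h1 := ih (by omega)
    have h2 := p.adj_getVert_succ (i := i + k) (by omega)
    obtain ⟨-, -, j, hj, -⟩ := h2
    have h3 := hd_triangle (p.getVert i) (p.getVert (i + k)) (p.getVert (i + k + 1))
    rw [hj, hd_fl, ← hj] at h3
    rw [← add_assoc]
    omega

lemma present {ω : Cfg n} {x y : V n} (p : (G ω).Walk x y) (hp : 0 < p.length) (i : ℕ)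
    (hi : i ≤ p.length) : ω (Sum.inl (p.getVert i)) = true := by
  rcases Nat.lt_or_ge i p.length with h | h
  · exact (p.adj_getVert_succ h).1
  · have h1 : p.length - 1 < p.length := by omega
    have h2 := (p.adj_getVert_succ h1).2.1
    have h3 : p.length - 1 + 1 = i := by omega
    rwa [h3] at h2

/-- the upper bound -/
lemma upper (hB : StmtGeoB) {ω : Cfg n} {m K K' : ℕ} (hm : 0 < m) (hK : 0 < K) (hK' : 0 < K')
    (hL : ¬ BadLow m K (2 * m + 4) ω)
    (hF : ¬ BadFar (16 * K * K') ω) (hS : ¬ BadStep (64 * K) 16 K' ω)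
    (hn : 100 + 20 * m ≤ n) (hn' : 8 * K' ≤ n) (hn2 : (m + 1) * K ≤ n)
    (hn3 : 8 * ((m + 4) + 2) * K ≤ n)
    {x y : V n} (hr : (G ω).Reachable x y) : (G ω).dist x y ≤ n + m := by
  classical
  obtain ⟨p, hp⟩ := hr.exists_walk_length_eq_dist
  have hpath := p.isPath_of_length_eq_dist hp
  have hinj := hpath.getVert_injOn
  rw [← hp]
  rcases Nat.eq_zero_or_pos p.length with h0 | hpos
  · omega
  have hpres := present p hpos
  -- low vertices on the walk
  have hlow : ∀ (w : V n) (T : Finset ℕ), (∀ i ∈ T, i ≤ p.length ∧ Low K ω (p.getVert i) ∧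
      (hd (p.getVert i) w ≤ 2 * m + 4 ∨ hd (p.getVert i) (anti w) ≤ 2 * m + 4)) →
      T.card ≤ m := by
    intro w T hT
    have h1 := badLow_bound hL w (T.image p.getVert) (by
      intro u hu
      obtain ⟨i, hi, rfl⟩ := mem_image.mp hu
      exact (hT i hi).2)
    rwa [card_image_of_injOn] at h1
    intro i hi j hj hij
    exact hinj (hT i hi).1 (hT j hj).1 hij
  set H := (range (p.length + 1)).filter fun i => ¬ Low K ω (p.getVert i) with hH
  rcases H.eq_empty_or_nonempty with hHe | hHn
  · -- all vertices are low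
    have hall : ∀ i ≤ p.length, Low K ω (p.getVert i) := by
      intro i hi
      by_contra hcon
      have : i ∈ H := by
        rw [hH, mem_filter, mem_range]
        exact ⟨by omega, hcon⟩
      rw [hHe] at this
      simp at this
    by_contra hcon
    push Not at hcon
    have h1 := hlow x (range (m + 1)) (by
      intro i hi
      rw [mem_range] at hi
      refine ⟨by omega, hall i (by omega), Or.inl ?_⟩
      have h2 := hd_getVert p 0 i (by omega)
      rw [zero_add, p.getVert_zero, hd_comm] at h2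
      omega)
    rw [card_range] at h1
    omega
  · set a := H.min' hHn with ha
    set b := H.max' hHn with hb
    have haH : a ∈ H := min'_mem _ _
    have hbH : b ∈ H := max'_mem _ _
    have hab : a ≤ b := min'_le _ _ hbH
    rw [hH, mem_filter, mem_range] at haH hbH
    have hla : ∀ i < a, Low K ω (p.getVert i) := by
      intro i hi
      by_contra hcon
      have : i ∈ H := by
        rw [hH, mem_filter, mem_range]
        exact ⟨by omega, hcon⟩
      have := min'_le _ _ this
      omega
    have hlb : ∀ i, b < i → i ≤ p.length → Low K ω (p.getVert i) := by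
      intro i hi hi'
      by_contra hcon
      have : i ∈ H := by
        rw [hH, mem_filter, mem_range]
        exact ⟨by omega, hcon⟩
      have := le_max' _ _ this
      omega
    have ham : a ≤ m := by
      by_contra hcon
      push Not at hcon
      have h1 := hlow x (range (m + 1)) (by
        intro i hi
        rw [mem_range] at hi
        refine ⟨by omega, hla i (by omega), Or.inl ?_⟩
        have h2 := hd_getVert p 0 i (by omega)
        rw [zero_add, p.getVert_zero, hd_comm] at h2
        omega)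
      rw [card_range] at h1
      omega
    have hbm : p.length ≤ b + m := by
      by_contra hcon
      push Not at hcon
      have h1 := hlow y (Ioc (p.length - (m + 1)) p.length) (by
        intro i hi
        rw [mem_Ioc] at hi
        refine ⟨by omega, hlb i (by omega) hi.2, Or.inl ?_⟩
        have h2 := hd_getVert p i (p.length - i) (by omega)
        have h3 : i + (p.length - i) = p.length := by omega
        rw [h3, p.getVert_length] at h2
        omega)
      rw [Nat.card_Ioc] at h1
      omega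
    -- shortest path between the high vertices
    have hshort : ∀ M, Con ω (p.getVert a) (p.getVert b) M → p.length ≤ a + M + (p.length - b) := by
      rintro M ⟨q, hq⟩
      have h1 := SimpleGraph.dist_le (((p.take a).append q).append (p.drop b))
      rw [SimpleGraph.Walk.length_append, SimpleGraph.Walk.length_append,
        SimpleGraph.Walk.take_length, SimpleGraph.Walk.drop_length, ← hp] at h1
      have h2 : min a p.length ≤ a := min_le_left _ _
      omega
    have hpa := hpres a (by omega)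
    have hpb := hpres b (by omega)
    rcases Nat.lt_or_ge (hd (p.getVert a) (p.getVert b) + (m + 4)) n with hc | hc
    · rcases Nat.lt_or_ge (8 * hd (p.getVert a) (p.getVert b)) n with hc2 | hc2
      · obtain ⟨M, hM, hMc⟩ := claim_c hB hK hK' hL (by omega) hF hS hn hn' hn2 hpa hpb
          haH.2 hbH.2 hc2
        have := hshort M hMc
        omega
      · have := hshort _ (claim_b hB hK hK' hF hS (by omega) hn' hpa hpb haH.2 hbH.2 hc2)
        omega
    · have h1 := hshort _ (claim_a hB hK hK' hF hn3 hpa hpb haH.2 hbH.2 hc)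
      have h2 := hd_anti (p.getVert a) (p.getVert b)
      have h3 := hlow (p.getVert a) (range a ∪ Ioc b p.length) (by
        intro i hi
        rw [mem_union, mem_range, mem_Ioc] at hi
        rcases hi with hi | hi
        · refine ⟨by omega, hla i hi, Or.inl ?_⟩
          have h3 := hd_getVert p i (a - i) (by omega)
          have h4 : i + (a - i) = a := by omega
          rw [h4] at h3
          omega
        · refine ⟨hi.2, hlb i hi.1 hi.2, Or.inr ?_⟩
          have h3 := hd_getVert p b (i - b) (by omega)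
          have h4 : b + (i - b) = i := by omega
          rw [h4, hd_comm] at h3
          have h5 := hd_triangle (p.getVert i) (p.getVert b) (anti (p.getVert a))
          have h6 := hd_anti (p.getVert b) (p.getVert a)
          rw [hd_comm (p.getVert b) (p.getVert a)] at h6
          omega)
      have hdisj : Disjoint (range a) (Ioc b p.length) := by
        rw [disjoint_left]
        intro i hi hi'
        rw [mem_range] at hi
        rw [mem_Ioc] at hi'
        omega
      rw [card_union_of_disjoint hdisj, card_range, Nat.card_Ioc] at h3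
      omega

end DetU

/-- piece DC-DETU -/
theorem detU (hB : StmtGeoB) : StmtDetU := by
  intro m K K' hm hK hK'
  refine ⟨16 * K * K', 2 * m + 4,
    100 + 20 * m + 8 * K' + (m + 1) * K + 8 * ((m + 4) + 2) * K, by positivity, by omega, ?_⟩
  intro n hn ω hL hS hF
  have e1 : 100 + 20 * m ≤ n := by omega
  have e2 : 8 * K' ≤ n := by omega
  have e3 : (m + 1) * K ≤ n := by omega
  have e4 : 8 * ((m + 4) + 2) * K ≤ n := by omega
  refine ⟨fun x y hr => DetU.upper hB hm hK hK' hL hF hS e1 e2 e3 e4 hr, ?_⟩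
  intro w hw hw' hlw hlw'
  have h1 := DetU.hd_anti w w
  rw [DetU.hd_self, zero_add] at h1
  obtain ⟨p, -⟩ := DetU.claim_a hB hK hK' hF e4 hw hw' hlw hlw' (by omega)
  exact p.reachable

end Pool.Agent.R896.DC
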