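import Pool.Agent.R896.DC.Stm
import Pool.Agent.R896.DC.Tool

/-! Project DC, piece DC-FAR. -/

set_option autoImplicit false

namespace Pool.Agent.R896.DC

open Filter Topology Finset

namespace Far

section comb

variable {n : ℕ}

theorem fl_apply (u : V n) (i c : Fin n) : fl u i c = if c = i then !(u c) else u c := by
  simp [fl, flS]

theorem flS_apply (u : V n) (S : Finset (Fin n)) (c : Fin n) :
    flS u S c = if c ∈ S then !(u c) else u c := rfl

theorem mem_df (u w : V n) (c : Fin n) : c ∈ df u w ↔ u c ≠ w c := by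
  simp [df]

/-- the signature of a vertex -/
def sg (x : V n) (D : Finset (Fin n)) (z : V n) : Finset (Fin n) := df x z \ D

theorem sg_congr {x : V n} {D : Finset (Fin n)} {z u : V n} (h : ∀ c, c ∉ D → z c = u c) :
    sg x D z = sg x D u := by
  ext c
  simp only [sg, Finset.mem_sdiff, mem_df]
  constructor
  · rintro ⟨h1, h2⟩
    exact ⟨by rw [← h c h2]; exact h1, h2⟩
  · rintro ⟨h1, h2⟩
    exact ⟨by rw [h c h2]; exact h1, h2⟩

theorem eq_of_sg {x : V n} {D : Finset (Fin n)} {z u : V n} (h : sg x D z = sg x D u)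
    (h' : ∀ c ∈ D, z c = u c) : z = u := by
  funext c
  by_cases hc : c ∈ D
  · exact h' c hc
  · have h1 : c ∈ sg x D z ↔ c ∈ sg x D u := by rw [h]
    simp only [sg, Finset.mem_sdiff, mem_df, hc, not_false_iff, and_true] at h1
    revert h1
    cases x c <;> cases z c <;> cases u c <;> simp

/-- the bits near the vertices of signature `A` -/
def NN (x : V n) (D A : Finset (Fin n)) : Set (Ix n) :=
  {c | (∃ z : V n, c = Sum.inl z ∧ sg x D z = A) ∨
    ∃ (v : V n) (d : Fin n), c = Sum.inr (v, d) ∧ d ∈ D ∧ sg x D v = A}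

theorem NN_disj {x : V n} {D A B : Finset (Fin n)} (h : A ≠ B) :
    Disjoint (NN x D A) (NN x D B) := by
  rw [Set.disjoint_left]
  rintro c (⟨z, rfl, hz⟩ | ⟨v, d, rfl, hd, hv⟩) hc
  · rcases hc with ⟨z', hz', hB⟩ | ⟨v', d', hv', _⟩
    · rw [Sum.inl.injEq] at hz'
      rw [← hz', hz] at hB
      exact h hB
    · exact Sum.inl_ne_inr hv'
  · rcases hc with ⟨z', hz', _⟩ | ⟨v', d', hv', _, hB⟩
    · exact Sum.inr_ne_inl hz'
    · rw [Sum.inr.injEq, Prod.mk.injEq] at hv'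
      rw [← hv'.1, hv] at hB
      exact h hB

theorem bits_sub {x : V n} {D : Finset (Fin n)} {u v : V n} (huv : ∀ c, c ∉ D → v c = u c)
    {c : Ix n} (hc : c ∈ bits u v) :
    c ∈ NN x D (sg x D u) ∧ c ≠ Sum.inl u ∧ c ≠ Sum.inl v := by
  rcases hc with ⟨z, rfl, h1, h2, h3⟩ | ⟨z, i, rfl, h3, h4⟩
  · refine ⟨Or.inl ⟨z, rfl, sg_congr fun c hc => ?_⟩, ?_, ?_⟩
    · rcases h3 c with h | h
      · exact h
      · rw [h, huv c hc]
    · intro h; exact h1 (Sum.inl.inj h)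
    · intro h; exact h2 (Sum.inl.inj h)
  · have hi : i ∈ D := by
      by_contra hi
      exact h4 (huv i hi).symm
    refine ⟨Or.inr ⟨_, i, rfl, hi, sg_congr fun c hc => ?_⟩, Sum.inr_ne_inl, Sum.inr_ne_inl⟩
    have hci : c ≠ i := fun h => hc (h ▸ hi)
    rw [Function.update_of_ne hci]
    rcases h3 c with h | h
    · exact h
    · rw [h, huv c hc]

/-- the bits of the middle part -/
def MM (x : V n) (D : Finset (Fin n)) (u w : V n) (S : Finset (Fin n)) : Set (Ix n) :=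
  {c | (∃ z : V n, c = Sum.inl z ∧ sg x D z ≠ sg x D u ∧ sg x D z ≠ sg x D w ∧
      ∀ d ∈ D, (z d = u d ↔ d ∉ S)) ∨
    ∃ (v : V n) (d : Fin n), c = Sum.inr (v, d) ∧ d ∉ D ∧ ∀ d' ∈ D, (v d' = u d' ↔ d' ∉ S)}

theorem agree {D S : Finset (Fin n)} {u w : V n} (hD : D ⊆ df u w) (_hS : S ⊆ D) {d : Fin n}
    (hd : d ∈ D) : flS u S d = flS w (D \ S) d ∧ (flS u S d = u d ↔ d ∉ S) := by
  have h1 := (mem_df u w d).1 (hD hd)
  by_cases h : d ∈ S
  · simp only [flS_apply, h, hd, Finset.mem_sdiff, not_true, and_false, if_true, if_false]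
    revert h1
    cases u d <;> cases w d <;> simp
  · simp only [flS_apply, h, hd, Finset.mem_sdiff, not_false_iff, and_true, if_true, if_false]
    revert h1
    cases u d <;> cases w d <;> simp

theorem mid_sub {x : V n} {D S : Finset (Fin n)} {u w : V n} (hD : D ⊆ df u w) (hS : S ⊆ D)
    {c : Ix n} (hc : c ∈ bits (flS u S) (flS w (D \ S))) : c ∈ MM x D u w S := by
  have hsu : sg x D (flS u S) = sg x D u := sg_congr fun c hc => by
    rw [flS_apply, if_neg fun h => hc (hS h)]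
  have hsw : sg x D (flS w (D \ S)) = sg x D w := sg_congr fun c hc => by
    rw [flS_apply, if_neg fun h => hc (Finset.mem_sdiff.1 h).1]
  rcases hc with ⟨z, rfl, h1, h2, h3⟩ | ⟨z, i, rfl, h3, h4⟩
  · have hz : ∀ d ∈ D, z d = flS u S d := fun d hd => by
      rcases h3 d with h | h
      · exact h
      · rw [h, (agree hD hS hd).1]
    refine Or.inl ⟨z, rfl, fun h => h1 ?_, fun h => h2 ?_, fun d hd => ?_⟩
    · exact eq_of_sg (h.trans hsu.symm) hz
    · exact eq_of_sg (h.trans hsw.symm) fun d hd => by rw [hz d hd, (agree hD hS hd).1]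
    · rw [hz d hd]; exact (agree hD hS hd).2
  · have hi : i ∉ D := fun hi => h4 (agree hD hS hi).1
    refine Or.inr ⟨_, i, rfl, hi, fun d hd => ?_⟩
    have hdi : d ≠ i := fun h => hi (h ▸ hd)
    rw [Function.update_of_ne hdi]
    have hz : z d = flS u S d := by
      rcases h3 d with h | h
      · exact h
      · rw [h, (agree hD hS hd).1]
    rw [hz]; exact (agree hD hS hd).2

theorem MM_disj {x : V n} {D S S' : Finset (Fin n)} {u w : V n} (hS : S ⊆ D) (hS' : S' ⊆ D)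
    (h : S ≠ S') : Disjoint (MM x D u w S) (MM x D u w S') := by
  have key : ∀ z : V n, (∀ d ∈ D, (z d = u d ↔ d ∉ S)) → (∀ d ∈ D, (z d = u d ↔ d ∉ S')) →
      False := by
    intro z h1 h2
    apply h
    ext d
    by_cases hd : d ∈ D
    · have := (h1 d hd).symm.trans (h2 d hd)
      exact not_iff_not.1 this
    · exact ⟨fun h => absurd (hS h) hd, fun h => absurd (hS' h) hd⟩
  rw [Set.disjoint_left]
  rintro c (⟨z, rfl, _, _, hz⟩ | ⟨v, d, rfl, hd, hv⟩) hc
  · rcases hc with ⟨z', hz', _, _, hB⟩ | ⟨v', d', hv', _⟩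
    · rw [Sum.inl.injEq] at hz'
      rw [← hz'] at hB
      exact key z hz hB
    · exact Sum.inl_ne_inr hv'
  · rcases hc with ⟨z', hz', _⟩ | ⟨v', d', hv', _, hB⟩
    · exact Sum.inr_ne_inl hz'
    · rw [Sum.inr.injEq, Prod.mk.injEq] at hv'
      rw [← hv'.1] at hB
      exact key v hv hB

theorem MM_NN {x : V n} {D S : Finset (Fin n)} {u w : V n} :
    Disjoint (NN x D (sg x D u) ∪ NN x D (sg x D w)) (MM x D u w S) := by
  rw [Set.disjoint_left]
  rintro c hc (⟨z, rfl, h1, h2, _⟩ | ⟨v, d, rfl, hd, _⟩)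
  · rcases hc with (⟨z', hz', hA⟩ | ⟨v', d', hv', _⟩) | (⟨z', hz', hA⟩ | ⟨v', d', hv', _⟩)
    · rw [Sum.inl.injEq] at hz'; rw [← hz'] at hA; exact h1 hA
    · exact Sum.inl_ne_inr hv'
    · rw [Sum.inl.injEq] at hz'; rw [← hz'] at hA; exact h2 hA
    · exact Sum.inl_ne_inr hv'
  · rcases hc with (⟨z', hz', _⟩ | ⟨v', d', hv', hd', _⟩) | (⟨z', hz', _⟩ | ⟨v', d', hv', hd', _⟩)
    · exact Sum.inr_ne_inl hz'
    · rw [Sum.inr.injEq, Prod.mk.injEq] at hv'; exact hd (hv'.2 ▸ hd')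
    · exact Sum.inr_ne_inl hz'
    · rw [Sum.inr.injEq, Prod.mk.injEq] at hv'; exact hd (hv'.2 ▸ hd')

theorem dep_good_aux (hB1 : ∀ u w : V n, DependsOn (fun ω : Cfg n => Geo ω u w) (bits u w))
    {x : V n} {D : Finset (Fin n)} {u w : V n} {k : ℕ} (hk : 1 ≤ k) (hD : D.card = 2 * k)
    (hne : sg x D u ≠ sg x D w) {ω ω' : Cfg n}
    (h : ∀ i ∈ (NN x D (sg x D u) ∪ NN x D (sg x D w)) \ {Sum.inl u, Sum.inl w}, ω i = ω' i)
    {S : Finset (Fin n)} (hS : S ∈ powersetCard k D) :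
    Good ω u w D S = Good ω' u w D S := by
  rw [mem_powersetCard] at hS
  have hSne : S.Nonempty := by rw [← card_pos]; omega
  have hTc : (D \ S).card = k := by rw [card_sdiff_of_subset hS.1]; omega
  have hTne : (D \ S).Nonempty := by rw [← card_pos]; omega
  have offu : ∀ c, c ∉ D → flS u S c = u c := fun c hc => by
    rw [flS_apply, if_neg fun h => hc (hS.1 h)]
  have offw : ∀ c, c ∉ D → flS w (D \ S) c = w c := fun c hc => by
    rw [flS_apply, if_neg fun h => hc (Finset.mem_sdiff.1 h).1]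
  have hsu : sg x D (flS u S) = sg x D u := sg_congr offu
  have hsw : sg x D (flS w (D \ S)) = sg x D w := sg_congr offw
  have notw : ∀ c : Ix n, c ∈ NN x D (sg x D u) → c ≠ Sum.inl w := by
    rintro c (⟨z, rfl, hz⟩ | ⟨v, d, rfl, _⟩) hc
    · rw [Sum.inl.inj hc] at hz; exact hne hz.symm
    · exact Sum.inr_ne_inl hc
  have notu : ∀ c : Ix n, c ∈ NN x D (sg x D w) → c ≠ Sum.inl u := by
    rintro c (⟨z, rfl, hz⟩ | ⟨v, d, rfl, _⟩) hc
    · rw [Sum.inl.inj hc] at hz; exact hne hz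
    · exact Sum.inr_ne_inl hc
  have e1 : ω (Sum.inl (flS u S)) = ω' (Sum.inl (flS u S)) := by
    apply h
    have hm : (Sum.inl (flS u S) : Ix n) ∈ NN x D (sg x D u) := Or.inl ⟨_, rfl, hsu⟩
    refine ⟨Or.inl hm, ?_⟩
    rintro (hc | hc)
    · obtain ⟨s, hs⟩ := hSne
      have := congrFun (Sum.inl.inj hc) s
      rw [flS_apply, if_pos hs] at this
      revert this; cases u s <;> simp
    · exact notw _ hm hc
  have e3 : ω (Sum.inl (flS w (D \ S))) = ω' (Sum.inl (flS w (D \ S))) := by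
    apply h
    have hm : (Sum.inl (flS w (D \ S)) : Ix n) ∈ NN x D (sg x D w) := Or.inl ⟨_, rfl, hsw⟩
    refine ⟨Or.inr hm, ?_⟩
    rintro (hc | hc)
    · exact notu _ hm hc
    · obtain ⟨s, hs⟩ := hTne
      have := congrFun (Sum.inl.inj hc) s
      rw [flS_apply, if_pos hs] at this
      revert this; cases w s <;> simp
  have e2 : Geo ω u (flS u S) = Geo ω' u (flS u S) := by
    refine hB1 u (flS u S) fun c hc => h c ?_
    obtain ⟨h1, h2, h3⟩ := bits_sub (x := x) offu hc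
    refine ⟨Or.inl h1, ?_⟩
    rintro (hc' | hc')
    · exact h2 hc'
    · exact notw _ h1 hc'
  have e4 : Geo ω (flS w (D \ S)) w = Geo ω' (flS w (D \ S)) w := by
    refine hB1 (flS w (D \ S)) w fun c hc => h c ?_
    obtain ⟨h1, h2, h3⟩ := bits_sub (x := x) (fun c hc => (offw c hc).symm) hc
    rw [hsw] at h1
    refine ⟨Or.inr h1, ?_⟩
    rintro (hc' | hc')
    · exact notu _ h1 hc'
    · exact h3 hc'
  unfold Good
  rw [e1, e2, e3, e4]

/-- the good sets depend on the bits near the two vertices -/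
theorem dep_good (hB1 : ∀ u w : V n, DependsOn (fun ω : Cfg n => Geo ω u w) (bits u w))
    {x : V n} {D : Finset (Fin n)} {u w : V n} {k : ℕ} (hk : 1 ≤ k) (hD : D.card = 2 * k)
    (hne : sg x D u ≠ sg x D w) :
    DependsOn (fun ω : Cfg n => GoodSet ω u w D k)
      ((NN x D (sg x D u) ∪ NN x D (sg x D w)) \ {Sum.inl u, Sum.inl w}) := by
  intro ω ω' h
  have key : ∀ S ∈ powersetCard k D, (Good ω u w D S ↔ Good ω' u w D S) := by
    intro S hS
    exact iff_of_eq (dep_good_aux hB1 hk hD hne h hS)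
  show GoodSet ω u w D k = GoodSet ω' u w D k
  ext S
  have e1 : S ∈ GoodSet ω u w D k ↔ S ∈ powersetCard k D ∧ Good ω u w D S := by
    simp only [GoodSet, Finset.mem_filter]
  have e2 : S ∈ GoodSet ω' u w D k ↔ S ∈ powersetCard k D ∧ Good ω' u w D S := by
    simp only [GoodSet, Finset.mem_filter]
  rw [e1, e2]
  exact and_congr_right fun hS => key S hS

theorem mem_good {ω : Cfg n} {u w : V n} {D : Finset (Fin n)} {k : ℕ} {S : Finset (Fin n)} :
    S ∈ GoodSet ω u w D k ↔ (S ⊆ D ∧ S.card = k) ∧ Good ω u w D S := by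
  simp only [GoodSet, Finset.mem_filter, mem_powersetCard]

/-! ### concatenation -/

theorem concat {ω : Cfg n}
    (hB2 : ∀ (u v w : V n), Geo ω u v → ω (Sum.inl v) = true → Geo ω v w →
      (∀ i, v i = u i ∨ v i = w i) → Geo ω u w)
    (hB3 : ∀ (u : V n) (i : Fin n), ω (ed u i) = true → Geo ω u (fl u i) ∧ Geo ω (fl u i) u)
    {x y : V n} {i j i' j' : Fin n} {D S : Finset (Fin n)}
    (hi : i ∈ df x y) (hj : j ∈ df x y) (hi' : i' ∈ df x y) (hj' : j' ∈ df x y)
    (hD : D ⊆ df x y) (hiD : i ∉ D) (hjD : j ∉ D) (hiD' : i' ∉ D) (hjD' : j' ∉ D)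
    (h1 : i ≠ j) (h2 : i' ≠ j') (h3 : i ≠ i') (h4 : i ≠ j') (h5 : j ≠ i') (h6 : j ≠ j')
    (hS : S ⊆ D)
    (e1 : ω (ed (fl x i) j) = true) (e2 : ω (Sum.inl (fl (fl x i) j)) = true)
    (e3 : ω (ed (fl y i') j') = true) (e4 : ω (Sum.inl (fl (fl y i') j')) = true)
    (hg : Good ω (fl (fl x i) j) (fl (fl y i') j') D S)
    (hm : Geo ω (flS (fl (fl x i) j) S) (flS (fl (fl y i') j') (D \ S))) :
    Geo ω (fl x i) (fl y i') := by
  obtain ⟨g1, g2, g3, g4⟩ := hg
  have hxy : ∀ c ∈ df x y, y c = !(x c) := fun c hc => by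
    have := (mem_df x y c).1 hc
    revert this
    cases x c <;> cases y c <;> simp
  have key : ∀ c, (fl (fl x i) j c = fl x i c ∨ fl (fl x i) j c = flS (fl (fl x i) j) S c) ∧
      (flS (fl (fl x i) j) S c = fl x i c ∨
        flS (fl (fl x i) j) S c = flS (fl (fl y i') j') (D \ S) c) ∧
      (flS (fl (fl y i') j') (D \ S) c = fl x i c ∨
        flS (fl (fl y i') j') (D \ S) c = fl (fl y i') j' c) ∧
      (fl (fl y i') j' c = fl x i c ∨ fl (fl y i') j' c = fl y i' c) := by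
    intro c
    by_cases c1 : c = i
    · subst c1
      have hS1 : c ∉ S := fun h => hiD (hS h)
      have := hxy c hi
      simp [fl_apply, flS_apply, h1, h3, h4, hS1, hiD, this]
    by_cases c2 : c = j
    · subst c2
      have hS1 : c ∉ S := fun h => hjD (hS h)
      have := hxy c hj
      simp [fl_apply, flS_apply, h5, h6, hS1, hjD, this, c1]
    by_cases c3 : c = i'
    · subst c3
      have hS1 : c ∉ S := fun h => hiD' (hS h)
      have := hxy c hi'
      simp [fl_apply, flS_apply, h2, hS1, hiD', this, c1, c2]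
    by_cases c4 : c = j'
    · subst c4
      have hS1 : c ∉ S := fun h => hjD' (hS h)
      have := hxy c hj'
      simp [fl_apply, flS_apply, hS1, hjD', this, c1, c2, c3]
    by_cases c5 : c ∈ D
    · have := hxy c (hD c5)
      by_cases c6 : c ∈ S
      · simp [fl_apply, flS_apply, this, c1, c2, c3, c4, c5, c6]
      · simp [fl_apply, flS_apply, this, c1, c2, c3, c4, c5, c6]
    · have c6 : c ∉ S := fun h => c5 (hS h)
      by_cases c7 : x c = y c
      · simp [fl_apply, flS_apply, c1, c2, c3, c4, c5, c6, c7]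
      · have := hxy c ((mem_df x y c).2 c7)
        simp [fl_apply, flS_apply, c1, c2, c3, c4, c5, c6, this]
  have a1 := hB2 _ _ _ (hB3 (fl x i) j e1).1 e2 g2 fun c => (key c).1
  have a2 := hB2 _ _ _ a1 g1 hm fun c => (key c).2.1
  have a3 := hB2 _ _ _ a2 g3 g4 fun c => (key c).2.2.1
  exact hB2 _ _ _ a3 e4 (hB3 (fl y i') j' e3).2 fun c => (key c).2.2.2

/-! ### signatures of the base vertices -/

theorem sg_u {x : V n} {D : Finset (Fin n)} {i j : Fin n} (hij : i ≠ j) (hi : i ∉ D)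
    (hj : j ∉ D) : sg x D (fl (fl x i) j) = {i, j} := by
  ext c
  simp only [sg, Finset.mem_sdiff, mem_df, fl_apply, mem_insert, mem_singleton]
  by_cases c1 : c = i
  · subst c1; simp [hij, hi]
  · by_cases c2 : c = j
    · subst c2; simp [c1, hj]
    · simp [c1, c2]

theorem sg_w {x y : V n} {D : Finset (Fin n)} {i j : Fin n} (hij : i ≠ j) (hi : i ∈ df x y)
    (hj : j ∈ df x y) : sg x D (fl (fl y i) j) = (df x y \ D) \ {i, j} := by
  ext c
  simp only [sg, Finset.mem_sdiff, mem_df, fl_apply, mem_insert, mem_singleton]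
  rw [mem_df] at hi hj
  by_cases c1 : c = i
  · subst c1
    have : ¬ (x c ≠ !(y c)) := by
      revert hi; cases x c <;> cases y c <;> simp
    simp [hij, this]
  · by_cases c2 : c = j
    · subst c2
      simp [c1]
      intro h; exact absurd h (by revert hj; cases x c <;> cases y c <;> simp)
    · simp [c1, c2]

end comb

/-! ### probabilities -/

section prob

theorem sum_Pr_le {I T : Type} [Fintype I] [DecidableEq I] [DecidableEq T] {p : I → ℝ}
    (hp : ∀ i, 0 ≤ p i ∧ p i ≤ 1) (f : (I → Bool) → T) (s : Finset T) :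
    ∑ t ∈ s, Pr p {ω | f ω = t} ≤ 1 := by
  classical
  have e : ∑ t ∈ s, Pr p {ω | f ω = t} =
      Ex p (fun ω => ∑ t ∈ s, if ω ∈ {ω | f ω = t} then (1 : ℝ) else 0) := by
    rw [Ex_sum]
    refine Finset.sum_congr rfl fun t _ => ?_
    unfold Pr
    congr 1
    funext ω
    by_cases h : f ω = t
    · have h' : ω ∈ {ω | f ω = t} := h
      rw [if_pos h', if_pos h']
    · have h' : ω ∉ {ω | f ω = t} := h
      rw [if_neg h', if_neg h']
  rw [e]
  calc Ex p (fun ω => ∑ t ∈ s, if ω ∈ {ω | f ω = t} then (1 : ℝ) else 0)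
      ≤ Ex p (fun _ => (1 : ℝ)) := by
        refine Ex_mono hp fun ω => ?_
        have : ∑ t ∈ s, (if ω ∈ {ω | f ω = t} then (1 : ℝ) else 0) =
            if f ω ∈ s then 1 else 0 := by
          rw [← Finset.sum_ite_eq s (f ω) (fun _ => (1 : ℝ))]
          refine Finset.sum_congr rfl fun t _ => ?_
          congr 1
        rw [this]
        split_ifs <;> norm_num
    _ = 1 := Ex_const p 1

variable {n : ℕ} {pv pe : ℝ}

theorem dep_forall {I T : Type} {A : T → (I → Bool) → Prop} {J : T → Set I} (s : Finset T)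
    (h : ∀ t ∈ s, DependsOn (A t) (J t)) :
    DependsOn (fun ω => ∀ t ∈ s, A t ω) {c | ∃ t ∈ s, c ∈ J t} := by
  intro ω ω' hω
  apply propext
  refine forall_congr' fun t => forall_congr' fun ht => ?_
  exact iff_of_eq (h t ht fun c hc => hω c ⟨t, ht, hc⟩)

theorem dep_not {I : Type} {A : (I → Bool) → Prop} {J : Set I} (h : DependsOn A J) :
    DependsOn (fun ω => ¬ A ω) J := by
  intro ω ω' hω
  show (¬ A ω) = (¬ A ω')
  rw [h hω]

/-- the middle parts all fail only with small probability -/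
theorem mid_bound (hp : ∀ i, 0 ≤ bp pv pe n i ∧ bp pv pe n i ≤ 1)
    (hB1 : ∀ u w : V n, DependsOn (fun ω : Cfg n => Geo ω u w) (bits u w))
    {x : V n} {D : Finset (Fin n)} {u w : V n} {k : ℕ} (hk : 1 ≤ k) (hD : D.card = 2 * k)
    (hne : sg x D u ≠ sg x D w) (hDd : D ⊆ df u w)
    (hmid : ∀ S ⊆ D, 1 / 2 ≤ Pr (bp pv pe n) {ω | Geo ω (flS u S) (flS w (D \ S))})
    {L : ℝ} {m : ℕ} (hm : (m : ℝ) ≤ L) :
    Pr (bp pv pe n) {ω | L ≤ ((GoodSet ω u w D k).card : ℝ) ∧
      ∀ S ∈ GoodSet ω u w D k, ¬ Geo ω (flS u S) (flS w (D \ S))} ≤ (1 / 2) ^ m := by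
  classical
  set p := bp pv pe n with hpdef
  set 𝓕 : Finset (Finset (Finset (Fin n))) :=
    (powersetCard k D).powerset.filter (fun F => m ≤ F.card) with h𝓕
  have hsub : {ω : Cfg n | L ≤ ((GoodSet ω u w D k).card : ℝ) ∧
      ∀ S ∈ GoodSet ω u w D k, ¬ Geo ω (flS u S) (flS w (D \ S))} ⊆
      {ω | ∃ F ∈ 𝓕, ω ∈ {ω : Cfg n | GoodSet ω u w D k = F ∧
        ∀ S ∈ F, ¬ Geo ω (flS u S) (flS w (D \ S))}} := by
    rintro ω ⟨h1, h2⟩
    refine ⟨GoodSet ω u w D k, ?_, rfl, h2⟩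
    rw [h𝓕, Finset.mem_filter, mem_powerset]
    refine ⟨fun S hS => ?_, ?_⟩
    · rw [mem_powersetCard]; exact (mem_good.1 hS).1
    · exact_mod_cast hm.trans h1
  refine (Pr_mono hp hsub).trans ((Pr_exists_le hp 𝓕 _).trans ?_)
  have hterm : ∀ F ∈ 𝓕, Pr p {ω : Cfg n | GoodSet ω u w D k = F ∧
        ∀ S ∈ F, ¬ Geo ω (flS u S) (flS w (D \ S))} ≤
      (1 / 2) ^ m * Pr p {ω : Cfg n | GoodSet ω u w D k = F} := by
    intro F hF
    rw [h𝓕, Finset.mem_filter, mem_powerset] at hF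
    have hFD : ∀ S ∈ F, S ⊆ D := fun S hS => (mem_powersetCard.1 (hF.1 hS)).1
    have hdG := dep_good (x := x) hB1 hk hD hne
    have hdA : DependsOn (fun ω : Cfg n => GoodSet ω u w D k = F)
        ((NN x D (sg x D u) ∪ NN x D (sg x D w)) \ {Sum.inl u, Sum.inl w}) := by
      intro ω ω' h
      have := hdG h
      simp only at this
      show (GoodSet ω u w D k = F) = (GoodSet ω' u w D k = F)
      rw [this]
    have hdM : ∀ S ∈ F, DependsOn (fun ω : Cfg n => ¬ Geo ω (flS u S) (flS w (D \ S)))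
        (MM x D u w S) := by
      intro S hS
      refine dep_not ?_
      intro ω ω' h
      exact hB1 _ _ fun c hc => h c (mid_sub hDd (hFD S hS) hc)
    rw [Pr_ind2 p _ {c | ∃ S ∈ F, c ∈ MM x D u w S}
      (fun ω : Cfg n => GoodSet ω u w D k = F)
      (fun ω : Cfg n => ∀ S ∈ F, ¬ Geo ω (flS u S) (flS w (D \ S))) hdA (dep_forall F hdM) ?_,
      mul_comm]
    · refine mul_le_mul_of_nonneg_right ?_ (Pr_nonneg hp _)
      rw [Pr_ind p F (fun S => MM x D u w S)
        (fun S (ω : Cfg n) => ¬ Geo ω (flS u S) (flS w (D \ S))) hdM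
        (fun a ha b hb hab => MM_disj (hFD a ha) (hFD b hb) hab)]
      have h1 : ∀ S ∈ F, Pr p {ω : Cfg n | ¬ Geo ω (flS u S) (flS w (D \ S))} ≤ 1 / 2 := by
        intro S hS
        have h2 := Pr_compl p {ω : Cfg n | Geo ω (flS u S) (flS w (D \ S))}
        have h3 : {ω : Cfg n | ¬ Geo ω (flS u S) (flS w (D \ S))} =
          {ω : Cfg n | Geo ω (flS u S) (flS w (D \ S))}ᶜ := rfl
        have h4 := hmid S (hFD S hS)
        rw [h3, h2]
        linarith
      calc ∏ S ∈ F, Pr p {ω : Cfg n | ¬ Geo ω (flS u S) (flS w (D \ S))}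
          ≤ ∏ S ∈ F, (1 / 2 : ℝ) := prod_le_prod (fun S _ => Pr_nonneg hp _) h1
        _ = (1 / 2 : ℝ) ^ F.card := by rw [prod_const]
        _ ≤ (1 / 2) ^ m := pow_le_pow_of_le_one (by norm_num) (by norm_num) hF.2
    · rw [Set.disjoint_left]
      rintro c hc ⟨S, hS, hcS⟩
      exact Set.disjoint_left.1 MM_NN hc.1 hcS
  calc ∑ F ∈ 𝓕, Pr p {ω : Cfg n | GoodSet ω u w D k = F ∧
        ∀ S ∈ F, ¬ Geo ω (flS u S) (flS w (D \ S))}
      ≤ ∑ F ∈ 𝓕, (1 / 2) ^ m * Pr p {ω : Cfg n | GoodSet ω u w D k = F} := sum_le_sum hterm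
    _ = (1 / 2) ^ m * ∑ F ∈ 𝓕, Pr p {ω : Cfg n | GoodSet ω u w D k = F} := by rw [mul_sum]
    _ ≤ (1 / 2) ^ m * 1 := mul_le_mul_of_nonneg_left
        (sum_Pr_le hp (fun ω : Cfg n => GoodSet ω u w D k) 𝓕) (by positivity)
    _ = (1 / 2) ^ m := mul_one _

/-- lower bound of the probability of the local event -/
theorem loc_bound (h1 : 0 < pv) (h2 : pv ≤ 1) (h3 : 0 < pe) (h4 : pe ≤ 1)
    (hB1 : ∀ u w : V n, DependsOn (fun ω : Cfg n => Geo ω u w) (bits u w))
    {x : V n} {D : Finset (Fin n)} {u w : V n} {k : ℕ} (hk : 1 ≤ k) (hD : D.card = 2 * k)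
    (hne : sg x D u ≠ sg x D w) {L g : ℝ} (hg0 : 0 ≤ g)
    (hg : g ≤ Pr (bp pv pe n) {ω | L ≤ ((GoodSet ω u w D k).card : ℝ)})
    (a b : V n) {j j' : Fin n} (hj : j ∉ D) (hj' : j' ∉ D) :
    (pv * pe) ^ 4 * g ≤ Pr (bp pv pe n) {ω |
      (∀ c ∈ ({ed a j, Sum.inl u, ed b j', Sum.inl w} : Finset (Ix n)), ω c = true) ∧
      L ≤ ((GoodSet ω u w D k).card : ℝ)} := by
  classical
  set p := bp pv pe n with hpdef
  set C : Finset (Ix n) := {ed a j, Sum.inl u, ed b j', Sum.inl w} with hC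
  have hdA : DependsOn (fun ω : Cfg n => ∀ c ∈ C, ω c = true) (↑C : Set (Ix n)) := by
    intro ω ω' h
    apply propext
    refine forall_congr' fun c => forall_congr' fun hc => ?_
    rw [h c (mem_coe.2 hc)]
  have hdG := dep_good (x := x) hB1 hk hD hne
  have hdB : DependsOn (fun ω : Cfg n => L ≤ ((GoodSet ω u w D k).card : ℝ))
      ((NN x D (sg x D u) ∪ NN x D (sg x D w)) \ {Sum.inl u, Sum.inl w}) := by
    intro ω ω' h
    have := hdG h
    simp only at this
    show (L ≤ ((GoodSet ω u w D k).card : ℝ)) = (L ≤ ((GoodSet ω' u w D k).card : ℝ))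
    rw [this]
  have hedNN : ∀ (v : V n) (d : Fin n), d ∉ D → ∀ A, ed v d ∉ NN x D A := by
    rintro v d hd A (⟨z, hz, _⟩ | ⟨v', d', hv', hd', _⟩)
    · exact Sum.inr_ne_inl hz
    · rw [ed, Sum.inr.injEq, Prod.mk.injEq] at hv'
      exact hd (hv'.2 ▸ hd')
  rw [Pr_ind2 p _ _ (fun ω : Cfg n => ∀ c ∈ C, ω c = true)
    (fun ω : Cfg n => L ≤ ((GoodSet ω u w D k).card : ℝ)) hdA hdB ?_]
  · refine mul_le_mul ?_ hg hg0 (Pr_nonneg (bp_unit h1.le h2 h3.le h4 n) _)
    rw [Pr_forall_true]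
    have hpp : pv * pe ≤ 1 := mul_le_one₀ h2 h3.le h4
    have hc : ∀ c ∈ C, pv * pe ≤ p c := by
      intro c _
      rcases c with c | c
      · show pv * pe ≤ pv
        exact mul_le_of_le_one_right h1.le h4
      · show pv * pe ≤ pe
        exact mul_le_of_le_one_left h3.le h2
    have hcard : C.card ≤ 4 := card_le_four
    calc (pv * pe) ^ 4 ≤ (pv * pe) ^ C.card :=
          pow_le_pow_of_le_one (mul_pos h1 h3).le hpp hcard
      _ = ∏ c ∈ C, (pv * pe) := by rw [prod_const]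
      _ ≤ ∏ c ∈ C, p c := prod_le_prod (fun _ _ => (mul_pos h1 h3).le) hc
  · rw [Set.disjoint_left]
    intro c hc hc'
    have hc2 := hc'.2
    rw [mem_coe, hC, mem_insert, mem_insert, mem_insert, mem_singleton] at hc
    rcases hc with rfl | rfl | rfl | rfl
    · rcases hc'.1 with h | h
      · exact hedNN _ _ hj _ h
      · exact hedNN _ _ hj _ h
    · exact hc2 (Or.inl rfl)
    · rcases hc'.1 with h | h
      · exact hedNN _ _ hj' _ h
      · exact hedNN _ _ hj' _ h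
    · exact hc2 (Or.inr rfl)

end prob

/-! ### assembly -/

theorem enum {n : ℕ} (U : Finset (Fin n)) (m : ℕ) (hm : m ≤ U.card) (h0 : 0 < m) :
    ∃ e : ℕ → Fin n, (∀ s < m, e s ∈ U) ∧ ∀ s < m, ∀ s' < m, e s = e s' → s = s' := by
  classical
  have hne : U.Nonempty := by rw [← card_pos]; omega
  let f : Fin U.card ≃ U := U.equivFin.symm
  refine ⟨fun s => if h : s < U.card then (f ⟨s, h⟩).1 else hne.choose, fun s hs => ?_,
    fun s hs s' hs' h => ?_⟩
  · have h : s < U.card := by omega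
    simp only [dif_pos h]
    exact (f ⟨s, h⟩).2
  · have h1 : s < U.card := by omega
    have h2 : s' < U.card := by omega
    simp only [dif_pos h1, dif_pos h2] at h
    have := f.injective (Subtype.ext h)
    simpa using this

theorem ed_inj {n : ℕ} {x : V n} {i j i2 j2 : Fin n} (h1 : i ≠ j)
    (h : ed (fl x i) j = ed (fl x i2) j2) : i = i2 ∧ j = j2 := by
  rw [ed, ed, Sum.inr.injEq, Prod.mk.injEq] at h
  obtain ⟨ha, hb⟩ := h
  refine ⟨?_, hb⟩
  subst hb
  have := congrFun ha i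
  rw [Function.update_of_ne h1, Function.update_of_ne h1, fl_apply, fl_apply, if_pos rfl] at this
  by_contra hc
  rw [if_neg hc] at this
  revert this; cases x i <;> simp

theorem main_bound {pv pe : ℝ} (h1 : 0 < pv) (h2 : pv ≤ 1) (h3 : 0 < pe) (h4 : pe ≤ 1)
    (hB : StmtGeoB) {d0 : ℕ}
    (hG : ∀ (n : ℕ) (u w : V n), d0 ≤ hd u w → 1 / 2 ≤ Pr (bp pv pe n) {ω | Geo ω u w})
    {k0 : ℕ} {θ g : ℝ} (hg : 0 < g)
    (hL : ∀ (n k : ℕ) (u w : V n) (D : Finset (Fin n)), k0 ≤ k → D.card = 2 * k → D ⊆ df u w →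
      2 * k + 1 ≤ hd u w →
      g ≤ Pr (bp pv pe n) {ω | θ * ((2 * k).choose k : ℝ) ≤ ((GoodSet ω u w D k).card : ℝ)})
    {n r : ℕ} (hr2 : 2 ≤ r) (hrd : d0 + 2 ≤ r) (hrk : k0 ≤ r)
    (hθn : ((10 * n : ℕ) : ℝ) ≤ θ * ((2 * r).choose r : ℝ))
    (x y : V n) (U U' : Finset (Fin n)) (hU : U ⊆ df x y) (hU' : U' ⊆ df x y)
    (hUU : Disjoint U U') (hUc : 4 * r ≤ U.card) (hUc' : 2 * r ≤ U'.card) :
    Pr (bp pv pe n) {ω | ∀ i ∈ U, ∀ i' ∈ U', ¬ Geo ω (fl x i) (fl y i')} ≤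
      (1 - (pv * pe) ^ 4 * g) ^ (r * r) + (r * r : ℕ) * (1 / 2) ^ (10 * n) := by
  classical
  have hp := bp_unit h1.le h2 h3.le h4 n
  set p := bp pv pe n with hpdef
  obtain ⟨hB1, hB2, hB3, -, -⟩ := hB n
  obtain ⟨e, he, hinj⟩ := enum U (4 * r) hUc (by omega)
  obtain ⟨e', he', hinj'⟩ := enum U' (2 * r) hUc' (by omega)
  set D : Finset (Fin n) := (range (2 * r)).image fun s => e (2 * r + s) with hDdef
  have hDc : D.card = 2 * r := by
    rw [hDdef, card_image_of_injOn, card_range]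
    intro a ha b hb hab
    have ha' := mem_range.1 (mem_coe.1 ha)
    have hb' := mem_range.1 (mem_coe.1 hb)
    have := hinj _ (by omega) _ (by omega) hab
    omega
  have hDU : D ⊆ U := by
    intro c hc
    rw [hDdef, Finset.mem_image] at hc
    obtain ⟨s, hs, rfl⟩ := hc
    rw [mem_range] at hs
    exact he _ (by omega)
  have hDd : D ⊆ df x y := hDU.trans hU
  have heD : ∀ s < 2 * r, e s ∉ D := by
    intro s hs hc
    rw [hDdef, Finset.mem_image] at hc
    obtain ⟨s', hs', h⟩ := hc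
    rw [mem_range] at hs'
    have := hinj _ (by omega) _ (by omega) h
    omega
  have hU'D : ∀ c ∈ U', c ∉ D := fun c hc hcD => (Finset.disjoint_left.1 hUU) (hDU hcD) hc
  have hUne : ∀ c ∈ U, ∀ c' ∈ U', c ≠ c' := fun c hc c' hc' h =>
    (Finset.disjoint_left.1 hUU) hc (h ▸ hc')
  -- the index set
  set T : Finset (ℕ × ℕ) := range r ×ˢ range r with hT
  have hTm : ∀ t ∈ T, t.1 < r ∧ t.2 < r := fun t ht => by
    rw [hT, mem_product, mem_range, mem_range] at ht; exact ht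
  let I : ℕ × ℕ → Fin n := fun t => e t.1
  let Jf : ℕ × ℕ → Fin n := fun t => e (r + t.2)
  let I' : ℕ × ℕ → Fin n := fun t => e' t.1
  let Jf' : ℕ × ℕ → Fin n := fun t => e' (r + t.2)
  let u : ℕ × ℕ → V n := fun t => fl (fl x (I t)) (Jf t)
  let w : ℕ × ℕ → V n := fun t => fl (fl y (I' t)) (Jf' t)
  have hIU : ∀ t ∈ T, I t ∈ U := fun t ht => he _ (by have := hTm t ht; omega)
  have hJU : ∀ t ∈ T, Jf t ∈ U := fun t ht => he _ (by have := hTm t ht; omega)
  have hIU' : ∀ t ∈ T, I' t ∈ U' := fun t ht => he' _ (by have := hTm t ht; omega)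
  have hJU' : ∀ t ∈ T, Jf' t ∈ U' := fun t ht => he' _ (by have := hTm t ht; omega)
  have hID : ∀ t ∈ T, I t ∉ D := fun t ht => heD _ (by have := hTm t ht; omega)
  have hJD : ∀ t ∈ T, Jf t ∉ D := fun t ht => heD _ (by have := hTm t ht; omega)
  have hID' : ∀ t ∈ T, I' t ∉ D := fun t ht => hU'D _ (hIU' t ht)
  have hJD' : ∀ t ∈ T, Jf' t ∉ D := fun t ht => hU'D _ (hJU' t ht)
  have hIJ : ∀ a ∈ T, ∀ b ∈ T, I a ≠ Jf b := fun a ha b hb h => by
    have h5 := hTm a ha; have h6 := hTm b hb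
    have := hinj _ (by omega) _ (by omega) h
    omega
  have hIJ' : ∀ a ∈ T, ∀ b ∈ T, I' a ≠ Jf' b := fun a ha b hb h => by
    have h5 := hTm a ha; have h6 := hTm b hb
    have := hinj' _ (by omega) _ (by omega) h
    omega
  have hII : ∀ a ∈ T, ∀ b ∈ T, I a = I b → a.1 = b.1 := fun a ha b hb h => by
    have h5 := hTm a ha; have h6 := hTm b hb
    exact hinj _ (by omega) _ (by omega) h
  have hJJ : ∀ a ∈ T, ∀ b ∈ T, Jf a = Jf b → a.2 = b.2 := fun a ha b hb h => by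
    have h5 := hTm a ha; have h6 := hTm b hb
    have := hinj _ (by omega) _ (by omega) h
    omega
  have hII' : ∀ a ∈ T, ∀ b ∈ T, I' a = I' b → a.1 = b.1 := fun a ha b hb h => by
    have h5 := hTm a ha; have h6 := hTm b hb
    exact hinj' _ (by omega) _ (by omega) h
  have hJJ' : ∀ a ∈ T, ∀ b ∈ T, Jf' a = Jf' b → a.2 = b.2 := fun a ha b hb h => by
    have h5 := hTm a ha; have h6 := hTm b hb
    have := hinj' _ (by omega) _ (by omega) h
    omega
  have hsu : ∀ t ∈ T, sg x D (u t) = {I t, Jf t} := fun t ht =>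
    sg_u (hIJ t ht t ht) (hID t ht) (hJD t ht)
  have hsw : ∀ t ∈ T, sg x D (w t) = (df x y \ D) \ {I' t, Jf' t} := fun t ht =>
    sg_w (hIJ' t ht t ht) (hU' (hIU' t ht)) (hU' (hJU' t ht))
  set R2 : Finset (Fin n) := (range (2 * r)).image e with hR2
  have hR2c : R2.card = 2 * r := by
    rw [hR2, card_image_of_injOn, card_range]
    intro a ha b hb hab
    have ha' := mem_range.1 (mem_coe.1 ha)
    have hb' := mem_range.1 (mem_coe.1 hb)
    exact hinj _ (by omega) _ (by omega) hab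
  have hR2m : ∀ c ∈ R2, c ∈ U ∧ c ∉ D := by
    intro c hc
    rw [hR2, Finset.mem_image] at hc
    obtain ⟨s, hs, rfl⟩ := hc
    rw [mem_range] at hs
    exact ⟨he _ (by omega), heD _ hs⟩
  have hne : ∀ a ∈ T, ∀ b ∈ T, sg x D (u a) ≠ sg x D (w b) := by
    intro a ha b hb h
    rw [hsu a ha, hsw b hb] at h
    have hsub : R2 ⊆ (df x y \ D) \ {I' b, Jf' b} := by
      intro c hc
      obtain ⟨h5, h6⟩ := hR2m c hc
      rw [Finset.mem_sdiff, Finset.mem_sdiff, mem_insert, mem_singleton]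
      refine ⟨⟨hU h5, h6⟩, ?_⟩
      rintro (h7 | h7)
      · exact hUne c h5 _ (hIU' b hb) h7
      · exact hUne c h5 _ (hJU' b hb) h7
    have h8 := card_le_card hsub
    rw [← h, hR2c] at h8
    have h9 : ({I a, Jf a} : Finset (Fin n)).card ≤ 2 := card_le_two
    omega
  -- coordinates of the base vertices
  have huo : ∀ t c, c ≠ I t → c ≠ Jf t → u t c = x c := fun t c h5 h6 => by
    show fl (fl x (I t)) (Jf t) c = x c
    rw [fl_apply, if_neg h6, fl_apply, if_neg h5]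
  have hwo : ∀ t c, c ≠ I' t → c ≠ Jf' t → w t c = y c := fun t c h5 h6 => by
    show fl (fl y (I' t)) (Jf' t) c = y c
    rw [fl_apply, if_neg h6, fl_apply, if_neg h5]
  have hDuw : ∀ t ∈ T, D ⊆ df (u t) (w t) := by
    intro t ht c hc
    have hcU := hDU hc
    rw [mem_df, huo t c (fun h => hID t ht (h ▸ hc)) (fun h => hJD t ht (h ▸ hc)),
      hwo t c (fun h => hID' t ht (h ▸ hc)) (fun h => hJD' t ht (h ▸ hc))]
    exact (mem_df x y c).1 (hDd hc)
  have hR2i : ∀ t, 2 * r - 2 ≤ (R2 \ {I t, Jf t}).card := by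
    intro t
    have h5 := le_card_sdiff ({I t, Jf t} : Finset (Fin n)) R2
    have h6 : ({I t, Jf t} : Finset (Fin n)).card ≤ 2 := card_le_two
    omega
  have hR2d : ∀ t ∈ T, ∀ S ⊆ D, R2 \ {I t, Jf t} ⊆ df (flS (u t) S) (flS (w t) (D \ S)) := by
    intro t ht S hS c hc
    rw [Finset.mem_sdiff, mem_insert, mem_singleton, not_or] at hc
    obtain ⟨h5, h6, h7⟩ := hc
    obtain ⟨h8, h9⟩ := hR2m c h5
    rw [mem_df, flS_apply, if_neg (fun h => h9 (hS h)), flS_apply,
      if_neg (fun h => h9 (Finset.mem_sdiff.1 h).1), huo t c h6 h7,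
      hwo t c (hUne c h8 _ (hIU' t ht)) (hUne c h8 _ (hJU' t ht))]
    exact (mem_df x y c).1 (hU h8)
  have hmid : ∀ t ∈ T, ∀ S ⊆ D, 1 / 2 ≤ Pr p {ω | Geo ω (flS (u t) S) (flS (w t) (D \ S))} := by
    intro t ht S hS
    refine hG n _ _ ?_
    have h5 := card_le_card (hR2d t ht S hS)
    have h6 := hR2i t
    unfold hd
    omega
  have hloc : ∀ t ∈ T, g ≤ Pr p {ω | θ * ((2 * r).choose r : ℝ) ≤
      ((GoodSet ω (u t) (w t) D r).card : ℝ)} := by
    intro t ht
    refine hL n r (u t) (w t) D hrk hDc (hDuw t ht) ?_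
    have h5 : D ∪ (R2 \ {I t, Jf t}) ⊆ df (u t) (w t) := by
      refine union_subset (hDuw t ht) ?_
      intro c hc
      rw [Finset.mem_sdiff, mem_insert, mem_singleton, not_or] at hc
      obtain ⟨h5, h6, h7⟩ := hc
      obtain ⟨h8, h9⟩ := hR2m c h5
      rw [mem_df, huo t c h6 h7, hwo t c (hUne c h8 _ (hIU' t ht)) (hUne c h8 _ (hJU' t ht))]
      exact (mem_df x y c).1 (hU h8)
    have h6 : Disjoint D (R2 \ {I t, Jf t}) := by
      rw [Finset.disjoint_left]
      intro c hc hc'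
      exact (hR2m c (Finset.mem_sdiff.1 hc').1).2 hc
    have h7 := card_le_card h5
    rw [card_union_of_disjoint h6, hDc] at h7
    have h8 := hR2i t
    unfold hd
    omega
  set L : ℝ := θ * ((2 * r).choose r : ℝ) with hLdef
  -- the events
  let C : ℕ × ℕ → Finset (Ix n) := fun t =>
    {ed (fl x (I t)) (Jf t), Sum.inl (u t), ed (fl y (I' t)) (Jf' t), Sum.inl (w t)}
  let A : ℕ × ℕ → Cfg n → Prop := fun t ω =>
    (∀ c ∈ C t, ω c = true) ∧ L ≤ ((GoodSet ω (u t) (w t) D r).card : ℝ)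
  let JJ : ℕ × ℕ → Set (Ix n) := fun t =>
    {c | c = ed (fl x (I t)) (Jf t) ∨ c = ed (fl y (I' t)) (Jf' t) ∨
      c ∈ NN x D (sg x D (u t)) ∨ c ∈ NN x D (sg x D (w t))}
  have hdA : ∀ t ∈ T, DependsOn (A t) (JJ t) := by
    intro t ht ω ω' h
    have hC : ∀ c ∈ C t, ω c = ω' c := by
      intro c hc
      apply h
      simp only [C, mem_insert, mem_singleton] at hc
      rcases hc with rfl | rfl | rfl | rfl
      · exact Or.inl rfl
      · exact Or.inr (Or.inr (Or.inl (Or.inl ⟨_, rfl, rfl⟩)))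
      · exact Or.inr (Or.inl rfl)
      · exact Or.inr (Or.inr (Or.inr (Or.inl ⟨_, rfl, rfl⟩)))
    have hGd : GoodSet ω (u t) (w t) D r = GoodSet ω' (u t) (w t) D r := by
      refine dep_good (x := x) hB1 (by omega) hDc (hne t ht t ht) fun c hc => h c ?_
      rcases hc.1 with hc | hc
      · exact Or.inr (Or.inr (Or.inl hc))
      · exact Or.inr (Or.inr (Or.inr hc))
    show ((∀ c ∈ C t, ω c = true) ∧ L ≤ ((GoodSet ω (u t) (w t) D r).card : ℝ)) =
      ((∀ c ∈ C t, ω' c = true) ∧ L ≤ ((GoodSet ω' (u t) (w t) D r).card : ℝ))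
    rw [hGd]
    apply propext
    refine and_congr_left fun _ => forall_congr' fun c => forall_congr' fun hc => ?_
    rw [hC c hc]
  have hedNN : ∀ (v : V n) (d : Fin n), d ∉ D → ∀ A, ed v d ∉ NN x D A := by
    rintro v d hd A (⟨z, hz, _⟩ | ⟨v', d', hv', hd', _⟩)
    · exact Sum.inr_ne_inl hz
    · rw [ed, Sum.inr.injEq, Prod.mk.injEq] at hv'
      exact hd (hv'.2 ▸ hd')
  have heded : ∀ (v v' : V n) (d d' : Fin n), d ≠ d' → ed v d ≠ ed v' d' := by
    intro v v' d d' hdd h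
    rw [ed, ed, Sum.inr.injEq, Prod.mk.injEq] at h
    exact hdd h.2
  have hJdis : ∀ a ∈ T, ∀ b ∈ T, a ≠ b → Disjoint (JJ a) (JJ b) := by
    intro a ha b hb hab
    have hnu : sg x D (u a) ≠ sg x D (u b) := by
      intro h
      rw [hsu a ha, hsu b hb] at h
      have h5 : I a ∈ ({I b, Jf b} : Finset (Fin n)) := by
        rw [← h]; exact mem_insert_self _ _
      have h6 : Jf a ∈ ({I b, Jf b} : Finset (Fin n)) := by
        rw [← h]; exact mem_insert_of_mem (mem_singleton_self _)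
      rw [mem_insert, mem_singleton] at h5 h6
      have h7 : a.1 = b.1 := by
        rcases h5 with h5 | h5
        · exact hII a ha b hb h5
        · exact absurd h5 (hIJ a ha b hb)
      have h8 : a.2 = b.2 := by
        rcases h6 with h6 | h6
        · exact absurd h6.symm (hIJ b hb a ha)
        · exact hJJ a ha b hb h6
      exact hab (Prod.ext h7 h8)
    have hnw : sg x D (w a) ≠ sg x D (w b) := by
      intro h
      rw [hsw a ha, hsw b hb] at h
      have key : ∀ c ∈ U', c ∈ ({I' a, Jf' a} : Finset (Fin n)) →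
          c ∈ ({I' b, Jf' b} : Finset (Fin n)) := by
        intro c hc hca
        by_contra hcb
        have h5 : c ∈ (df x y \ D) \ {I' b, Jf' b} :=
          Finset.mem_sdiff.2 ⟨Finset.mem_sdiff.2 ⟨hU' hc, hU'D c hc⟩, hcb⟩
        rw [← h] at h5
        exact (Finset.mem_sdiff.1 h5).2 hca
      have h5 := key _ (hIU' a ha) (mem_insert_self _ _)
      have h6 := key _ (hJU' a ha) (mem_insert_of_mem (mem_singleton_self _))
      rw [mem_insert, mem_singleton] at h5 h6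
      have h7 : a.1 = b.1 := by
        rcases h5 with h5 | h5
        · exact hII' a ha b hb h5
        · exact absurd h5 (hIJ' a ha b hb)
      have h8 : a.2 = b.2 := by
        rcases h6 with h6 | h6
        · exact absurd h6.symm (hIJ' b hb a ha)
        · exact hJJ' a ha b hb h6
      exact hab (Prod.ext h7 h8)
    rw [Set.disjoint_left]
    rintro c (rfl | rfl | hc | hc) (h | h | h | h)
    · obtain ⟨h5, h6⟩ := ed_inj (hIJ a ha a ha) h
      exact hab (Prod.ext (hII a ha b hb h5) (hJJ a ha b hb h6))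
    · exact heded _ _ _ _ (hUne _ (hJU a ha) _ (hJU' b hb)) h
    · exact hedNN _ _ (hJD a ha) _ h
    · exact hedNN _ _ (hJD a ha) _ h
    · exact heded _ _ _ _ (hUne _ (hJU b hb) _ (hJU' a ha)).symm h
    · obtain ⟨h5, h6⟩ := ed_inj (hIJ' a ha a ha) h
      exact hab (Prod.ext (hII' a ha b hb h5) (hJJ' a ha b hb h6))
    · exact hedNN _ _ (hJD' a ha) _ h
    · exact hedNN _ _ (hJD' a ha) _ h
    · rw [h] at hc; exact hedNN _ _ (hJD b hb) _ hc
    · rw [h] at hc; exact hedNN _ _ (hJD' b hb) _ hc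
    · exact Set.disjoint_left.1 (NN_disj hnu) hc h
    · exact Set.disjoint_left.1 (NN_disj (hne a ha b hb)) hc h
    · rw [h] at hc; exact hedNN _ _ (hJD b hb) _ hc
    · rw [h] at hc; exact hedNN _ _ (hJD' b hb) _ hc
    · exact Set.disjoint_left.1 (NN_disj (hne b hb a ha)) h hc
    · exact Set.disjoint_left.1 (NN_disj hnw) hc h
  have hPA : ∀ t ∈ T, Pr p {ω | ¬ A t ω} ≤ 1 - (pv * pe) ^ 4 * g := by
    intro t ht
    have h5 := loc_bound h1 h2 h3 h4 hB1 (x := x) (by omega : 1 ≤ r) hDc (hne t ht t ht)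
      hg.le (hloc t ht) (fl x (I t)) (fl y (I' t)) (hJD t ht) (hJD' t ht)
    have h6 : {ω | ¬ A t ω} = {ω | A t ω}ᶜ := rfl
    rw [h6, Pr_compl]
    have h7 : (pv * pe) ^ 4 * g ≤ Pr p {ω | A t ω} := h5
    linarith
  have hPT : Pr p {ω | ∀ t ∈ T, ¬ A t ω} ≤ (1 - (pv * pe) ^ 4 * g) ^ (r * r) := by
    rw [Pr_ind p T JJ (fun t ω => ¬ A t ω) (fun t ht => dep_not (hdA t ht)) hJdis]
    calc ∏ t ∈ T, Pr p {ω | ¬ A t ω} ≤ ∏ t ∈ T, (1 - (pv * pe) ^ 4 * g) :=
          prod_le_prod (fun _ _ => Pr_nonneg hp _) hPA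
      _ = (1 - (pv * pe) ^ 4 * g) ^ (r * r) := by
          rw [prod_const, hT, card_product, card_range]
  let Eb : ℕ × ℕ → Set (Cfg n) := fun t => {ω | L ≤ ((GoodSet ω (u t) (w t) D r).card : ℝ) ∧
      ∀ S ∈ GoodSet ω (u t) (w t) D r, ¬ Geo ω (flS (u t) S) (flS (w t) (D \ S))}
  have hPE : Pr p {ω | ∃ t ∈ T, ω ∈ Eb t} ≤ (r * r : ℕ) * (1 / 2) ^ (10 * n) := by
    refine (Pr_exists_le hp T Eb).trans ?_
    calc ∑ t ∈ T, Pr p (Eb t) ≤ ∑ t ∈ T, (1 / 2 : ℝ) ^ (10 * n) :=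
          sum_le_sum fun t ht => mid_bound hp hB1 (x := x) (by omega) hDc (hne t ht t ht)
            (hDuw t ht) (hmid t ht) hθn
      _ = (r * r : ℕ) * (1 / 2) ^ (10 * n) := by
          rw [sum_const, nsmul_eq_mul, hT, card_product, card_range]
  have hincl : {ω : Cfg n | ∀ i ∈ U, ∀ i' ∈ U', ¬ Geo ω (fl x i) (fl y i')} ⊆
      {ω | ∀ t ∈ T, ¬ A t ω} ∪ {ω | ∃ t ∈ T, ω ∈ Eb t} := by
    intro ω hω
    by_cases hE : ∃ t ∈ T, ω ∈ Eb t
    · exact Or.inr hE
    · left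
      intro t ht hA
      apply hE
      refine ⟨t, ht, hA.2, fun S hS hM => ?_⟩
      obtain ⟨⟨hSD, _⟩, hgood⟩ := mem_good.1 hS
      refine hω _ (hIU t ht) _ (hIU' t ht) ?_
      exact concat (fun a b c => hB2 ω a b c) (fun a b => hB3 ω a b)
        (hU (hIU t ht)) (hU (hJU t ht)) (hU' (hIU' t ht)) (hU' (hJU' t ht)) hDd
        (hID t ht) (hJD t ht) (hID' t ht) (hJD' t ht) (hIJ t ht t ht) (hIJ' t ht t ht)
        (hUne _ (hIU t ht) _ (hIU' t ht)) (hUne _ (hIU t ht) _ (hJU' t ht))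
        (hUne _ (hJU t ht) _ (hIU' t ht)) (hUne _ (hJU t ht) _ (hJU' t ht)) hSD
        (hA.1 _ (by simp [C])) (hA.1 _ (by simp [C, u])) (hA.1 _ (by simp [C]))
        (hA.1 _ (by simp [C, w])) hgood hM
  exact (Pr_mono hp hincl).trans ((Pr_union_le hp _ _).trans (add_le_add hPT hPE))

end Far

open Far in
/-- DC-FAR: main exponential bound -/
theorem far {pv pe : ℝ} (h1 : 0 < pv) (h2 : pv ≤ 1) (h3 : 0 < pe) (h4 : pe ≤ 1)
    (hB : StmtGeoB) (hG : StmtGeo pv pe) (hL : StmtLoc pv pe) : StmtFar pv pe := by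
  obtain ⟨d0, hG⟩ := hG
  obtain ⟨k0, θ, g0, hθ, hg0, hL0⟩ := hL
  intro K hK
  set g : ℝ := min g0 1 with hgdef
  have hg : 0 < g := lt_min hg0 one_pos
  have hg1 : g ≤ 1 := min_le_right _ _
  have hL : ∀ (n k : ℕ) (u w : V n) (D : Finset (Fin n)), k0 ≤ k → D.card = 2 * k →
      D ⊆ df u w → 2 * k + 1 ≤ hd u w →
      g ≤ Pr (bp pv pe n) {ω | θ * ((2 * k).choose k : ℝ) ≤ ((GoodSet ω u w D k).card : ℝ)} :=
    fun n k u w D a b c d => (min_le_left _ _).trans (hL0 n k u w D a b c d)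
  set g' : ℝ := (pv * pe) ^ 4 * g with hg'
  have hpp0 : 0 < pv * pe := mul_pos h1 h3
  have hpp1 : pv * pe ≤ 1 := mul_le_one₀ h2 h3.le h4
  have hg'0 : 0 < g' := by positivity
  have hg'1 : g' ≤ 1 := mul_le_one₀ (pow_le_one₀ hpp0.le hpp1) hg.le hg1
  have hKr : (0 : ℝ) < K := by exact_mod_cast hK
  have hc1 : ∀ᶠ r : ℕ in atTop, (r : ℝ) ^ 2 / 4 ^ r ≤ θ / (320 * K) :=
    ((tendsto_pow_const_div_const_pow_of_one_lt 2 (by norm_num : (1 : ℝ) < 4)).eventually
      (gt_mem_nhds (by positivity : (0 : ℝ) < θ / (320 * K)))).mono fun _ h => h.le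
  have hc2 : ∀ᶠ r : ℕ in atTop, (1 - g') ^ r ≤ ((1 : ℝ) / 200) ^ (16 * K) :=
    ((tendsto_pow_atTop_nhds_zero_of_lt_one (by linarith : (0 : ℝ) ≤ 1 - g')
      (by linarith)).eventually
      (gt_mem_nhds (by positivity : (0 : ℝ) < ((1 : ℝ) / 200) ^ (16 * K)))).mono fun _ h => h.le
  obtain ⟨r0, hr0⟩ := eventually_atTop.1 (hc1.and hc2)
  set r1 := max (max r0 2) (max (d0 + 2) k0) with hr1
  refine ⟨8 * K * r1, fun n hn x y U U' hU hU' hUU hUc hUc' => ?_⟩
  set r := n / (8 * K) with hr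
  have h8K : 0 < 8 * K := by omega
  have hrr1 : r1 ≤ r := by
    rw [hr, Nat.le_div_iff_mul_le h8K, mul_comm]; exact hn
  have hra : r0 ≤ r := le_trans (le_trans (le_max_left _ _) (le_max_left _ _)) hrr1
  have hrb : 2 ≤ r := le_trans (le_trans (le_max_right _ _) (le_max_left _ _)) hrr1
  have hrc : d0 + 2 ≤ r := le_trans (le_trans (le_max_left _ _) (le_max_right _ _)) hrr1
  have hrd : k0 ≤ r := le_trans (le_trans (le_max_right _ _) (le_max_right _ _)) hrr1
  have hn1 : 8 * K * r ≤ n := by rw [hr]; exact Nat.mul_div_le n (8 * K)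
  have hn2 : n ≤ 16 * K * r := by
    have h5 : n < 8 * K * (r + 1) := by rw [hr]; exact Nat.lt_mul_div_succ n h8K
    have h6 : 8 * K * (r + 1) = 8 * K * r + 8 * K := by ring
    have h7 : 8 * K * 1 ≤ 8 * K * r := Nat.mul_le_mul_left _ (by omega)
    have h8 : 16 * K * r = 8 * K * r + 8 * K * r := by ring
    omega
  have hUc4 : 4 * r ≤ U.card := by
    have h5 : K * (8 * r) ≤ K * U.card := by
      calc K * (8 * r) = 8 * K * r := by ring
        _ ≤ n := hn1
        _ ≤ U.card * K := hUc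
        _ = K * U.card := mul_comm _ _
    have := Nat.le_of_mul_le_mul_left h5 hK
    omega
  have hUc2 : 2 * r ≤ U'.card := by
    have h5 : K * (8 * r) ≤ K * U'.card := by
      calc K * (8 * r) = 8 * K * r := by ring
        _ ≤ n := hn1
        _ ≤ U'.card * K := hUc'
        _ = K * U'.card := mul_comm _ _
    have := Nat.le_of_mul_le_mul_left h5 hK
    omega
  obtain ⟨hb1, hb2⟩ := hr0 r hra
  have hrpos : (0 : ℝ) < r := by exact_mod_cast (by omega : 0 < r)
  have hθn : ((10 * n : ℕ) : ℝ) ≤ θ * ((2 * r).choose r : ℝ) := by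
    have h5 : (4 : ℝ) ^ r ≤ 2 * r * ((2 * r).choose r : ℝ) := by
      have := Nat.four_pow_le_two_mul_self_mul_centralBinom r (by omega)
      rw [Nat.centralBinom_eq_two_mul_choose] at this
      exact_mod_cast this
    rw [div_le_div_iff₀ (by positivity) (by positivity)] at hb1
    have h6 : θ * (4 : ℝ) ^ r ≤ θ * (2 * r * ((2 * r).choose r : ℝ)) :=
      mul_le_mul_of_nonneg_left h5 hθ.le
    have h7 : (r : ℝ) * (160 * K * r * 2) ≤ r * (θ * ((2 * r).choose r : ℝ) * 2) := by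
      calc (r : ℝ) * (160 * K * r * 2) = (r : ℝ) ^ 2 * (320 * K) := by ring
        _ ≤ θ * 4 ^ r := hb1
        _ ≤ _ := h6
        _ = r * (θ * ((2 * r).choose r : ℝ) * 2) := by ring
    have h8 := le_of_mul_le_mul_left h7 hrpos
    have h9 : ((10 * n : ℕ) : ℝ) ≤ 160 * K * r := by
      have : 10 * n ≤ 160 * K * r := by
        calc 10 * n ≤ 10 * (16 * K * r) := Nat.mul_le_mul_left _ hn2
          _ = 160 * K * r := by ring
      exact_mod_cast this
    linarith
  have hmain := main_bound h1 h2 h3 h4 hB hG hg hL hrb hrc hrd hθn x y U U' hU hU' hUU hUc4 hUc2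
  refine hmain.trans ?_
  rw [← hg']
  have hn0 : 1 ≤ n := by
    have : 1 * 1 ≤ 8 * K * r := Nat.mul_le_mul (by omega) (by omega)
    omega
  have hA : (1 - g') ^ (r * r) ≤ 1 / 2 * (1 / 100) ^ n := by
    calc (1 - g') ^ (r * r) = ((1 - g') ^ r) ^ r := by rw [pow_mul]
      _ ≤ (((1 : ℝ) / 200) ^ (16 * K)) ^ r :=
          pow_le_pow_left₀ (pow_nonneg (by linarith) _) hb2 _
      _ = ((1 : ℝ) / 200) ^ (16 * K * r) := by rw [← pow_mul]
      _ ≤ ((1 : ℝ) / 200) ^ n := pow_le_pow_of_le_one (by norm_num) (by norm_num) hn2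
      _ = (1 / 2) ^ n * (1 / 100) ^ n := by rw [← mul_pow]; norm_num
      _ ≤ 1 / 2 * (1 / 100) ^ n := by
          refine mul_le_mul_of_nonneg_right ?_ (by positivity)
          calc ((1 : ℝ) / 2) ^ n ≤ (1 / 2) ^ 1 :=
                pow_le_pow_of_le_one (by norm_num) (by norm_num) hn0
            _ = 1 / 2 := pow_one _
  have hBb : ((r * r : ℕ) : ℝ) * (1 / 2) ^ (10 * n) ≤ 1 / 2 * (1 / 100) ^ n := by
    have h5 : r ≤ 2 ^ n := by
      have h6 : r ≤ n := Nat.div_le_self _ _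
      exact h6.trans (Nat.lt_two_pow_self).le
    have h6 : ((r * r : ℕ) : ℝ) ≤ 4 ^ n := by
      have : r * r ≤ 2 ^ n * 2 ^ n := Nat.mul_le_mul h5 h5
      have h7 : (2 : ℕ) ^ n * 2 ^ n = 4 ^ n := by rw [← mul_pow]; norm_num
      rw [h7] at this
      exact_mod_cast this
    calc ((r * r : ℕ) : ℝ) * (1 / 2) ^ (10 * n) ≤ 4 ^ n * (1 / 2) ^ (10 * n) :=
          mul_le_mul_of_nonneg_right h6 (by positivity)
      _ = (25 / 64) ^ n * (1 / 100) ^ n := by
          rw [pow_mul, ← mul_pow, ← mul_pow]; norm_num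
      _ ≤ 1 / 2 * (1 / 100) ^ n := by
          refine mul_le_mul_of_nonneg_right ?_ (by positivity)
          calc ((25 : ℝ) / 64) ^ n ≤ (25 / 64) ^ 1 :=
                pow_le_pow_of_le_one (by norm_num) (by norm_num) hn0
            _ ≤ 1 / 2 := by norm_num
  linarith

end Pool.Agent.R896.DC
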