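import Pool.Agent.R896.DC.Stm
import Pool.Agent.R896.DC.Tool

/-! Project DC, piece DC-GEO: second moment for open geodesics. -/

set_option autoImplicit false

namespace Pool.Agent.R896.DC

open Finset

namespace GeoAux

lemma flS_flS {n : ℕ} (u : V n) (S T : Finset (Fin n)) (h : Disjoint S T) :
    flS (flS u S) T = flS u (S ∪ T) := by
  funext i
  simp only [flS, Finset.mem_union]
  by_cases hS : i ∈ S
  · have hT : i ∉ T := Finset.disjoint_left.mp h hS
    simp [hS, hT]
  · by_cases hT : i ∈ T <;> simp [hS, hT]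

lemma flS_inj {n : ℕ} (u : V n) {S T : Finset (Fin n)} (h : flS u S = flS u T) : S = T := by
  ext i
  have := congrFun h i
  simp only [flS] at this
  by_cases hS : i ∈ S <;> by_cases hT : i ∈ T <;> simp_all

lemma mem_cs_inl {n : ℕ} (l : List (Fin n)) : ∀ (u : V n) (z : V n), l.Nodup →
    Sum.inl z ∈ cs u l → ∃ j, 0 < j ∧ j < l.length ∧ z = flS u (l.take j).toFinset := by
  induction l with
  | nil => intro u z _ h; simp [cs] at h
  | cons i l ih =>
    intro u z hnd h
    match l, ih, hnd, h with
    | [], _, _, h => simp [cs, ed] at h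
    | j :: l, ih, hnd, h =>
      rw [cs] at h
      simp only [Finset.mem_insert] at h
      rcases h with h | h | h
      · simp [ed] at h
      · refine ⟨1, one_pos, by simp, ?_⟩
        have : z = fl u i := Sum.inl_injective h
        rw [this]; simp [fl]
      · obtain ⟨k, hk0, hk, hz⟩ := ih (fl u i) z (List.nodup_cons.mp hnd).2 h
        refine ⟨k + 1, by omega, by simp only [List.length_cons] at hk ⊢; omega, ?_⟩
        rw [hz, fl, flS_flS]
        · simp [List.take_succ_cons]
        · rw [Finset.disjoint_singleton_left, List.mem_toFinset]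
          exact fun hmem => (List.nodup_cons.mp hnd).1 (List.mem_of_mem_take hmem)

lemma mem_cs_inr {n : ℕ} (l : List (Fin n)) : ∀ (u : V n) (e : V n × Fin n), l.Nodup →
    Sum.inr e ∈ cs u l → ∃ (k : ℕ) (hk : k < l.length),
      e = (Function.update (flS u (l.take k).toFinset) l[k] false, l[k]) := by
  induction l with
  | nil => intro u z _ h; simp [cs] at h
  | cons i l ih =>
    intro u e hnd h
    match l, ih, hnd, h with
    | [], _, _, h =>
      simp only [cs, ed, Finset.mem_singleton] at h
      refine ⟨0, by simp, ?_⟩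
      rw [Sum.inr_injective h]
      have : flS u ∅ = u := by funext j; simp [flS]
      simp [this]
    | j :: l, ih, hnd, h =>
      rw [cs] at h
      simp only [Finset.mem_insert] at h
      rcases h with h | h | h
      · refine ⟨0, by simp, ?_⟩
        have h' : e = (Function.update u i false, i) := Sum.inr_injective h
        rw [h']
        have : flS u ∅ = u := by funext j; simp [flS]
        simp [this]
      · simp at h
      · obtain ⟨k, hk, hz⟩ := ih (fl u i) e (List.nodup_cons.mp hnd).2 h
        refine ⟨k + 1, by simp only [List.length_cons] at hk ⊢; omega, ?_⟩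
        rw [hz, fl, flS_flS]
        · simp [List.take_succ_cons]
        · rw [Finset.disjoint_singleton_left, List.mem_toFinset]
          exact fun hmem => (List.nodup_cons.mp hnd).1 (List.mem_of_mem_take hmem)

lemma prod_cs (pv pe : ℝ) {n : ℕ} (l : List (Fin n)) : ∀ (u : V n), l.Nodup → l ≠ [] →
    ∏ c ∈ cs u l, bp pv pe n c = pe ^ l.length * pv ^ (l.length - 1) := by
  induction l with
  | nil => intro u _ h; exact absurd rfl h
  | cons i l ih =>
    intro u hnd _
    match l, ih, hnd with
    | [], _, _ => simp [cs, ed, bp]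
    | j :: l, ih, hnd =>
      have hnd' := (List.nodup_cons.mp hnd)
      rw [cs, Finset.prod_insert, Finset.prod_insert, ih (fl u i) hnd'.2 (by simp)]
      · simp only [ed, bp, Sum.elim_inr, Sum.elim_inl, List.length_cons]
        have : l.length + 1 + 1 - 1 = l.length + 1 := by omega
        rw [this]
        have : l.length + 1 - 1 = l.length := by omega
        rw [this]
        ring
      · intro h
        obtain ⟨k, hk0, hk, hz⟩ := mem_cs_inl _ _ _ hnd'.2 h
        have h1 : flS (fl u i) ∅ = fl u i := by funext j; simp [flS]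
        have h2 := flS_inj (fl u i) (h1.trans hz)
        have h3 : j ∈ (List.take k (j :: l)).toFinset := by
          rw [List.mem_toFinset]
          obtain ⟨k', rfl⟩ : ∃ k', k = k' + 1 := ⟨k - 1, by omega⟩
          simp [List.take_succ_cons]
        rw [← h2] at h3
        simp at h3
      · intro h
        rw [Finset.mem_insert] at h
        rcases h with h | h
        · simp [ed] at h
        · obtain ⟨k, hk, he⟩ := mem_cs_inr _ _ _ hnd'.2 h
          have h2 : i = (j :: l)[k] := congrArg Prod.snd he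
          exact hnd'.1 (h2 ▸ List.getElem_mem hk)

/-- shared levels -/
def SL {n : ℕ} (d : ℕ) (l l' : List (Fin n)) : Finset ℕ :=
  (Finset.range d).filter fun j => 0 < j ∧ (l.take j).toFinset = (l'.take j).toFinset

lemma card_take {n : ℕ} (l : List (Fin n)) (h : l.Nodup) (j : ℕ) (hj : j ≤ l.length) :
    (l.take j).toFinset.card = j := by
  rw [List.toFinset_card_of_nodup (h.sublist (List.take_sublist _ _)), List.length_take]
  omega

lemma left_card {n : ℕ} (u : V n) (d : ℕ) (l l' : List (Fin n)) (hl : l.Nodup) (hl' : l'.Nodup)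
    (hd : l.length = d) (hd' : l'.length = d) :
    (cs u l ∩ cs u l').toLeft.card ≤ (SL d l l').card := by
  refine (Finset.card_le_card (t := (SL d l l').image
    (fun j => flS u (l.take j).toFinset)) ?_).trans Finset.card_image_le
  intro z hz
  rw [Finset.mem_toLeft, Finset.mem_inter] at hz
  obtain ⟨j, hj0, hj, hzj⟩ := mem_cs_inl _ _ _ hl hz.1
  obtain ⟨k, hk0, hk, hzk⟩ := mem_cs_inl _ _ _ hl' hz.2
  have h1 := flS_inj u (hzj.symm.trans hzk)
  have h2 : j = k := by
    have h3 := congrArg Finset.card h1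
    rwa [card_take l hl j hj.le, card_take l' hl' k hk.le] at h3
  subst h2
  rw [Finset.mem_image]
  refine ⟨j, ?_, hzj.symm⟩
  rw [SL, Finset.mem_filter, Finset.mem_range]
  exact ⟨by omega, hj0, h1⟩

lemma right_card {n : ℕ} (u : V n) (d : ℕ) (l l' : List (Fin n)) (hl : l.Nodup) (hl' : l'.Nodup)
    (hd : l.length = d) (hd' : l'.length = d) (h2 : 2 ≤ d) :
    (cs u l ∩ cs u l').toRight.card ≤ 2 * (SL d l l').card := by
  -- every common edge has an index in insert 0 S, and S nonempty
  have key : ∀ e ∈ (cs u l ∩ cs u l').toRight, ∃ (k : ℕ) (hk : k < l.length),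
      e = (Function.update (flS u (l.take k).toFinset) l[k] false, l[k]) ∧
      k ∈ insert 0 (SL d l l') ∧ (SL d l l').Nonempty := by
    intro e he
    rw [Finset.mem_toRight, Finset.mem_inter] at he
    obtain ⟨k, hk, hek⟩ := mem_cs_inr _ _ _ hl he.1
    obtain ⟨k', hk', hek'⟩ := mem_cs_inr _ _ _ hl' he.2
    have hdir : l[k] = l'[k'] := by
      have h3 := hek.symm.trans hek'
      exact congrArg Prod.snd h3
    have hnot : l[k] ∉ (l.take k).toFinset := by
      rw [List.mem_toFinset]
      intro hmem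
      rw [List.mem_take_iff_getElem] at hmem
      obtain ⟨a, ha, hak⟩ := hmem
      have := (List.Nodup.getElem_inj_iff hl).mp hak
      omega
    have hnot' : l'[k'] ∉ (l'.take k').toFinset := by
      rw [List.mem_toFinset]
      intro hmem
      rw [List.mem_take_iff_getElem] at hmem
      obtain ⟨a, ha, hak⟩ := hmem
      have := (List.Nodup.getElem_inj_iff hl').mp hak
      omega
    have hsets : (l.take k).toFinset = (l'.take k').toFinset := by
      apply flS_inj u
      have h3 : Function.update (flS u (l.take k).toFinset) l[k] false =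
          Function.update (flS u (l'.take k').toFinset) l[k] false := by
        have h4 := congrArg Prod.fst (hek.symm.trans hek')
        simp only at h4
        rw [h4, hdir]
      funext i
      by_cases hi : i = l[k]
      · subst hi
        have hn2 : l[k] ∉ (l'.take k').toFinset := by rw [hdir]; exact hnot'
        simp only [flS, hnot, hn2, if_false]
      · have h5 := congrFun h3 i
        rwa [Function.update_of_ne hi, Function.update_of_ne hi] at h5
    have hkk : k = k' := by
      have h3 := congrArg Finset.card hsets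
      rwa [card_take l hl k hk.le, card_take l' hl' k' hk'.le] at h3
    subst hkk
    have hsucc : (l.take (k + 1)).toFinset = (l'.take (k + 1)).toFinset := by
      rw [List.take_succ_eq_append_getElem hk, List.take_succ_eq_append_getElem hk',
        List.toFinset_append, List.toFinset_append, hsets, hdir]
    rcases Nat.eq_zero_or_pos k with h0 | h0
    · refine ⟨k, hk, hek, by simp [h0], ⟨1, ?_⟩⟩
      rw [SL, Finset.mem_filter, Finset.mem_range]
      subst h0
      exact ⟨by omega, one_pos, by simpa using hsucc⟩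
    · have hmem : k ∈ SL d l l' := by
        rw [SL, Finset.mem_filter, Finset.mem_range]
        exact ⟨by omega, h0, hsets⟩
      exact ⟨k, hk, hek, Finset.mem_insert_of_mem hmem, ⟨k, hmem⟩⟩
  rcases (cs u l ∩ cs u l').toRight.eq_empty_or_nonempty with hemp | ⟨e0, he0⟩
  · rw [hemp]; simp
  · have hne : (SL d l l').Nonempty := (key e0 he0).choose_spec.choose_spec.2.2
    have hcard : (cs u l ∩ cs u l').toRight.card ≤ (insert 0 (SL d l l')).card := by
      refine Finset.card_le_card_of_injOn (fun e => l.idxOf e.2) ?_ ?_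
      · intro e he
        obtain ⟨k, hk, hek, hmem, _⟩ := key e he
        simp only
        rw [hek]
        simp only
        rw [hl.idxOf_getElem]
        exact hmem
      · intro e he e' he' hee
        obtain ⟨k, hk, hek, hmem, _⟩ := key e he
        obtain ⟨k', hk', hek', hmem', _⟩ := key e' he'
        simp only at hee
        rw [hek, hek'] at hee
        simp only at hee
        rw [hl.idxOf_getElem, hl.idxOf_getElem] at hee
        subst hee
        rw [hek, hek']
    have h3 := Finset.card_insert_le 0 (SL d l l')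
    have h4 := hne.card_pos
    omega

lemma prod_toLR (pv pe : ℝ) {n : ℕ} (A : Finset (Ix n)) :
    ∏ c ∈ A, bp pv pe n c = pv ^ A.toLeft.card * pe ^ A.toRight.card := by
  conv_lhs => rw [← Finset.toLeft_disjSum_toRight (u := A)]
  rw [Finset.prod_disjSum]
  simp [bp]

open Classical in
/-- indicator that all bits of `A` are true -/
noncomputable def ind {n : ℕ} (A : Finset (Ix n)) (ω : Cfg n) : ℝ :=
  if ∀ c ∈ A, ω c = true then 1 else 0

lemma ind_nonneg {n : ℕ} (A : Finset (Ix n)) (ω : Cfg n) : 0 ≤ ind A ω := by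
  unfold ind; split_ifs <;> norm_num

lemma ind_mul {n : ℕ} (A B : Finset (Ix n)) (ω : Cfg n) : ind A ω * ind B ω = ind (A ∪ B) ω := by
  unfold ind
  by_cases hA : ∀ c ∈ A, ω c = true
  · by_cases hB : ∀ c ∈ B, ω c = true
    · have : ∀ c ∈ A ∪ B, ω c = true := by
        intro c hc
        rcases Finset.mem_union.mp hc with h | h
        · exact hA c h
        · exact hB c h
      rw [if_pos hA, if_pos hB, if_pos this]; norm_num
    · have : ¬ ∀ c ∈ A ∪ B, ω c = true := fun h => hB fun c hc => h c (Finset.mem_union_right _ hc)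
      rw [if_neg hB, if_neg this]; norm_num
  · have : ¬ ∀ c ∈ A ∪ B, ω c = true := fun h => hA fun c hc => h c (Finset.mem_union_left _ hc)
    rw [if_neg hA, if_neg this]; norm_num

lemma Ex_ind {n : ℕ} (p : Ix n → ℝ) (A : Finset (Ix n)) : Ex p (ind A) = ∏ c ∈ A, p c := by
  rw [← Pr_forall_true p A]
  unfold Pr
  congr 1
  funext ω
  unfold ind
  by_cases h : ∀ c ∈ A, ω c = true
  · rw [if_pos h, if_pos (show ω ∈ {ω : Cfg n | ∀ c ∈ A, ω c = true} from h)]
  · rw [if_neg h, if_neg (show ω ∉ {ω : Cfg n | ∀ c ∈ A, ω c = true} from h)]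

/-- the list of a permutation -/
noncomputable def L {n : ℕ} (D : Finset (Fin n)) (σ : Equiv.Perm (Fin D.card)) : List (Fin n) :=
  List.ofFn fun k : Fin D.card => (((D.equivFinOfCardEq rfl).symm (σ k) : D) : Fin n)

lemma L_nodup {n : ℕ} (D : Finset (Fin n)) (σ : Equiv.Perm (Fin D.card)) : (L D σ).Nodup := by
  unfold L
  rw [List.nodup_ofFn]
  intro a b hab
  have h1 := Subtype.coe_injective hab
  exact σ.injective ((D.equivFinOfCardEq rfl).symm.injective h1)

lemma L_length {n : ℕ} (D : Finset (Fin n)) (σ : Equiv.Perm (Fin D.card)) :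
    (L D σ).length = D.card := by
  simp [L]

lemma L_toFinset {n : ℕ} (D : Finset (Fin n)) (σ : Equiv.Perm (Fin D.card)) :
    (L D σ).toFinset = D := by
  apply Finset.eq_of_subset_of_card_le
  · intro x hx
    rw [List.mem_toFinset, L, List.mem_ofFn] at hx
    obtain ⟨k, rfl⟩ := hx
    exact Subtype.coe_prop _
  · rw [List.toFinset_card_of_nodup (L_nodup D σ), L_length]

lemma SL_card {n : ℕ} (D : Finset (Fin n)) (σ τ : Equiv.Perm (Fin D.card)) :
    (SL D.card (L D σ) (L D τ)).card ≤ ((Finset.range D.card).filter fun j => 0 < j ∧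
      ∀ a : Fin D.card, (a : ℕ) < j → (((τ⁻¹ * σ) a : Fin D.card) : ℕ) < j).card := by
  apply Finset.card_le_card
  intro j hj
  rw [SL, Finset.mem_filter, Finset.mem_range] at hj
  rw [Finset.mem_filter, Finset.mem_range]
  refine ⟨hj.1, hj.2.1, ?_⟩
  intro a ha
  have h1 : (((D.equivFinOfCardEq rfl).symm (σ a) : D) : Fin n) ∈ ((L D σ).take j).toFinset := by
    rw [List.mem_toFinset, List.mem_take_iff_getElem]
    refine ⟨a, ?_, ?_⟩
    · rw [L_length]; exact lt_min ha a.2
    · simp [L]
  rw [hj.2.2, List.mem_toFinset, List.mem_take_iff_getElem] at h1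
  obtain ⟨b, hb, hbe⟩ := h1
  rw [L_length] at hb
  have hb1 : b < D.card := (lt_min_iff.mp hb).2
  have hb2 : b < j := (lt_min_iff.mp hb).1
  have h2 : (((D.equivFinOfCardEq rfl).symm (τ ⟨b, hb1⟩) : D) : Fin n) =
      (((D.equivFinOfCardEq rfl).symm (σ a) : D) : Fin n) := by
    rw [← hbe]; simp [L]
  have h3 : τ ⟨b, hb1⟩ = σ a := (D.equivFinOfCardEq rfl).symm.injective (Subtype.coe_injective h2)
  have h4 : (τ⁻¹ * σ) a = ⟨b, hb1⟩ := by
    rw [Equiv.Perm.mul_apply, ← h3]
    simp
  rw [h4]
  exact hb2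

end GeoAux

open GeoAux

theorem geo {pv pe : ℝ} (h1 : 0 < pv) (h2 : pv ≤ 1) (h3 : 0 < pe) (h4 : pe ≤ 1)
    (hP : StmtPerm) : StmtGeo pv pe := by
  classical
  set C : ℝ := 1 / (pv * pe ^ 2) with hC
  have hpos : 0 < pv * pe ^ 2 := by positivity
  have hle1 : pv * pe ^ 2 ≤ 1 := by
    have : pe ^ 2 ≤ 1 := pow_le_one₀ h3.le h4
    nlinarith [pow_pos h3 2]
  have hC1 : 1 ≤ C := by
    rw [hC, le_div_iff₀ hpos]; linarith
  obtain ⟨d1, hd1⟩ := hP C hC1
  refine ⟨max d1 2, ?_⟩
  intro n u w hd
  have hdd1 : d1 ≤ (df u w).card := le_trans (le_max_left _ _) hd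
  have hdd2 : 2 ≤ (df u w).card := le_trans (le_max_right _ _) hd
  set D := df u w with hD
  have hbp := bp_unit h1.le h2 h3.le h4 n
  set p := bp pv pe n with hp
  set P0 : ℝ := pe ^ D.card * pv ^ (D.card - 1) with hP0
  have hP0pos : 0 < P0 := by positivity
  let A : Equiv.Perm (Fin D.card) → Finset (Ix n) := fun σ => cs u (L D σ)
  have hAprod : ∀ σ, ∏ c ∈ A σ, p c = P0 := by
    intro σ
    have hne : L D σ ≠ [] := by
      intro h
      have := L_length D σ
      rw [h] at this
      simp at this
      omega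
    have := prod_cs pv pe (L D σ) u (L_nodup D σ) hne
    rw [L_length] at this
    exact this
  have hAB : ∀ σ τ, ∏ c ∈ A σ ∪ A τ, p c ≤ P0 ^ 2 * C ^ ((Finset.range D.card).filter fun j =>
      0 < j ∧ ∀ a : Fin D.card, (a : ℕ) < j → (((τ⁻¹ * σ) a : Fin D.card) : ℕ) < j).card := by
    intro σ τ
    have hmul := Finset.prod_union_inter (s₁ := A σ) (s₂ := A τ) (f := p)
    rw [hAprod, hAprod] at hmul
    have hint : (pv * pe ^ 2) ^ (SL D.card (L D σ) (L D τ)).card ≤ ∏ c ∈ A σ ∩ A τ, p c := by
      rw [hp, prod_toLR, mul_pow, ← pow_mul]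
      have hl := left_card u D.card (L D σ) (L D τ) (L_nodup D σ) (L_nodup D τ) (L_length D σ)
        (L_length D τ)
      have hr := right_card u D.card (L D σ) (L D τ) (L_nodup D σ) (L_nodup D τ) (L_length D σ)
        (L_length D τ) hdd2
      have e1 := pow_le_pow_of_le_one h1.le h2 hl
      have e2 := pow_le_pow_of_le_one h3.le h4 hr
      exact mul_le_mul e1 e2 (by positivity) (by positivity)
    have hs := SL_card D σ τ
    have hup : 0 ≤ ∏ c ∈ A σ ∪ A τ, p c := Finset.prod_nonneg fun c _ => (hbp c).1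
    have hstep : (∏ c ∈ A σ ∪ A τ, p c) * (pv * pe ^ 2) ^ (SL D.card (L D σ) (L D τ)).card
        ≤ P0 ^ 2 := by
      calc _ ≤ (∏ c ∈ A σ ∪ A τ, p c) * ∏ c ∈ A σ ∩ A τ, p c := by gcongr
        _ = P0 ^ 2 := by rw [hmul]; ring
    have hCp : (pv * pe ^ 2) ^ (SL D.card (L D σ) (L D τ)).card *
        C ^ (SL D.card (L D σ) (L D τ)).card = 1 := by
      rw [← mul_pow, hC, mul_one_div_cancel hpos.ne', one_pow]
    calc ∏ c ∈ A σ ∪ A τ, p c = (∏ c ∈ A σ ∪ A τ, p c) *
          ((pv * pe ^ 2) ^ (SL D.card (L D σ) (L D τ)).card *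
          C ^ (SL D.card (L D σ) (L D τ)).card) := by rw [hCp, mul_one]
      _ = ((∏ c ∈ A σ ∪ A τ, p c) * (pv * pe ^ 2) ^ (SL D.card (L D σ) (L D τ)).card) *
          C ^ (SL D.card (L D σ) (L D τ)).card := by ring
      _ ≤ P0 ^ 2 * C ^ (SL D.card (L D σ) (L D τ)).card := by
          have : 0 ≤ C ^ (SL D.card (L D σ) (L D τ)).card := by positivity
          gcongr
      _ ≤ _ := by
          gcongr
  let N : Cfg n → ℝ := fun ω => ∑ σ, ind (A σ) ω
  have hEN : Ex p N = (D.card.factorial : ℝ) * P0 := by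
    rw [Ex_sum p Finset.univ (fun σ => ind (A σ))]
    simp only [Ex_ind, hAprod]
    rw [Finset.sum_const, Finset.card_univ, Fintype.card_perm, Fintype.card_fin, nsmul_eq_mul]
  have hEN2 : Ex p (fun ω => N ω ^ 2) ≤ 2 * ((D.card.factorial : ℝ) * P0) ^ 2 := by
    have hsq : (fun ω => N ω ^ 2) = fun ω => ∑ τ, ∑ σ, ind (A σ ∪ A τ) ω := by
      funext ω
      simp only [N]
      rw [sq, Finset.sum_mul_sum, Finset.sum_comm]
      refine Finset.sum_congr rfl fun τ _ => Finset.sum_congr rfl fun σ _ => ind_mul _ _ _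
    rw [hsq, Ex_sum p Finset.univ (fun τ ω => ∑ σ, ind (A σ ∪ A τ) ω)]
    have hτ : ∀ τ ∈ (Finset.univ : Finset (Equiv.Perm (Fin D.card))),
        Ex p (fun ω => ∑ σ, ind (A σ ∪ A τ) ω) ≤ P0 ^ 2 * (2 * (D.card.factorial : ℝ)) := by
      intro τ _
      rw [Ex_sum p Finset.univ (fun σ => ind (A σ ∪ A τ))]
      simp only [Ex_ind]
      refine (Finset.sum_le_sum fun σ _ => hAB σ τ).trans ?_
      rw [← Finset.mul_sum]
      refine mul_le_mul_of_nonneg_left ?_ (by positivity)
      have hre := Equiv.sum_comp (Equiv.mulLeft τ⁻¹) (fun π : Equiv.Perm (Fin D.card) =>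
        C ^ ((Finset.range D.card).filter fun j =>
      0 < j ∧ ∀ a : Fin D.card, (a : ℕ) < j → ((π a : Fin D.card) : ℕ) < j).card)
      simp only [Equiv.coe_mulLeft] at hre
      rw [hre]
      exact hd1 D.card hdd1
    refine (Finset.sum_le_sum hτ).trans (le_of_eq ?_)
    rw [Finset.sum_const, Finset.card_univ, Fintype.card_perm, Fintype.card_fin, nsmul_eq_mul]
    ring
  have hfac : (0 : ℝ) < D.card.factorial := by exact_mod_cast Nat.factorial_pos _
  have hM := Ex_sq_le hbp N
  rw [hEN] at hM
  have hEpos : 0 < ((D.card.factorial : ℝ) * P0) ^ 2 := by positivity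
  have hPr0 := Pr_nonneg hbp {ω | N ω ≠ 0}
  have hhalf : 1 / 2 ≤ Pr p {ω | N ω ≠ 0} := by
    have : ((D.card.factorial : ℝ) * P0) ^ 2 ≤
        2 * ((D.card.factorial : ℝ) * P0) ^ 2 * Pr p {ω | N ω ≠ 0} :=
      hM.trans (mul_le_mul_of_nonneg_right hEN2 hPr0)
    nlinarith
  refine hhalf.trans (Pr_mono hbp ?_)
  intro ω hω
  have hω' : N ω ≠ 0 := hω
  simp only [N] at hω'
  obtain ⟨σ, _, hσ⟩ := Finset.exists_ne_zero_of_sum_ne_zero hω'
  have hσ' : ∀ c ∈ A σ, ω c = true := by
    by_contra hcon
    apply hσ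
    unfold ind
    rw [if_neg hcon]
  exact ⟨L D σ, L_nodup D σ, L_toFinset D σ, hσ'⟩

end Pool.Agent.R896.DC
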