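import Pool.Agent.R896.DC.Stm

/-! Project DC, piece DC-GEOB: structure of open geodesics in the cube. -/

set_option autoImplicit false

namespace Pool.Agent.R896.DC

open Filter Topology Finset

lemma gb_mem_df {n : ℕ} {u w : V n} {i : Fin n} : i ∈ df u w ↔ u i ≠ w i := by
  simp [df]

lemma gb_fl_self {n : ℕ} (u : V n) (i : Fin n) : fl u i i = !(u i) := by
  simp [fl, flS]

lemma gb_fl_ne {n : ℕ} (u : V n) {i j : Fin n} (h : j ≠ i) : fl u i j = u j := by
  simp [fl, flS, h]

lemma gb_df_fl {n : ℕ} {u w : V n} {i : Fin n} (h : i ∈ df u w) :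
    df (fl u i) w = (df u w).erase i := by
  ext j
  rw [mem_erase, gb_mem_df, gb_mem_df]
  rw [gb_mem_df] at h
  by_cases hj : j = i
  · subst hj
    rw [gb_fl_self]
    cases hu : u j <;> cases hw : w j <;> simp [hu, hw] at h ⊢
  · rw [gb_fl_ne u hj]
    simp [hj]

lemma gb_df_fl_self {n : ℕ} (u : V n) (i : Fin n) : df u (fl u i) = {i} := by
  ext j
  rw [gb_mem_df, mem_singleton]
  by_cases hj : j = i
  · subst hj
    rw [gb_fl_self]
    cases u j <;> simp
  · rw [gb_fl_ne u hj]
    simp [hj]

lemma gb_df_comm {n : ℕ} (u w : V n) : df u w = df w u := by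
  ext j
  rw [gb_mem_df, gb_mem_df]
  exact ne_comm

lemma gb_eq_of_df {n : ℕ} {u w : V n} (h : df u w = ∅) : u = w := by
  funext i
  by_contra hi
  have : i ∈ df u w := gb_mem_df.2 hi
  rw [h] at this
  simp at this

lemma gb_fl_of_df {n : ℕ} {u w : V n} {i : Fin n} (h : df u w = {i}) : w = fl u i := by
  symm
  apply gb_eq_of_df
  rw [gb_df_fl (by rw [h]; simp), h]
  simp

lemma gb_tail {n : ℕ} {u w : V n} {i : Fin n} {l : List (Fin n)}
    (hn : (i :: l).Nodup) (hd : (i :: l).toFinset = df u w) :
    i ∈ df u w ∧ l.Nodup ∧ l.toFinset = df (fl u i) w := by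
  have h1 : i ∈ df u w := by rw [← hd]; simp
  refine ⟨h1, (List.nodup_cons.1 hn).2, ?_⟩
  rw [gb_df_fl h1, ← hd, List.toFinset_cons, Finset.erase_insert]
  intro h
  exact (List.nodup_cons.1 hn).1 (List.mem_toFinset.1 h)

lemma gb_bits_mono {n : ℕ} {u w : V n} {i : Fin n} (h : i ∈ df u w) :
    bits (fl u i) w ⊆ bits u w := by
  have hi := gb_mem_df.1 h
  have hfl : fl u i i = w i := by
    rw [gb_fl_self]
    cases hu : u i <;> cases hw : w i <;> simp [hu, hw] at hi ⊢
  have hint : ∀ z : V n, (∀ j, z j = fl u i j ∨ z j = w j) → ∀ j, z j = u j ∨ z j = w j := by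
    intro z hz j
    by_cases hj : j = i
    · subst hj
      rcases hz j with h1 | h1
      · right; rw [h1, hfl]
      · right; exact h1
    · have := hz j
      rwa [gb_fl_ne u hj] at this
  rintro c (⟨z, rfl, h1, h2, h3⟩ | ⟨z, j, rfl, h1, h2⟩)
  · left
    refine ⟨z, rfl, ?_, h2, hint z h3⟩
    rintro rfl
    rcases h3 i with h4 | h4
    · rw [hfl] at h4
      exact hi h4
    · exact hi h4
  · right
    refine ⟨z, j, rfl, hint z h1, ?_⟩
    by_cases hj : j = i
    · subst hj; exact hi
    · rwa [gb_fl_ne u hj] at h2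

lemma gb_cs_bits {n : ℕ} (l : List (Fin n)) : ∀ u w : V n, l.Nodup → l.toFinset = df u w →
    ∀ c ∈ cs u l, c ∈ bits u w := by
  induction l with
  | nil =>
    intro u w _ _ c hc
    simp [cs] at hc
  | cons i l ih =>
    intro u w hn hd c hc
    obtain ⟨hi, hn', hd'⟩ := gb_tail hn hd
    have hed : ed u i ∈ bits u w := by
      right
      exact ⟨u, i, rfl, fun j => Or.inl rfl, gb_mem_df.1 hi⟩
    cases l with
    | nil =>
      simp only [cs, mem_singleton] at hc
      rw [hc]
      exact hed
    | cons j l =>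
      simp only [cs, mem_insert] at hc
      rcases hc with rfl | rfl | hc
      · exact hed
      · left
        have hji : j ≠ i := by
          rintro rfl
          exact (List.nodup_cons.1 hn).1 (by simp)
        refine ⟨fl u i, rfl, ?_, ?_, ?_⟩
        · intro h
          have := congrFun h i
          rw [gb_fl_self] at this
          cases hu : u i <;> simp [hu] at this
        · intro h
          have h1 : j ∈ df u w := by rw [← hd]; simp
          have h2 := congrFun h j
          rw [gb_fl_ne u hji] at h2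
          exact gb_mem_df.1 h1 h2
        · intro k
          by_cases hk : k = i
          · subst hk
            right
            rw [gb_fl_self]
            have := gb_mem_df.1 hi
            cases hu : u k <;> cases hw : w k <;> simp [hu, hw] at this ⊢
          · left
            exact gb_fl_ne u hk
      · exact gb_bits_mono hi (ih (fl u i) w hn' hd' c hc)

lemma gb_concat {n : ℕ} (ω : Cfg n) (l2 : List (Fin n)) (l1 : List (Fin n)) : ∀ u v : V n,
    l1.Nodup → l1.toFinset = df u v → (∀ c ∈ cs u l1, ω c = true) → ω (Sum.inl v) = true →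
    (∀ c ∈ cs v l2, ω c = true) → ∀ c ∈ cs u (l1 ++ l2), ω c = true := by
  induction l1 with
  | nil =>
    intro u v _ hd _ _ h2
    have : u = v := gb_eq_of_df (by rw [← hd]; simp)
    subst this
    simpa using h2
  | cons i l ih =>
    intro u v hn hd h1 hv h2
    obtain ⟨hi, hn', hd'⟩ := gb_tail hn hd
    cases l with
    | nil =>
      have hvi : v = fl u i := gb_fl_of_df (by rw [← hd]; simp)
      subst hvi
      have hed : ω (ed u i) = true := h1 _ (by simp [cs])
      cases l2 with
      | nil =>
        intro c hc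
        simp only [List.append_nil, cs, mem_singleton] at hc
        rw [hc]; exact hed
      | cons j l2 =>
        intro c hc
        simp only [List.cons_append, List.nil_append, cs, mem_insert] at hc
        rcases hc with rfl | rfl | hc
        · exact hed
        · exact hv
        · exact h2 c hc
    | cons j l =>
      have h3 := ih (fl u i) v hn' hd' (fun c hc => h1 c (by simp [cs, hc])) hv h2
      intro c hc
      simp only [List.cons_append, cs, mem_insert] at hc
      rcases hc with rfl | rfl | hc
      · exact h1 _ (by simp [cs])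
      · exact h1 _ (by simp [cs])
      · exact h3 c hc

lemma gb_walk {n : ℕ} (ω : Cfg n) (w : V n) (hw : ω (Sum.inl w) = true) (l : List (Fin n)) :
    ∀ u : V n, ω (Sum.inl u) = true → l.Nodup → l.toFinset = df u w →
    (∀ c ∈ cs u l, ω c = true) → ∃ p : (G ω).Walk u w, p.length = l.length := by
  induction l with
  | nil =>
    intro u _ _ hd _
    have : u = w := gb_eq_of_df (by rw [← hd]; simp)
    subst this
    exact ⟨SimpleGraph.Walk.nil, rfl⟩
  | cons i l ih =>
    intro u hu hn hd h1
    obtain ⟨hi, hn', hd'⟩ := gb_tail hn hd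
    cases l with
    | nil =>
      have hwi : w = fl u i := gb_fl_of_df (by rw [← hd]; simp)
      have hed : ω (ed u i) = true := h1 _ (by simp [cs])
      have hadj : (G ω).Adj u w := ⟨hu, hw, i, hwi, hed⟩
      exact ⟨SimpleGraph.Walk.cons hadj SimpleGraph.Walk.nil, rfl⟩
    | cons j l =>
      have hfl : ω (Sum.inl (fl u i)) = true := h1 _ (by simp [cs])
      obtain ⟨p, hp⟩ := ih (fl u i) hfl hn' hd' (fun c hc => h1 c (by simp [cs, hc]))
      have hadj : (G ω).Adj u (fl u i) := ⟨hu, hfl, i, rfl, h1 _ (by simp [cs])⟩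
      exact ⟨SimpleGraph.Walk.cons hadj p, by rw [SimpleGraph.Walk.length_cons, hp]; rfl⟩

lemma gb_hd_le {n : ℕ} (ω : Cfg n) {u w : V n} (p : (G ω).Walk u w) : hd u w ≤ p.length := by
  induction p with
  | nil => simp [hd, df]
  | @cons u v w h p ih =>
    obtain ⟨_, _, i, rfl, _⟩ := h
    rw [SimpleGraph.Walk.length_cons]
    have h1 : df u w ⊆ df u (fl u i) ∪ df (fl u i) w := by
      intro j hj
      rw [mem_union, gb_mem_df, gb_mem_df]
      rw [gb_mem_df] at hj
      by_contra hcon
      push Not at hcon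
      exact hj (hcon.1.trans hcon.2)
    have h2 : hd u w ≤ (df u (fl u i)).card + hd (fl u i) w :=
      (card_le_card h1).trans (card_union_le _ _)
    rw [gb_df_fl_self, card_singleton] at h2
    omega

/-- DC-GEOB. -/
theorem geoB : StmtGeoB := by
  intro n
  refine ⟨?_, ?_, ?_, ?_, ?_⟩
  · intro u w x y hxy
    have key : ∀ x y : Cfg n, (∀ c ∈ bits u w, x c = y c) → Geo x u w → Geo y u w := by
      rintro x y hxy ⟨l, h1, h2, h3⟩
      exact ⟨l, h1, h2, fun c hc => by
        rw [← hxy c (gb_cs_bits l u w h1 h2 c hc)]; exact h3 c hc⟩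
    exact propext ⟨key x y hxy, key y x fun c hc => (hxy c hc).symm⟩
  · rintro ω u v w ⟨l1, h1, h2, h3⟩ hv ⟨l2, k1, k2, k3⟩ hint
    refine ⟨l1 ++ l2, ?_, ?_, gb_concat ω l2 l1 u v h1 h2 h3 hv k3⟩
    · rw [List.nodup_append]
      refine ⟨h1, k1, ?_⟩
      intro a ha b hb hab
      subst hab
      have ha' : a ∈ df u v := by rw [← h2]; exact List.mem_toFinset.2 ha
      have hb' : a ∈ df v w := by rw [← k2]; exact List.mem_toFinset.2 hb
      rw [gb_mem_df] at ha' hb'
      rcases hint a with h | h
      · exact ha' h.symm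
      · exact hb' h
    · rw [List.toFinset_append, h2, k2]
      ext i
      rw [mem_union, gb_mem_df, gb_mem_df, gb_mem_df]
      have := hint i
      cases hu : u i <;> cases hv : v i <;> cases hw : w i <;> simp [hu, hv, hw] at this ⊢
  · intro ω u i h
    constructor
    · refine ⟨[i], List.nodup_singleton i, ?_, ?_⟩
      · rw [gb_df_fl_self]; simp
      · intro c hc
        simp only [cs, mem_singleton] at hc
        rw [hc]; exact h
    · refine ⟨[i], List.nodup_singleton i, ?_, ?_⟩
      · rw [gb_df_comm, gb_df_fl_self]; simp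
      · intro c hc
        simp only [cs, mem_singleton] at hc
        rw [hc, ed_fl]; exact h
  · rintro ω u w hu hw ⟨l, h1, h2, h3⟩
    obtain ⟨p, hp⟩ := gb_walk ω w hw l u hu h1 h2 h3
    refine ⟨⟨p⟩, ?_⟩
    have h4 : l.length = hd u w := by
      rw [hd, ← h2, List.toFinset_card_of_nodup h1]
    rw [← h4, ← hp]
    exact SimpleGraph.dist_le p
  · intro ω u w h
    obtain ⟨p, hp⟩ := h.exists_walk_length_eq_dist
    rw [← hp]
    exact gb_hd_le ω p

end Pool.Agent.R896.DC
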