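import Pool.Agent.R896.DC.Stm
import Pool.Agent.R896.DC.Tool

/-!
# Project DC, piece LOC: local success
-/

set_option autoImplicit false

namespace Pool.Agent.R896.DC

open Finset Filter Topology

namespace LocAux

variable {n : ℕ}

theorem df_flS (u : V n) (S : Finset (Fin n)) : df u (flS u S) = S := by
  ext i
  simp only [df, mem_filter, mem_univ, true_and, flS]
  by_cases h : i ∈ S
  · simp [h]
  · simp [h]

theorem df_flS' (u : V n) (S : Finset (Fin n)) : df (flS u S) u = S := by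
  ext i
  simp only [df, mem_filter, mem_univ, true_and, flS]
  by_cases h : i ∈ S
  · simp [h]
  · simp [h]

/-- the vertices on the side of `u` -/
theorem side {u z : V n} {S : Finset (Fin n)} {j : Fin n} (hj : j ∉ S)
    (hz : ∀ i, z i = u i ∨ z i = flS u S i) : z j = u j := by
  rcases hz j with h | h
  · exact h
  · rw [h, flS, if_neg hj]

theorem side' {u z : V n} {S : Finset (Fin n)} {j : Fin n} (hj : j ∉ S)
    (hz : ∀ i, z i = flS u S i ∨ z i = u i) : z j = u j :=
  side hj fun i => (hz i).symm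

theorem pr_and {I : Type} [Fintype I] [DecidableEq I] (p : I → ℝ) {J J' : Set I}
    {A B : (I → Bool) → Prop} (hA : DependsOn A J) (hB : DependsOn B J') :
    DependsOn (fun ω => A ω ∧ B ω) (J ∪ J') := by
  intro x y h
  simp only
  rw [hA (fun i hi => h i (Or.inl hi)), hB (fun i hi => h i (Or.inr hi))]

theorem good {pv pe : ℝ} (h1 : 0 < pv) (h2 : pv ≤ 1) (h3 : 0 < pe) (h4 : pe ≤ 1)
    (hB : StmtGeoB) {d0 : ℕ} (hG : ∀ (n : ℕ) (u w : V n), d0 ≤ hd u w →
      1 / 2 ≤ Pr (bp pv pe n) {ω | Geo ω u w})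
    {k : ℕ} (hk : d0 ≤ k) (u w : V n) (D S : Finset (Fin n)) (hD : D.card = 2 * k)
    (hS : S ∈ powersetCard k D) (hw : 2 * k + 1 ≤ hd u w) :
    pv ^ 2 / 4 ≤ Pr (bp pv pe n) {ω | Good ω u w D S} := by
  rw [mem_powersetCard] at hS
  obtain ⟨hSD, hSk⟩ := hS
  have hT : (D \ S).card = k := by
    rw [card_sdiff_of_subset hSD, hD, hSk]
    omega
  obtain ⟨j, hj, hjD⟩ : ∃ j ∈ df u w, j ∉ D := by
    by_contra hc
    push Not at hc
    have := card_le_card (fun x hx => hc x hx : df u w ⊆ D)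
    have h5 : hd u w = (df u w).card := rfl
    omega
  have hjne : u j ≠ w j := (mem_filter.1 hj).2
  have hjS : j ∉ S := fun h => hjD (hSD h)
  have hjT : j ∉ D \ S := fun h => hjD (sdiff_subset h)
  set u1 := flS u S with hu1
  set w1 := flS w (D \ S) with hw1
  have hu1j : u1 j = u j := by rw [hu1, flS, if_neg hjS]
  have hw1j : w1 j = w j := by rw [hw1, flS, if_neg hjT]
  have dA : DependsOn (fun ω : Cfg n => ω (Sum.inl u1) = true) {Sum.inl u1} := by
    intro x y h
    simp only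
    rw [h (Sum.inl u1) rfl]
  have dC : DependsOn (fun ω : Cfg n => ω (Sum.inl w1) = true) {Sum.inl w1} := by
    intro x y h
    simp only
    rw [h (Sum.inl w1) rfl]
  have dB := (hB n).1 u u1
  have dE := (hB n).1 w1 w
  have mB : ∀ z : V n, (Sum.inl z : Ix n) ∈ bits u u1 → z j = u j ∧ z ≠ u1 := by
    intro z hz
    rcases hz with ⟨z', h5, h6, h7, h8⟩ | ⟨z', i, h5, _⟩
    · have := Sum.inl.inj h5
      subst this
      exact ⟨side hjS h8, h7⟩
    · simp [ed] at h5
  have mE : ∀ z : V n, (Sum.inl z : Ix n) ∈ bits w1 w → z j = w j ∧ z ≠ w1 := by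
    intro z hz
    rcases hz with ⟨z', h5, h6, h7, h8⟩ | ⟨z', i, h5, _⟩
    · have := Sum.inl.inj h5
      subst this
      exact ⟨side' hjT h8, h6⟩
    · simp [ed] at h5
  have eB : ∀ x : V n × Fin n, (Sum.inr x : Ix n) ∈ bits u u1 → x.2 ∈ S := by
    intro x hx
    rcases hx with ⟨z', h5, _⟩ | ⟨z', i, h5, h6, h7⟩
    · simp at h5
    · rw [ed] at h5
      have := Sum.inr.inj h5
      rw [this]
      simp only
      by_contra h8
      rw [hu1, flS, if_neg h8] at h7
      exact h7 rfl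
  have eE : ∀ x : V n × Fin n, (Sum.inr x : Ix n) ∈ bits w1 w → x.2 ∈ D \ S := by
    intro x hx
    rcases hx with ⟨z', h5, _⟩ | ⟨z', i, h5, h6, h7⟩
    · simp at h5
    · rw [ed] at h5
      have := Sum.inr.inj h5
      rw [this]
      simp only
      by_contra h8
      rw [hw1, flS, if_neg h8] at h7
      exact h7 rfl
  have jAB : Disjoint ({Sum.inl u1} : Set (Ix n)) (bits u u1) := by
    rw [Set.disjoint_singleton_left]
    intro h
    exact (mB u1 h).2 rfl
  have jCE : Disjoint ({Sum.inl w1} : Set (Ix n)) (bits w1 w) := by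
    rw [Set.disjoint_singleton_left]
    intro h
    exact (mE w1 h).2 rfl
  have jj : Disjoint (({Sum.inl u1} : Set (Ix n)) ∪ bits u u1)
      (({Sum.inl w1} : Set (Ix n)) ∪ bits w1 w) := by
    have hl : ∀ z : V n, (Sum.inl z : Ix n) ∈ ({Sum.inl u1} : Set (Ix n)) ∪ bits u u1 →
        z j = u j := by
      rintro z (h | h)
      · have := Sum.inl.inj (Set.mem_singleton_iff.1 h)
        rw [this, hu1j]
      · exact (mB z h).1
    have hr : ∀ z : V n, (Sum.inl z : Ix n) ∈ ({Sum.inl w1} : Set (Ix n)) ∪ bits w1 w →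
        z j = w j := by
      rintro z (h | h)
      · have := Sum.inl.inj (Set.mem_singleton_iff.1 h)
        rw [this, hw1j]
      · exact (mE z h).1
    rw [Set.disjoint_left]
    rintro (z | x) h5 h6
    · exact hjne ((hl z h5).symm.trans (hr z h6))
    · have h7 : x.2 ∈ S := by
        rcases h5 with h5 | h5
        · simp at h5
        · exact eB x h5
      have h8 : x.2 ∈ D \ S := by
        rcases h6 with h6 | h6
        · simp at h6
        · exact eE x h6
      exact (mem_sdiff.1 h8).2 h7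
  have e1 : Pr (bp pv pe n) {ω | Good ω u w D S} =
      (Pr (bp pv pe n) {ω | ω (Sum.inl u1) = true} * Pr (bp pv pe n) {ω | Geo ω u u1}) *
      (Pr (bp pv pe n) {ω | ω (Sum.inl w1) = true} * Pr (bp pv pe n) {ω | Geo ω w1 w}) := by
    rw [← Pr_ind2 (bp pv pe n) _ _ _ _ dA dB jAB, ← Pr_ind2 (bp pv pe n) _ _ _ _ dC dE jCE,
      ← Pr_ind2 (bp pv pe n) _ _ _ _ (pr_and (bp pv pe n) dA dB) (pr_and (bp pv pe n) dC dE) jj]
    congr 1
    ext ω
    simp only [Good, Set.mem_setOf_eq, and_assoc, ← hu1, ← hw1]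
  rw [e1, Pr_bit, Pr_bit]
  have b1 : 1 / 2 ≤ Pr (bp pv pe n) {ω | Geo ω u u1} := by
    refine hG n u u1 ?_
    rw [hd, hu1, df_flS, hSk]
    exact hk
  have b2 : 1 / 2 ≤ Pr (bp pv pe n) {ω | Geo ω w1 w} := by
    refine hG n w1 w ?_
    rw [hd, hw1, df_flS', hT]
    exact hk
  have b3 : bp pv pe n (Sum.inl u1) = pv := rfl
  have b4 : bp pv pe n (Sum.inl w1) = pv := rfl
  rw [b3, b4]
  calc pv ^ 2 / 4 = (pv * (1 / 2)) * (pv * (1 / 2)) := by ring
    _ ≤ _ := by gcongr

end LocAux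

open LocAux

theorem loc {pv pe : ℝ} (h1 : 0 < pv) (h2 : pv ≤ 1) (h3 : 0 < pe) (h4 : pe ≤ 1)
    (hB : StmtGeoB) (hG : StmtGeo pv pe) : StmtLoc pv pe := by
  classical
  obtain ⟨d0, hG⟩ := hG
  refine ⟨d0, pv ^ 2 / 8, pv ^ 2 / 8, by positivity, by positivity, ?_⟩
  intro n k u w D hk hD _ hw
  have hb := bp_unit (pv := pv) (pe := pe) h1.le h2 h3.le h4 n
  set M : ℝ := ((2 * k).choose k : ℝ) with hM
  have hM0 : 0 < M := by
    rw [hM]
    exact_mod_cast Nat.choose_pos (by omega)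
  have hcard : (powersetCard k D).card = (2 * k).choose k := by rw [card_powersetCard, hD]
  have hf : ∀ ω : Cfg n, ((GoodSet ω u w D k).card : ℝ) ≤ M := by
    intro ω
    rw [hM, ← hcard]
    exact_mod_cast card_le_card (filter_subset _ _)
  have hE : M * (pv ^ 2 / 4) ≤ Ex (bp pv pe n) (fun ω => ((GoodSet ω u w D k).card : ℝ)) := by
    have e1 : (fun ω : Cfg n => ((GoodSet ω u w D k).card : ℝ)) =
        fun ω => ∑ S ∈ powersetCard k D,
          (if ω ∈ {ω : Cfg n | Good ω u w D S} then (1 : ℝ) else 0) := by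
      funext ω
      rw [GoodSet, card_filter]
      push_cast
      refine sum_congr rfl fun S _ => ?_
      by_cases h : Good ω u w D S
      · rw [if_pos h, if_pos (show ω ∈ {ω : Cfg n | Good ω u w D S} from h)]
      · rw [if_neg h, if_neg (show ω ∉ {ω : Cfg n | Good ω u w D S} from h)]
    rw [e1, Ex_sum]
    have e2 : ∑ _S ∈ powersetCard k D, pv ^ 2 / 4 = M * (pv ^ 2 / 4) := by
      rw [sum_const, hcard, nsmul_eq_mul]
    rw [← e2]
    refine sum_le_sum fun S hS => ?_
    have h5 := good (n := n) h1 h2 h3 h4 hB hG hk u w D S hD hS hw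
    refine h5.trans (le_of_eq ?_)
    rw [Pr]
  have h6 := Pr_rev_markov (f := fun ω : Cfg n => ((GoodSet ω u w D k).card : ℝ)) hb hM0
    (a := pv ^ 2 / 8 * M) (by positivity) hf
  refine le_trans ?_ h6
  rw [le_div_iff₀ hM0]
  nlinarith

end Pool.Agent.R896.DC
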