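import Pool.Agent.R896.DC.Stm
import Pool.Agent.R896.DC.Tool

/-!
# Project DC, piece LOW: `m + 1` vertices of low degree
-/

set_option autoImplicit false

namespace Pool.Agent.R896.DC

open Finset Filter Topology

namespace LowAux

variable {n : ℕ}

theorem fl_apply (u : V n) (i j : Fin n) : fl u i j = if j = i then !(u j) else u j := by
  simp [fl, flS]

theorem fl_ne (u : V n) (i : Fin n) : fl u i ≠ u := by
  intro h
  have := congrFun h i
  rw [fl_apply, if_pos rfl] at this
  simp at this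

theorem fl_inj (u : V n) {i j : Fin n} (h : fl u i = fl u j) : i = j := by
  by_contra hc
  have := congrFun h i
  rw [fl_apply, fl_apply, if_pos rfl, if_neg hc] at this
  simp at this

theorem fl_inj' {u u' : V n} {i : Fin n} (h : fl u i = fl u' i) : u = u' := by
  funext j
  have := congrFun h j
  rw [fl_apply, fl_apply] at this
  by_cases hj : j = i
  · rw [if_pos hj, if_pos hj] at this
    simpa using this
  · rw [if_neg hj, if_neg hj] at this
    exact this

theorem ed_eq {u u' : V n} {i i' : Fin n} (h : ed u i = ed u' i') :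
    i = i' ∧ (u' = u ∨ u' = fl u i) := by
  rw [ed, ed] at h
  have h1 := Sum.inr.inj h
  rw [Prod.mk.injEq] at h1
  obtain ⟨h2, rfl⟩ := h1
  refine ⟨rfl, ?_⟩
  have h3 : ∀ j, j ≠ i → u' j = u j := by
    intro j hj
    have := congrFun h2 j
    rw [Function.update_of_ne hj, Function.update_of_ne hj] at this
    exact this.symm
  by_cases h4 : u' i = u i
  · left
    funext j
    by_cases hj : j = i
    · rw [hj, h4]
    · exact h3 j hj
  · right
    funext j
    rw [fl_apply]
    by_cases hj : j = i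
    · rw [if_pos hj, hj]
      cases h5 : u i <;> cases h6 : u' i <;> simp_all
    · rw [if_neg hj]
      exact h3 j hj

/-- the private directions -/
def N (S : Finset (V n)) (u : V n) : Finset (Fin n) :=
  univ.filter fun i => fl u i ∉ S ∧ ∀ u' ∈ S, ∀ i' : Fin n, fl u' i' = fl u i → u' = u

theorem two {u u' : V n} (h : u' ≠ u) :
    (univ.filter fun i : Fin n => ∃ i', fl u' i' = fl u i).card ≤ 2 := by
  rcases (univ.filter fun i : Fin n => ∃ i', fl u' i' = fl u i).eq_empty_or_nonempty with h0 | h0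
  · rw [h0]; simp
  · obtain ⟨i0, hi0⟩ := h0
    obtain ⟨i1, hi1⟩ := (mem_filter.1 hi0).2
    have h1 : (univ.filter fun i : Fin n => ∃ i', fl u' i' = fl u i) ⊆ {i0, i1} := by
      intro i hi
      obtain ⟨i', hi'⟩ := (mem_filter.1 hi).2
      by_contra hc
      rw [mem_insert, mem_singleton, not_or] at hc
      have e1 := congrFun hi1 i
      rw [fl_apply, fl_apply, if_neg hc.2, if_neg hc.1] at e1
      have e2 := congrFun hi' i
      rw [fl_apply, fl_apply, if_pos rfl] at e2
      by_cases h2 : i = i'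
      · subst h2
        exact h (fl_inj' hi')
      · rw [if_neg h2, e1] at e2
        simp at e2
    exact (card_le_card h1).trans card_le_two

theorem card_N {S : Finset (V n)} {m : ℕ} (hS : S.card = m + 1) {u : V n} (hu : u ∈ S) :
    n ≤ (N S u).card + 3 * m := by
  have hSe : (S.erase u).card = m := by rw [card_erase_of_mem hu, hS]; rfl
  have h1 : (univ : Finset (Fin n)) ⊆ N S u ∪ ((univ.filter fun i => fl u i ∈ S.erase u) ∪
      (S.erase u).biUnion fun u' => univ.filter fun i : Fin n => ∃ i', fl u' i' = fl u i) := by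
    intro i _
    by_cases h : i ∈ N S u
    · exact mem_union_left _ h
    · refine mem_union_right _ ?_
      rw [N, mem_filter] at h
      push Not at h
      by_cases h2 : fl u i ∈ S
      · refine mem_union_left _ (mem_filter.2 ⟨mem_univ _, mem_erase.2 ⟨fl_ne u i, h2⟩⟩)
      · obtain ⟨u', hu', i', h3, h4⟩ := h (mem_univ _) h2
        refine mem_union_right _ (mem_biUnion.2 ⟨u', mem_erase.2 ⟨h4, hu'⟩, ?_⟩)
        exact mem_filter.2 ⟨mem_univ _, i', h3⟩
  have h2 : (univ.filter fun i : Fin n => fl u i ∈ S.erase u).card ≤ m := by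
    rw [← hSe]
    refine card_le_card_of_injOn (fun i => fl u i) ?_ ?_
    · intro i hi
      exact (mem_filter.1 hi).2
    · intro i _ j _ h
      exact fl_inj u h
  have h3 : ((S.erase u).biUnion fun u' => univ.filter fun i : Fin n =>
      ∃ i', fl u' i' = fl u i).card ≤ m * 2 := by
    rw [← hSe]
    refine card_biUnion_le_card_mul _ _ _ fun u' hu' => two (mem_erase.1 hu').1
  have h4 := card_le_card h1
  rw [card_univ, Fintype.card_fin] at h4
  have h5 := card_union_le (N S u) ((univ.filter fun i => fl u i ∈ S.erase u) ∪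
      (S.erase u).biUnion fun u' => univ.filter fun i : Fin n => ∃ i', fl u' i' = fl u i)
  have h6 := card_union_le (univ.filter fun i => fl u i ∈ S.erase u)
      ((S.erase u).biUnion fun u' => univ.filter fun i : Fin n => ∃ i', fl u' i' = fl u i)
  omega

/-- the bits of a pair -/
def J (t : (_ : V n) × Fin n) : Set (Ix n) := {ed t.1 t.2, Sum.inl (fl t.1 t.2)}

/-- the factor -/
noncomputable def f (z : ℝ) (t : (_ : V n) × Fin n) (ω : Cfg n) : ℝ :=
  if Use ω t.1 t.2 then z else 1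

theorem dep (z : ℝ) (t : (_ : V n) × Fin n) : DependsOn (f z t) (J t) := by
  intro ω ω' h
  have h1 := h (ed t.1 t.2) (by simp [J])
  have h2 := h (Sum.inl (fl t.1 t.2)) (by simp [J])
  simp only [f, Use, h1, h2]

theorem disj {S : Finset (V n)} {a b : (_ : V n) × Fin n} (ha : a ∈ S.sigma (N S))
    (hb : b ∈ S.sigma (N S)) (hab : a ≠ b) : Disjoint (J a) (J b) := by
  rw [mem_sigma] at ha hb
  obtain ⟨u, i⟩ := a
  obtain ⟨u', i'⟩ := b
  simp only at ha hb
  have ha2 := (mem_filter.1 ha.2).2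
  rw [Set.disjoint_left]
  intro x hx hx'
  simp only [J, Set.mem_insert_iff, Set.mem_singleton_iff] at hx hx'
  rcases hx with rfl | rfl
  · rcases hx' with hx' | hx'
    · obtain ⟨rfl, h | h⟩ := ed_eq hx'
      · subst h
        exact hab rfl
      · exact ha2.1 (h ▸ hb.1)
    · simp [ed] at hx'
  · rcases hx' with hx' | hx'
    · simp [ed] at hx'
    · have h1 := Sum.inl.inj hx'
      have h2 := ha2.2 u' hb.1 i' h1.symm
      subst h2
      have := fl_inj _ h1
      subst this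
      exact hab rfl

theorem Ex_f {pv pe : ℝ} (z : ℝ) (t : (_ : V n) × Fin n) :
    Ex (bp pv pe n) (f z t) = 1 - (1 - z) * (pv * pe) := by
  classical
  have h1 := Pr_forall_true (bp pv pe n) ({ed t.1 t.2, Sum.inl (fl t.1 t.2)} : Finset (Ix n))
  rw [prod_pair (by simp [ed])] at h1
  have h2 : bp pv pe n (ed t.1 t.2) * bp pv pe n (Sum.inl (fl t.1 t.2)) = pv * pe := by
    simp [bp, ed, mul_comm]
  rw [h2] at h1
  rw [← h1]
  have h3 : f z t = fun ω => 1 - (1 - z) * (if ω ∈ {ω : Cfg n | ∀ c ∈ ({ed t.1 t.2,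
      Sum.inl (fl t.1 t.2)} : Finset (Ix n)), ω c = true} then (1 : ℝ) else 0) := by
    funext ω
    by_cases h : Use ω t.1 t.2
    · rw [f, if_pos h, if_pos]
      · ring
      · intro c hc
        rw [mem_insert, mem_singleton] at hc
        rcases hc with rfl | rfl
        · exact h.1
        · exact h.2
    · rw [f, if_neg h, if_neg]
      · ring
      · intro hc
        exact h ⟨hc _ (by simp), hc _ (by simp)⟩
  rw [h3, Ex_sub, Ex_const, Ex_mul_left]
  rw [Pr]
  congr!

theorem main {pv pe : ℝ} (h1 : 0 < pv) (h2 : pv ≤ 1) (h3 : 0 < pe) (h4 : pe ≤ 1) {z : ℝ}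
    (hz0 : 0 < z) (hz1 : z < 1) {m K : ℕ} (hK : 0 < K) (S : Finset (V n))
    (hS : S.card = m + 1) :
    Pr (bp pv pe n) {ω | ∀ u ∈ S, Low K ω u} ≤
      (z ^ (-((n : ℝ) / K))) ^ (m + 1) * (1 - (1 - z) * (pv * pe)) ^ (S.sigma (N S)).card := by
  classical
  have hb := bp_unit (pv := pv) (pe := pe) h1.le h2 h3.le h4 n
  set c : ℝ := z ^ (-((n : ℝ) / K)) with hc
  have hc0 : 0 < c := Real.rpow_pos_of_pos hz0 _
  have e1 : Ex (bp pv pe n) (fun ω => ∏ t ∈ S.sigma (N S), f z t ω) =
      (1 - (1 - z) * (pv * pe)) ^ (S.sigma (N S)).card := by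
    rw [Ex_prod_ind (bp pv pe n) (S.sigma (N S)) J (f z) (fun t _ => dep z t)
      (fun a ha b hb hab => disj ha hb hab)]
    rw [prod_congr rfl (fun t _ => Ex_f z t), prod_const]
  rw [← e1, ← Ex_mul_left, Pr]
  refine Ex_mono hb fun ω => ?_
  have hf0 : ∀ t : (_ : V n) × Fin n, 0 ≤ f z t ω := by
    intro t
    rw [f]
    split_ifs
    · exact hz0.le
    · exact zero_le_one
  by_cases h : ω ∈ {ω : Cfg n | ∀ u ∈ S, Low K ω u}
  · rw [if_pos h, prod_sigma, ← hS, ← prod_const, ← prod_mul_distrib]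
    calc (1 : ℝ) = ∏ u ∈ S, (1 : ℝ) := by simp
      _ ≤ ∏ u ∈ S, (c * ∏ i ∈ N S u, f z ⟨u, i⟩ ω) := by
        refine prod_le_prod (fun _ _ => zero_le_one) fun u hu => ?_
        have hl : Low K ω u := h u hu
        have hx : ∏ i ∈ N S u, f z ⟨u, i⟩ ω = z ^ ((N S u).filter fun i => Use ω u i).card := by
          simp only [f]
          rw [prod_ite, prod_const, prod_const_one, mul_one]
        have hle : ((N S u).filter fun i => Use ω u i).card * K ≤ n := by
          have : ((N S u).filter fun i => Use ω u i).card ≤ dg ω u :=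
            card_le_card (filter_subset_filter _ (subset_univ _))
          have h5 := Nat.mul_le_mul_right K this
          have h6 : dg ω u * K < n := hl
          omega
        have hle' : ((((N S u).filter fun i => Use ω u i).card : ℕ) : ℝ) ≤ (n : ℝ) / K := by
          rw [le_div_iff₀ (by exact_mod_cast hK)]
          exact_mod_cast hle
        rw [hx, ← Real.rpow_natCast]
        have h7 := Real.rpow_le_rpow_of_exponent_ge hz0 hz1.le hle'
        have h8 : c * z ^ ((n : ℝ) / K) = 1 := by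
          rw [hc, ← Real.rpow_add hz0, neg_add_cancel, Real.rpow_zero]
        rw [← h8]
        gcongr
  · rw [if_neg h]
    have : 0 ≤ ∏ t ∈ S.sigma (N S), f z t ω := prod_nonneg fun t _ => hf0 t
    positivity

end LowAux

open LowAux

theorem low {pv pe : ℝ} (h1 : 0 < pv) (h2 : pv ≤ 1) (h3 : 0 < pe) (h4 : pe ≤ 1) (m : ℕ)
    (hm : 2 * (1 - pv * pe) ^ (m + 1) < 1) : StmtLow pv pe m := by
  have hp0 : 0 < pv * pe := mul_pos h1 h3
  have hp1 : pv * pe ≤ 1 := mul_le_one₀ h2 h3.le h4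
  obtain ⟨z, hz0, hz1, hz⟩ : ∃ z : ℝ, 0 < z ∧ z < 1 ∧
      2 * (1 - (1 - z) * (pv * pe)) ^ (m + 1) < 1 := by
    have hcont : Continuous fun z : ℝ => 2 * (1 - (1 - z) * (pv * pe)) ^ (m + 1) := by fun_prop
    have h5 : ∀ᶠ z in 𝓝 (0 : ℝ), 2 * (1 - (1 - z) * (pv * pe)) ^ (m + 1) < 1 := by
      refine (hcont.tendsto 0).eventually_lt_const ?_
      simpa using hm
    have h6 : ∀ᶠ z in 𝓝[>] (0 : ℝ), 2 * (1 - (1 - z) * (pv * pe)) ^ (m + 1) < 1 :=
      h5.filter_mono nhdsWithin_le_nhds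
    have h7 : ∀ᶠ z in 𝓝[>] (0 : ℝ), z ∈ Set.Ioo (0 : ℝ) 1 := Ioo_mem_nhdsGT one_pos
    obtain ⟨z, hz, hz'⟩ := (h6.and h7).exists
    exact ⟨z, hz'.1, hz'.2, hz⟩
  set a : ℝ := 1 - (1 - z) * (pv * pe) with ha
  have ha0 : 0 < a := by
    rw [ha]
    nlinarith
  have ha1 : a ≤ 1 := by
    rw [ha]
    nlinarith
  obtain ⟨K0, hK0, hK1⟩ : ∃ K0 : ℕ, 0 < K0 ∧
      2 * (a ^ (m + 1) * z ^ (-(((m : ℝ) + 1) / K0))) < 1 := by
    have h5 : Tendsto (fun K : ℕ => -(((m : ℝ) + 1) / K)) atTop (𝓝 0) := by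
      have := (tendsto_const_div_atTop_nhds_zero_nat ((m : ℝ) + 1)).neg
      simpa using this
    have h6 : Tendsto (fun K : ℕ => 2 * (a ^ (m + 1) * z ^ (-(((m : ℝ) + 1) / K)))) atTop
        (𝓝 (2 * (a ^ (m + 1) * z ^ (0 : ℝ)))) := by
      refine Tendsto.const_mul _ (Tendsto.const_mul _ ?_)
      exact tendsto_const_nhds.rpow h5 (Or.inl hz0.ne')
    rw [Real.rpow_zero, mul_one] at h6
    obtain ⟨K0, hK0, hK1⟩ := ((h6.eventually_lt_const hz).and (eventually_gt_atTop 0)).exists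
    exact ⟨K0, hK1, hK0⟩
  set y : ℝ := z ^ (-(((m : ℝ) + 1) / K0)) with hy
  have hy0 : 0 < y := Real.rpow_pos_of_pos hz0 _
  refine ⟨K0, hK0, 1 / a ^ (3 * m * (m + 1)), a ^ (m + 1) * y, by positivity, by positivity,
    hK1, ?_⟩
  intro K hK n S hS
  have hKpos : 0 < K := lt_of_lt_of_le hK0 hK
  refine (main h1 h2 h3 h4 hz0 hz1 hKpos S hS).trans ?_
  rw [← ha]
  have hcard : (m + 1) * n ≤ (S.sigma (N S)).card + 3 * m * (m + 1) := by
    rw [card_sigma]
    have h5 : ∑ _u ∈ S, n ≤ ∑ u ∈ S, ((N S u).card + 3 * m) :=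
      sum_le_sum fun u hu => card_N hS hu
    rw [sum_const, sum_add_distrib, sum_const, hS, smul_eq_mul, smul_eq_mul] at h5
    calc (m + 1) * n ≤ ∑ u ∈ S, (N S u).card + (m + 1) * (3 * m) := h5
      _ = _ := by ring
  have e1 : a ^ (S.sigma (N S)).card ≤ 1 / a ^ (3 * m * (m + 1)) * (a ^ (m + 1)) ^ n := by
    rw [one_div, ← pow_mul, le_inv_mul_iff₀ (by positivity), ← pow_add]
    refine pow_le_pow_of_le_one ha0.le ha1 ?_
    omega
  have e2 : (z ^ (-((n : ℝ) / K))) ^ (m + 1) ≤ y ^ n := by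
    rw [hy, ← Real.rpow_mul_natCast hz0.le, ← Real.rpow_mul_natCast hz0.le]
    refine Real.rpow_le_rpow_of_exponent_ge hz0 hz1.le ?_
    have hK0' : (0 : ℝ) < K0 := by exact_mod_cast hK0
    have hK' : (K0 : ℝ) ≤ K := by exact_mod_cast hK
    have h6 : ((m : ℝ) + 1) / K ≤ ((m : ℝ) + 1) / K0 := by gcongr
    have h7 : (0 : ℝ) ≤ n := Nat.cast_nonneg n
    push_cast
    have h8 := mul_le_mul_of_nonneg_right h6 h7
    have h9 : (n : ℝ) / K * ((m : ℝ) + 1) = ((m : ℝ) + 1) / K * n := by ring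
    nlinarith
  calc (z ^ (-((n : ℝ) / K))) ^ (m + 1) * a ^ (S.sigma (N S)).card
      ≤ y ^ n * (1 / a ^ (3 * m * (m + 1)) * (a ^ (m + 1)) ^ n) := by gcongr
    _ = 1 / a ^ (3 * m * (m + 1)) * (a ^ (m + 1) * y) ^ n := by
      rw [mul_pow]
      ring

end Pool.Agent.R896.DC
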