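import Pool.Agent.R896.DC.Stm

/-!
# Project DC, piece PERM: permutations with few invariant initial segments dominate
-/

set_option autoImplicit false

namespace Pool.Agent.R896.DC

open Finset

namespace PermAux

/-- invariant initial segments -/
def S {d : ℕ} (τ : Equiv.Perm (Fin d)) : Finset ℕ :=
  (Finset.range d).filter fun j => 0 < j ∧ ∀ a : Fin d, (a : ℕ) < j → ((τ a : Fin d) : ℕ) < j

/-- the sum -/
noncomputable def T (C : ℝ) (d : ℕ) : ℝ := ∑ τ : Equiv.Perm (Fin d), C ^ (S τ).card

/-- direct sum of two permutations -/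
def psi {g m : ℕ} (x : Equiv.Perm (Fin g) × Equiv.Perm (Fin m)) : Equiv.Perm (Fin (g + m)) :=
  finSumFinEquiv.symm.trans ((Equiv.sumCongr x.1 x.2).trans finSumFinEquiv)

theorem psi_natAdd {g m : ℕ} (x : Equiv.Perm (Fin g) × Equiv.Perm (Fin m)) (b : Fin m) :
    psi x (Fin.natAdd g b) = Fin.natAdd g (x.2 b) := by
  simp [psi]

theorem exists_psi {g m : ℕ} (τ : Equiv.Perm (Fin (g + m)))
    (h : ∀ a : Fin (g + m), (a : ℕ) < g → ((τ a : Fin (g + m)) : ℕ) < g) : ∃ x, psi x = τ := by
  set σ : Equiv.Perm (Fin g ⊕ Fin m) := finSumFinEquiv.trans (τ.trans finSumFinEquiv.symm) with hσ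
  have h1 : Set.MapsTo σ (Set.range Sum.inl) (Set.range Sum.inl) := by
    rintro _ ⟨a, rfl⟩
    have h2 := h (Fin.castAdd m a) (by simp)
    refine ⟨⟨_, h2⟩, ?_⟩
    rw [hσ]
    simp only [Equiv.trans_apply, finSumFinEquiv_apply_left]
    rw [Equiv.eq_symm_apply]
    apply Fin.ext
    simp
  obtain ⟨x, hx⟩ := Equiv.Perm.mem_sumCongrHom_range_of_perm_mapsTo_inl h1
  refine ⟨x, ?_⟩
  have h3 : Equiv.sumCongr x.1 x.2 = σ := hx
  rw [psi, h3, hσ]
  ext a
  simp

theorem mem_S {d : ℕ} {τ : Equiv.Perm (Fin d)} {j : ℕ} : j ∈ S τ ↔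
    j < d ∧ 0 < j ∧ ∀ a : Fin d, (a : ℕ) < j → ((τ a : Fin d) : ℕ) < j := by
  simp [S]

theorem card_S {g m : ℕ} (x : Equiv.Perm (Fin g) × Equiv.Perm (Fin m))
    (h : ∀ j ∈ S (psi x), g ≤ j) : (S (psi x)).card ≤ (S x.2).card + 1 := by
  have h1 : S (psi x) ⊆ insert g ((S x.2).image fun i => g + i) := by
    intro j hj
    have hg := h j hj
    rw [mem_S] at hj
    rcases hg.eq_or_lt with rfl | hg
    · exact mem_insert_self _ _
    · refine mem_insert_of_mem (mem_image.2 ⟨j - g, ?_, by omega⟩)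
      rw [mem_S]
      refine ⟨by omega, by omega, ?_⟩
      intro b hb
      have h2 := hj.2.2 (Fin.natAdd g b) (by simp; omega)
      rw [psi_natAdd] at h2
      simp at h2
      omega
  refine (card_le_card h1).trans ((card_insert_le _ _).trans ?_)
  exact Nat.add_le_add_right card_image_le 1

theorem T_nonneg {C : ℝ} (hC : 1 ≤ C) (d : ℕ) : 0 ≤ T C d :=
  Finset.sum_nonneg fun _ _ => by positivity

theorem part {C : ℝ} (hC : 1 ≤ C) (g m : ℕ) :
    ∑ τ ∈ (univ : Finset (Equiv.Perm (Fin (g + m)))).filter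
      (fun τ => g ∈ S τ ∧ ∀ j ∈ S τ, g ≤ j), C ^ (S τ).card ≤ C * g.factorial * T C m := by
  set A := (univ : Finset (Equiv.Perm (Fin (g + m)))).filter
      (fun τ => g ∈ S τ ∧ ∀ j ∈ S τ, g ≤ j) with hA
  have hex : ∀ τ : Equiv.Perm (Fin (g + m)), τ ∈ A → ∃ x, psi x = τ := by
    intro τ hτ
    rw [hA, mem_filter, mem_S] at hτ
    exact exists_psi τ hτ.2.1.2.2
  choose! f hf using hex
  have hinj : Set.InjOn f A := by
    intro τ hτ τ' hτ' h
    rw [← hf τ hτ, ← hf τ' hτ', h]
  calc ∑ τ ∈ A, C ^ (S τ).card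
      ≤ ∑ τ ∈ A, C * C ^ (S (f τ).2).card := by
        refine sum_le_sum fun τ hτ => ?_
        have h1 := hf τ hτ
        have h2 : (S τ).card ≤ (S (f τ).2).card + 1 := by
          have := card_S (f τ) (by
            rw [h1]
            rw [hA, mem_filter] at hτ
            exact hτ.2.2)
          rwa [h1] at this
        calc C ^ (S τ).card ≤ C ^ ((S (f τ).2).card + 1) := pow_le_pow_right₀ hC h2
          _ = C * C ^ (S (f τ).2).card := by ring
    _ = ∑ x ∈ A.image f, C * C ^ (S x.2).card := by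
        rw [sum_image hinj]
    _ ≤ ∑ x : Equiv.Perm (Fin g) × Equiv.Perm (Fin m), C * C ^ (S x.2).card := by
        refine sum_le_sum_of_subset_of_nonneg (subset_univ _) fun _ _ _ => ?_
        positivity
    _ = C * g.factorial * T C m := by
        rw [Fintype.sum_prod_type, T]
        simp only [sum_const, card_univ, Fintype.card_perm, Fintype.card_fin, nsmul_eq_mul]
        rw [← mul_sum]
        ring

theorem rec_le {C : ℝ} (hC : 1 ≤ C) (d : ℕ) :
    T C d ≤ d.factorial + ∑ g ∈ Ico 1 d, C * g.factorial * T C (d - g) := by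
  have h1 : ∀ τ : Equiv.Perm (Fin d), C ^ (S τ).card ≤
      1 + ∑ g ∈ Ico 1 d, if (g ∈ S τ ∧ ∀ j ∈ S τ, g ≤ j) then C ^ (S τ).card else 0 := by
    intro τ
    rcases (S τ).eq_empty_or_nonempty with h | h
    · rw [h]
      simp
    · have h2 := (S τ).min'_mem h
      have h3 : (S τ).min' h ∈ Ico 1 d := by
        rw [mem_S] at h2
        rw [mem_Ico]
        omega
      have h4 : C ^ (S τ).card ≤
          ∑ g ∈ Ico 1 d, if (g ∈ S τ ∧ ∀ j ∈ S τ, g ≤ j) then C ^ (S τ).card else 0 := by
        refine le_trans (le_of_eq ?_) (single_le_sum (f := fun g =>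
          if (g ∈ S τ ∧ ∀ j ∈ S τ, g ≤ j) then C ^ (S τ).card else 0) ?_ h3)
        · rw [if_pos ⟨h2, fun j hj => (S τ).min'_le j hj⟩]
        · intro g _
          split_ifs
          · positivity
          · exact le_rfl
      linarith
  calc T C d ≤ ∑ τ : Equiv.Perm (Fin d), (1 + ∑ g ∈ Ico 1 d,
        if (g ∈ S τ ∧ ∀ j ∈ S τ, g ≤ j) then C ^ (S τ).card else 0) := sum_le_sum fun τ _ => h1 τ
    _ = d.factorial + ∑ g ∈ Ico 1 d, ∑ τ ∈ (univ : Finset (Equiv.Perm (Fin d))).filter
          (fun τ => g ∈ S τ ∧ ∀ j ∈ S τ, g ≤ j), C ^ (S τ).card := by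
        rw [sum_add_distrib, sum_comm]
        congr 1
        · simp [Fintype.card_perm]
        · refine sum_congr rfl fun g _ => ?_
          rw [sum_filter]
    _ ≤ _ := by
        gcongr with g hg
        rw [mem_Ico] at hg
        obtain ⟨m, rfl⟩ : ∃ m, d = g + m := ⟨d - g, by omega⟩
        have := part hC g m
        have e : g + m - g = m := by omega
        rw [e]
        exact this

theorem fac_le (g h : ℕ) (hg : 2 ≤ g) (hh : 2 ≤ h) :
    g.factorial * h.factorial ≤ 2 * (g + h - 2).factorial := by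
  induction h, hh using Nat.le_induction with
  | base => simp [mul_comm]
  | succ h hh ih =>
    have e : g + (h + 1) - 2 = (g + h - 2) + 1 := by omega
    rw [e, Nat.factorial_succ, Nat.factorial_succ]
    calc g.factorial * ((h + 1) * h.factorial) = (h + 1) * (g.factorial * h.factorial) := by ring
      _ ≤ (h + 1) * (2 * (g + h - 2).factorial) := Nat.mul_le_mul_left _ ih
      _ ≤ (g + h - 2 + 1) * (2 * (g + h - 2).factorial) := Nat.mul_le_mul_right _ (by omega)
      _ = 2 * ((g + h - 2 + 1) * (g + h - 2).factorial) := by ring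

theorem sum_fac (d : ℕ) (hd : 1 ≤ d) :
    ∑ g ∈ Ico 1 d, g.factorial * (d - g).factorial ≤ 4 * (d - 1).factorial := by
  rcases Nat.lt_or_ge d 4 with h | h
  · interval_cases d
    · simp
    · decide
    · decide
  · obtain ⟨e, rfl⟩ : ∃ e, d = e + 4 := ⟨d - 4, by omega⟩
    rw [Finset.sum_eq_sum_Ico_succ_bot (by omega), Finset.sum_Ico_succ_top (by omega)]
    have h1 : ∑ g ∈ Ico (1 + 1) (e + 3), g.factorial * (e + 4 - g).factorial ≤
        ∑ g ∈ Ico (1 + 1) (e + 3), 2 * (e + 2).factorial := by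
      refine sum_le_sum fun g hg => ?_
      rw [mem_Ico] at hg
      have := fac_le g (e + 4 - g) (by omega) (by omega)
      have e1 : g + (e + 4 - g) - 2 = e + 2 := by omega
      rwa [e1] at this
    rw [sum_const, Nat.card_Ico, smul_eq_mul] at h1
    have e2 : e + 4 - 1 = e + 3 := by omega
    have e3 : e + 4 - (e + 3) = 1 := by omega
    have e4 : e + 3 - (1 + 1) = e + 1 := by omega
    rw [e4] at h1
    rw [e2, e3]
    have e5 : (e + 3).factorial = (e + 3) * (e + 2).factorial := Nat.factorial_succ _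
    simp only [Nat.factorial_one, one_mul, mul_one]
    nlinarith [h1, e5, Nat.factorial_pos (e + 2)]

end PermAux

open PermAux

theorem perm : StmtPerm := by
  intro C hC
  set F : ℕ → ℝ := fun d => T C d / d.factorial with hF
  have hF0 : ∀ d, 0 ≤ F d := fun d => div_nonneg (T_nonneg hC d) (by positivity)
  have hT : ∀ d, T C d = F d * d.factorial := by
    intro d
    have : (d.factorial : ℝ) ≠ 0 := by positivity
    simp only [hF]
    field_simp
  have key : ∀ (M : ℝ) (d : ℕ), 1 ≤ d → 0 ≤ M → (∀ i < d, F i ≤ M) → F d ≤ 1 + 4 * C * M / d := by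
    intro M d hd hM hi
    have h1 := rec_le hC d
    have h2 : ∑ g ∈ Ico 1 d, C * g.factorial * T C (d - g) ≤
        C * M * (4 * ((d - 1).factorial : ℝ)) := by
      calc ∑ g ∈ Ico 1 d, C * g.factorial * T C (d - g)
          ≤ ∑ g ∈ Ico 1 d, C * M * ((g.factorial * (d - g).factorial : ℕ) : ℝ) := by
            refine sum_le_sum fun g hg => ?_
            rw [mem_Ico] at hg
            rw [hT]
            have := hi (d - g) (by omega)
            push_cast
            calc C * (g.factorial : ℝ) * (F (d - g) * ((d - g).factorial : ℝ))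
                = (C * (g.factorial : ℝ) * ((d - g).factorial : ℝ)) * F (d - g) := by ring
              _ ≤ (C * (g.factorial : ℝ) * ((d - g).factorial : ℝ)) * M := by gcongr
              _ = _ := by ring
        _ = C * M * ((∑ g ∈ Ico 1 d, g.factorial * (d - g).factorial : ℕ) : ℝ) := by
            rw [← mul_sum]
            push_cast
            rfl
        _ ≤ C * M * (4 * ((d - 1).factorial : ℝ)) := by
            have := sum_fac d hd
            have h3 : ((∑ g ∈ Ico 1 d, g.factorial * (d - g).factorial : ℕ) : ℝ) ≤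
                4 * ((d - 1).factorial : ℝ) := by exact_mod_cast this
            gcongr
    have h3 : (d.factorial : ℝ) = d * ((d - 1).factorial : ℝ) := by
      obtain ⟨e, rfl⟩ : ∃ e, d = e + 1 := ⟨d - 1, by omega⟩
      rw [Nat.factorial_succ]
      push_cast
      simp
    have hd0 : (0 : ℝ) < d := by exact_mod_cast hd
    have h4 : (0 : ℝ) < ((d - 1).factorial : ℝ) := by positivity
    have h5 : F d * d.factorial ≤ (1 + 4 * C * M / d) * d.factorial := by
      rw [← hT]
      refine h1.trans ((add_le_add_right h2 _).trans (le_of_eq ?_))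
      rw [h3]
      field_simp
    exact le_of_mul_le_mul_right h5 (by positivity)
  set D : ℕ := ⌈8 * C⌉₊ + 1 with hD
  set M : ℝ := 2 + ∑ i ∈ range D, F i with hM
  have hM2 : 2 ≤ M := by
    have : 0 ≤ ∑ i ∈ range D, F i := sum_nonneg fun i _ => hF0 i
    linarith
  have hall : ∀ d, F d ≤ M := by
    intro d
    induction d using Nat.strong_induction_on with
    | _ d ih =>
      rcases Nat.lt_or_ge d D with h | h
      · have := single_le_sum (f := F) (fun i _ => hF0 i) (mem_range.2 h)
        linarith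
      · have hd1 : 1 ≤ d := by omega
        have h1 := key M d hd1 (by linarith) ih
        have h2 : 8 * C ≤ d := by
          have h3 := Nat.le_ceil (8 * C)
          have h4 : ((⌈8 * C⌉₊ : ℕ) : ℝ) ≤ d := by
            exact_mod_cast (by omega : ⌈8 * C⌉₊ ≤ d)
          linarith
        have hd0 : (0 : ℝ) < d := by exact_mod_cast hd1
        have h3 : 4 * C * M / d ≤ M / 2 := by
          rw [div_le_div_iff₀ hd0 (by norm_num)]
          nlinarith
        linarith
  refine ⟨⌈4 * C * M⌉₊ + 1, fun d hd => ?_⟩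
  have hd1 : 1 ≤ d := by omega
  have h1 := key M d hd1 (by linarith) (fun i _ => hall i)
  have hd0 : (0 : ℝ) < d := by exact_mod_cast hd1
  have h2 : 4 * C * M ≤ d := by
    have h3 := Nat.le_ceil (4 * C * M)
    have h4 : ((⌈4 * C * M⌉₊ : ℕ) : ℝ) ≤ d := by
      exact_mod_cast (by omega : ⌈4 * C * M⌉₊ ≤ d)
    linarith
  have h3 : 4 * C * M / d ≤ 1 := by
    rw [div_le_one hd0]
    exact h2
  have h4 : T C d ≤ 2 * (d.factorial : ℝ) := by
    rw [hT]
    have : F d ≤ 2 := by linarith
    gcongr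
  exact h4

end Pool.Agent.R896.DC
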