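import Pool.Agent.R896.DC.Stm
import Pool.Agent.R896.DC.Tool

/-! DC-STEP (MP_d3947f_pr): neighbours with many usable directions. -/

set_option autoImplicit false

namespace Pool.Agent.R896.DC

open Finset

namespace Step

variable {n : ℕ}

lemma fl_same (u : V n) (i : Fin n) : fl u i i = !(u i) := by
  unfold fl flS
  simp

lemma fl_ne (u : V n) {i j : Fin n} (h : j ≠ i) : fl u i j = u j := by
  unfold fl flS
  simp [h]

lemma fl_inj (u : V n) {i j : Fin n} (h : fl u i = fl u j) : i = j := by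
  by_contra hne
  have h1 := congrFun h i
  rw [fl_same, fl_ne u hne] at h1
  revert h1
  cases u i <;> simp

/-- the bits that decide whether the direction `j` is usable at `y` -/
def J1 (y : V n) (j : Fin n) : Set (Ix n) := {c | c = ed y j ∨ c = Sum.inl (fl y j)}

lemma J1_disj (y : V n) {j j' : Fin n} (h : j ≠ j') : Disjoint (J1 y j) (J1 y j') := by
  rw [Set.disjoint_left]
  rintro c (hc | hc) (hc' | hc')
  · rw [hc] at hc'
    unfold ed at hc'
    rw [Sum.inr.injEq, Prod.mk.injEq] at hc'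
    exact h hc'.2
  · rw [hc] at hc'
    unfold ed at hc'
    simp at hc'
  · rw [hc] at hc'
    unfold ed at hc'
    simp at hc'
  · rw [hc, Sum.inl.injEq] at hc'
    exact h (fl_inj y hc')

/-- all bits used by the neighbour `fl x i` in the directions of `W` -/
def J2 (x : V n) (W : Finset (Fin n)) (i : Fin n) : Set (Ix n) := {c | ∃ j ∈ W, c ∈ J1 (fl x i) j}

lemma J2_disj (x : V n) {U W : Finset (Fin n)} (hUW : Disjoint U W) {i i' : Fin n} (hi : i ∈ U)
    (hii : i ≠ i') : Disjoint (J2 x W i) (J2 x W i') := by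
  have hW : ∀ j ∈ W, i ≠ j := fun j hj h => by
    subst h
    exact (Finset.disjoint_left.mp hUW) hi hj
  rw [Set.disjoint_left]
  rintro c ⟨j, hj, hc | hc⟩ ⟨j', hj', hc' | hc'⟩
  · rw [hc] at hc'
    unfold ed at hc'
    rw [Sum.inr.injEq, Prod.mk.injEq] at hc'
    have h1 := congrFun hc'.1 i
    rw [Function.update_of_ne (hW j hj), Function.update_of_ne (hW j' hj'), fl_same,
      fl_ne x hii] at h1
    revert h1
    cases x i <;> simp
  · rw [hc] at hc'
    unfold ed at hc'
    simp at hc'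
  · rw [hc] at hc'
    unfold ed at hc'
    simp at hc'
  · rw [hc, Sum.inl.injEq] at hc'
    have h1 := congrFun hc' i
    rw [fl_ne _ (hW j hj), fl_ne _ (hW j' hj'), fl_same, fl_ne x hii] at h1
    revert h1
    cases x i <;> simp

lemma use_congr {ω ω' : Cfg n} {y : V n} {j : Fin n} (h : ∀ c ∈ J1 y j, ω c = ω' c) :
    Use ω y j ↔ Use ω' y j := by
  unfold Use
  rw [h _ (Or.inl rfl), h _ (Or.inr rfl)]

lemma Pr_use {pv pe : ℝ} (y : V n) (j : Fin n) :
    Pr (bp pv pe n) {ω | Use ω y j} = pe * pv := by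
  have h1 : {ω : Cfg n | Use ω y j} =
      {ω | ∀ c ∈ ({ed y j, Sum.inl (fl y j)} : Finset (Ix n)), ω c = true} := by
    ext ω
    simp [Use]
  rw [h1, Pr_forall_true, prod_pair]
  · simp [bp, ed]
  · unfold ed
    simp

open Classical in
lemma Ex_use {pv pe : ℝ} (y : V n) (j : Fin n) :
    Ex (bp pv pe n) (fun ω => if Use ω y j then (1 / 2 : ℝ) else 1) = 1 - pv * pe / 2 := by
  have h1 : (fun ω : Cfg n => if Use ω y j then (1 / 2 : ℝ) else 1) =
      fun ω => (fun _ : Cfg n => (1 : ℝ)) ω -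
        (fun ω : Cfg n => (1 / 2 : ℝ) * (if ω ∈ {ω : Cfg n | Use ω y j} then (1 : ℝ) else 0)) ω := by
    funext ω
    by_cases h : Use ω y j
    · simp only [h, if_true, Set.mem_ofPred_eq]
      norm_num
    · simp only [h, if_false, Set.mem_ofPred_eq]
      norm_num
  rw [h1, Ex_sub, Ex_const, Ex_mul_left]
  have h2 : Ex (bp pv pe n) (fun ω => if ω ∈ {ω : Cfg n | Use ω y j} then (1 : ℝ) else 0) =
      Pr (bp pv pe n) {ω | Use ω y j} := by
    unfold Pr
    congr!
  rw [h2, Pr_use]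
  ring

/-- one vertex -/
lemma single {pv pe : ℝ} (h1 : 0 < pv) (h2 : pv ≤ 1) (h3 : 0 < pe) (h4 : pe ≤ 1) (y : V n)
    (W : Finset (Fin n)) (K' : ℕ) (hK' : 0 < K') :
    Pr (bp pv pe n) {ω | (W.filter fun j => Use ω y j).card * K' < n} ≤
      (1 - pv * pe / 2) ^ W.card * 2 ^ (n / K') := by
  classical
  have hp := bp_unit h1.le h2 h3.le h4 n
  have hEx : Ex (bp pv pe n) (fun ω => ∏ j ∈ W, if Use ω y j then (1 / 2 : ℝ) else 1) =
      (1 - pv * pe / 2) ^ W.card := by
    rw [Ex_prod_ind (bp pv pe n) W (J1 y) (fun j ω => if Use ω y j then (1 / 2 : ℝ) else 1)]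
    · rw [prod_congr rfl (fun j _ => Ex_use y j), prod_const]
    · intro j _ ω ω' hω
      have := use_congr hω
      by_cases h : Use ω y j
      · simp only [h, this.mp h]
      · have h' : ¬ Use ω' y j := fun h'' => h (this.mpr h'')
        simp only [h, h']
    · intro j _ j' _ hjj
      exact J1_disj y hjj
  have hmk := Pr_markov (p := bp pv pe n) hp
    (f := fun ω => ∏ j ∈ W, if Use ω y j then (1 / 2 : ℝ) else 1)
    (fun ω => prod_nonneg fun j _ => by split_ifs <;> norm_num)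
    (a := (1 / 2 : ℝ) ^ (n / K')) (by positivity)
  rw [hEx] at hmk
  refine (Pr_mono hp ?_).trans (hmk.trans (le_of_eq ?_))
  · intro ω hω
    rw [Set.mem_ofPred_eq] at hω ⊢
    have hX : (W.filter fun j => Use ω y j).card ≤ n / K' :=
      (Nat.le_div_iff_mul_le hK').mpr hω.le
    rw [prod_ite, prod_const, prod_const_one, mul_one]
    have h5 : (W.filter fun j => Use ω y j) = (W.filter fun j => Use ω y j) := rfl
    refine le_trans ?_ (le_of_eq ?_) (b := (1 / 2 : ℝ) ^ (W.filter fun j => Use ω y j).card)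
    · exact pow_le_pow_of_le_one (by norm_num) (by norm_num) hX
    · congr
  · rw [one_div, inv_pow, div_inv_eq_mul]

end Step

open Step

theorem step {pv pe : ℝ} (h1 : 0 < pv) (h2 : pv ≤ 1) (h3 : 0 < pe) (h4 : pe ≤ 1) :
    StmtStep pv pe := by
  classical
  intro K1 K2 hK1 hK2
  set l : ℝ := 1 - pv * pe / 2 with hl
  have hpp : 0 < pv * pe := mul_pos h1 h3
  have hpp1 : pv * pe ≤ 1 := mul_le_one₀ h2 h3.le h4
  have hl1 : l < 1 := by rw [hl]; linarith
  have hl0 : 0 < l := by rw [hl]; linarith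
  obtain ⟨a, ha⟩ := exists_pow_lt_of_lt_one (show (0 : ℝ) < (1 / 4) ^ K2 by positivity) hl1
  obtain ⟨n0, hn0⟩ := exists_pow_lt_of_lt_one (show (0 : ℝ) < (1 / 100) ^ (2 * K1 * K2) by positivity)
    hl1
  refine ⟨a + 1, Nat.succ_pos a, n0, ?_⟩
  set K' := a + 1 with hK'
  have hK'0 : 0 < K' := Nat.succ_pos a
  have hlK' : l ^ K' ≤ (1 / 4) ^ K2 := by
    refine le_trans ?_ ha.le
    exact pow_le_pow_of_le_one hl0.le hl1.le (by omega)
  intro n hn x U W hUW hU hW
  have hp := bp_unit h1.le h2 h3.le h4 n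
  set B : ℝ := l ^ W.card * 2 ^ (n / K') with hB
  have hB0 : 0 ≤ B := by positivity
  -- product over U
  have hprod : Pr (bp pv pe n) {ω | ∀ i ∈ U, (W.filter fun j => Use ω (fl x i) j).card * K' < n}
      ≤ B ^ U.card := by
    rw [Pr_ind (bp pv pe n) U (J2 x W)
      (fun i ω => (W.filter fun j => Use ω (fl x i) j).card * K' < n)]
    · calc ∏ t ∈ U, Pr (bp pv pe n) {ω | (W.filter fun j => Use ω (fl x t) j).card * K' < n}
          ≤ ∏ t ∈ U, B := prod_le_prod (fun t _ => Pr_nonneg hp _)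
            (fun t _ => single h1 h2 h3 h4 (fl x t) W K' hK'0)
        _ = B ^ U.card := by rw [prod_const]
    · intro i _ ω ω' hω
      have : (W.filter fun j => Use ω (fl x i) j) = (W.filter fun j => Use ω' (fl x i) j) := by
        apply filter_congr
        intro j hj
        exact use_congr (fun c hc => hω c ⟨j, hj, hc⟩)
      show ((W.filter fun j => Use ω (fl x i) j).card * K' < n) =
        ((W.filter fun j => Use ω' (fl x i) j).card * K' < n)
      rw [this]
    · intro i hi i' _ hii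
      exact J2_disj x hUW hi hii
  have hBpow : B ^ (2 * K2) ≤ l ^ n := by
    have e1 : B ^ (2 * K2) = (l ^ (W.card * K2)) ^ 2 * (4 ^ K2) ^ (n / K') := by
      rw [hB, mul_pow]
      congr 1
      · rw [← pow_mul, ← pow_mul]
        congr 1
        ring
      · rw [← pow_mul, ← pow_mul, show (4 : ℝ) = 2 ^ 2 by norm_num, ← pow_mul]
        congr 1
        ring
    have e2 : l ^ (W.card * K2) ≤ l ^ n := pow_le_pow_of_le_one hl0.le hl1.le hW
    have e3 : l ^ n ≤ ((1 / 4 : ℝ) ^ K2) ^ (n / K') := by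
      calc l ^ n ≤ l ^ (K' * (n / K')) :=
            pow_le_pow_of_le_one hl0.le hl1.le (Nat.mul_div_le n K')
        _ = (l ^ K') ^ (n / K') := by rw [pow_mul]
        _ ≤ ((1 / 4 : ℝ) ^ K2) ^ (n / K') := pow_le_pow_left₀ (by positivity) hlK' _
    have e4 : ((1 / 4 : ℝ) ^ K2) ^ (n / K') * (4 ^ K2) ^ (n / K') = 1 := by
      rw [← mul_pow, ← mul_pow]
      norm_num
    rw [e1]
    calc (l ^ (W.card * K2)) ^ 2 * (4 ^ K2) ^ (n / K')
        ≤ (l ^ n) ^ 2 * (4 ^ K2) ^ (n / K') :=
          mul_le_mul_of_nonneg_right (pow_le_pow_left₀ (by positivity) e2 2) (by positivity)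
      _ = l ^ n * (l ^ n * (4 ^ K2) ^ (n / K')) := by ring
      _ ≤ l ^ n * (((1 / 4 : ℝ) ^ K2) ^ (n / K') * (4 ^ K2) ^ (n / K')) := by
          apply mul_le_mul_of_nonneg_left _ (by positivity)
          exact mul_le_mul_of_nonneg_right e3 (by positivity)
      _ = l ^ n := by rw [e4, mul_one]
  have hfin : (Pr (bp pv pe n)
      {ω | ∀ i ∈ U, (W.filter fun j => Use ω (fl x i) j).card * K' < n}) ^ (2 * K1 * K2) ≤
      ((1 / 100 : ℝ) ^ n) ^ (2 * K1 * K2) := by
    calc (Pr (bp pv pe n)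
          {ω | ∀ i ∈ U, (W.filter fun j => Use ω (fl x i) j).card * K' < n}) ^ (2 * K1 * K2)
        ≤ (B ^ U.card) ^ (2 * K1 * K2) := pow_le_pow_left₀ (Pr_nonneg hp _) hprod _
      _ = (B ^ (2 * K2)) ^ (U.card * K1) := by
          rw [← pow_mul, ← pow_mul]
          congr 1
          ring
      _ ≤ (l ^ n) ^ (U.card * K1) := pow_le_pow_left₀ (by positivity) hBpow _
      _ ≤ (l ^ n) ^ n := pow_le_pow_of_le_one (by positivity) (pow_le_one₀ hl0.le hl1.le) hU
      _ ≤ ((1 / 100 : ℝ) ^ (2 * K1 * K2)) ^ n := by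
          apply pow_le_pow_left₀ (by positivity)
          exact (pow_le_pow_of_le_one hl0.le hl1.le hn).trans hn0.le
      _ = ((1 / 100 : ℝ) ^ n) ^ (2 * K1 * K2) := by
          rw [← pow_mul, ← pow_mul]
          congr 1
          ring
  have hne : 2 * K1 * K2 ≠ 0 := by positivity
  exact (pow_le_pow_iff_left₀ (Pr_nonneg hp _) (by positivity) hne).mp hfin

end Pool.Agent.R896.DC
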